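import Pool.Statements.S00321
import Pool.Agent.Lib_MP_9828eb_ag.Final

set_option autoImplicit false
open scoped LinearAlgebra.Projectivization
open Pool Pool.MP_9828eb_ag

namespace Pool.Agent.S00321

/-- Every finite nondegenerate point set in complex P^3 lying on a smooth quadric, whose projection from a general point is a complete intersection, is the set of intersection points of a pairwise skew lines with b pairwise skew lines, each meeting each other. -/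
theorem result :
  ∀ Z : Finset (ℙ ℂ (Fin 4 → ℂ)),
    (⨆ z ∈ Z, z.submodule) = ⊤ →
    (∃ q : MvPolynomial (Fin 4) ℂ, q.IsHomogeneous 2 ∧
      (∀ v : Fin 4 → ℂ,
        (∀ i : Fin 4, MvPolynomial.eval v (MvPolynomial.pderiv i q) = 0) → v = 0) ∧
      ∀ z ∈ Z, MvPolynomial.eval z.rep q = 0) →
    (∃ h : MvPolynomial (Fin 4) ℂ, h ≠ 0 ∧
      ∀ p : Fin 4 → ℂ, p ≠ 0 → MvPolynomial.eval p h ≠ 0 →
        ∃ F G : MvPolynomial (Fin 4) ℂ, ∀ f : MvPolynomial (Fin 4) ℂ,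
          f ∈ Ideal.span {F, G} ↔
            ∀ z ∈ Z, ∀ s t : ℂ, MvPolynomial.eval (s • p + t • z.rep) f = 0) →
    ∃ a b : ℕ, ∃ L : Fin a → Submodule ℂ (Fin 4 → ℂ),
      ∃ M : Fin b → Submodule ℂ (Fin 4 → ℂ),
        (∀ i, Module.finrank ℂ (L i) = 2) ∧
        (∀ j, Module.finrank ℂ (M j) = 2) ∧
        (∀ i i', i ≠ i' → L i ⊓ L i' = ⊥) ∧
        (∀ j j', j ≠ j' → M j ⊓ M j' = ⊥) ∧
        (∀ i j, Module.finrank ℂ (↥(L i ⊓ M j)) = 1) ∧
        ∀ z : ℙ ℂ (Fin 4 → ℂ), z ∈ Z ↔ ∃ i j, z.submodule = L i ⊓ M j := by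
  intro Z hs hq hh
  exact Pool.Agent.Geproci.isGrid_main Z hs hq hh

end Pool.Agent.S00321
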