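import Pool.Statements.S01335
import Pool.Agent.Lib_4426b5.Final

set_option autoImplicit false
open Pool Pool.MP_4426b5_al

namespace Pool.Agent.S01335

/-- For every r > 2 it is decidable, for a word v in x_1..x_r and their inverses, whether v fails to be a contiguous subword of every cyclically reduced primitive element of the free group of rank r. -/
theorem result :
    ∀ r : ℕ, 2 < r →
      ComputablePred (fun v : List (Fin r × Bool) =>
        ¬ ∃ (φ : MulAut (FreeGroup (Fin r))) (i : Fin r),
            List.IsInfix v (φ (FreeGroup.of i)).toWord ∧
            ∀ a ∈ (φ (FreeGroup.of i)).toWord.head?,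
              ∀ b ∈ (φ (FreeGroup.of i)).toWord.getLast?,
                ¬ (a.1 = b.1 ∧ a.2 ≠ b.2)) := by
  intro r hr
  have : Nontrivial (Fin r) := Fin.nontrivial_iff_two_le.2 (by omega)
  exact Pool.Agent.Lib_4426b5.main

end Pool.Agent.S01335
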