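import Pool.Statements.S01642
import Pool.Agent.Lib_5f1296.Ring

set_option autoImplicit false
open Pool Pool.MP_5f1296_al

namespace Pool.Agent.S01642

/-- The negation of the preceding statement: In every group with an ascending series with abelian factors, an element is right n-Engel for some n iff for some n ≥ 1 every cyclic subgroup ⟨x⟩ is subnormal of defect ≤ n in ⟨x⟩ times the normal closure of that element. -/
theorem result :
    ¬ (∀ (G : Type) [Group G],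
      (∃ (β : Ordinal.{0}) (S : Ordinal.{0} → Subgroup G),
        S 0 = ⊥ ∧ S β = ⊤ ∧
        (∀ α < β, S α ≤ S (Order.succ α) ∧
          (∀ g ∈ S (Order.succ α), ∀ h ∈ S α, g * h * g⁻¹ ∈ S α) ∧
          (∀ x ∈ S (Order.succ α), ∀ y ∈ S (Order.succ α), x * y * x⁻¹ * y⁻¹ ∈ S α)) ∧
        (∀ l ≤ β, Order.IsSuccLimit l → S l = ⨆ (α : Ordinal.{0}) (_ : α < l), S α)) →
      ∀ a : G,
        (∃ n : ℕ, ∀ x : G, (fun y : G => y⁻¹ * x⁻¹ * y * x)^[n] a = 1) ↔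
        (∃ n : ℕ, 1 ≤ n ∧ ∀ x : G, ∃ H : ℕ → Subgroup G,
           H 0 = Subgroup.zpowers x ∧
           H n = Subgroup.zpowers x ⊔ Subgroup.normalClosure {a} ∧
           ∀ i < n, H i ≤ H (i + 1) ∧ ∀ g ∈ H (i + 1), ∀ h ∈ H i, g * h * g⁻¹ ∈ H i)) := by
  intro h
  obtain ⟨n, _, hn⟩ := (h (Pool.Agent.Lib_5f1296.GG Pool.Agent.Lib_5f1296.DD)
    (Pool.Agent.Lib_5f1296.series Pool.Agent.Lib_5f1296.DD)
    (Pool.Agent.Lib_5f1296.τ Pool.Agent.Lib_5f1296.DD)).1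
    ⟨73, fun x => Pool.Agent.Lib_5f1296.engel Pool.Agent.Lib_5f1296.DD x _⟩
  obtain ⟨H, h0, h1, h2⟩ := hn (Pool.Agent.Lib_5f1296.τ Pool.Agent.Lib_5f1296.DD)
  exact Pool.Agent.Lib_5f1296.not_subnormal Pool.Agent.Lib_5f1296.DD
    (fun a => Pool.Agent.Lib_5f1296.x (2 * a))
    (fun a => Ideal.subset_span ⟨2 * a, rfl⟩) Pool.Agent.Lib_5f1296.Fn_ne n H h0 h1 h2

end Pool.Agent.S01642
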