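import Pool.Statements.S02077
import Pool.Agent.Lib_MP_7f70a7_al.Main
-- import your own Pool.Agent.* helpers here

set_option autoImplicit false
open Pool Pool.MP_7f70a7_al

namespace Pool.Agent.S02077

/-- Every finitely generated solvable group in which the complement of every rational subset is rational has a finite-index subgroup whose elements commute pairwise, i.e. is virtually abelian. -/
theorem result :
    ∀ (G : Type) [Group G], Group.FG G → IsSolvable G →
      (∀ S : Set G,
        (∃ r : RegularExpression G, S = {g : G | ∃ w ∈ r.matches', w.prod = g}) →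
        ∃ r : RegularExpression G, Sᶜ = {g : G | ∃ w ∈ r.matches', w.prod = g}) →
      ∃ H : Subgroup G, H.index ≠ 0 ∧ ∀ a ∈ H, ∀ b ∈ H, a * b = b * a := by
  intro G _ _ hs h
  exact Pool.Agent.RatBool.main_theorem (Pool.Agent.RatBool.BA_of_regex h) hs

end Pool.Agent.S02077
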