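import Pool.Statements.S02290
import Pool.Agent.Lib_MP_91def8_al.Wreath

set_option autoImplicit false
open Pool Pool.MP_91def8_al

namespace Pool.Agent.S02290

open Pool.Agent.LibMP91def8al

/-- The word `w` has all values of order dividing five in the wreath product. -/
theorem law {k : ℕ} (w : FreeGroup (Fin k)) (hw : w ∈ commutator (FreeGroup (Fin k)))
    (h1 : ∀ τ : FreeGroup (Fin k) →* A5, ¬ Function.Surjective τ → w ∈ ⁅τ.ker, τ.ker⁆)
    (h2 : ∀ ρ : FreeGroup (Fin k) →* A5, Function.Surjective ρ → orderOf (ρ w) = 5)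
    (f : Fin k → W ℤ) : (FreeGroup.lift f w) ^ 5 = 1 := by
  set φ : FreeGroup (Fin k) →* W ℤ := FreeGroup.lift f with hφ
  set τ : FreeGroup (Fin k) →* A5 := (SemidirectProduct.rightHom : W ℤ →* A5).comp φ with hτ
  by_cases hs : Function.Surjective τ
  · apply pow_five_eq_one
    · have h3 : commutator (FreeGroup (Fin k)) ≤ ((total : W ℤ →* Multiplicative ℤ).comp φ).ker :=
        Abelianization.commutator_subset_ker _
      exact MonoidHom.mem_ker.mp (h3 hw)
    · exact h2 τ hs
  · have h3 := h1 τ hs
    have h4 : φ w ∈ (⁅τ.ker, τ.ker⁆ : Subgroup (FreeGroup (Fin k))).map φ :=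
      Subgroup.mem_map_of_mem φ h3
    rw [Subgroup.map_commutator] at h4
    have h5 : τ.ker.map φ ≤ (SemidirectProduct.rightHom : W ℤ →* A5).ker := by
      rw [Subgroup.map_le_iff_le_comap]
      intro x hx
      exact hx
    have h6 := Subgroup.commutator_mono h5 h5 h4
    rw [commutator_ker_rightHom, Subgroup.mem_bot] at h6
    rw [h6, one_pow]

/-- The negation of the preceding statement: For every n ≥ 1, every group word w and every residually finite group G in which all values of w have order dividing n, every finitely generated subgroup of the verbal subgroup w(G) is finite. -/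
theorem result :
    ¬ (∀ (n : ℕ), 0 < n → ∀ (k : ℕ) (w : FreeGroup (Fin k)) (G : Type) [Group G],
      (∀ g : G, g ≠ 1 → ∃ H : Subgroup G, H.Normal ∧ H.FiniteIndex ∧ g ∉ H) →
      (∀ f : Fin k → G, (FreeGroup.lift f w) ^ n = 1) →
      ∀ s : Finset G,
        (↑s : Set G) ⊆
          (Subgroup.closure (Set.range fun f : Fin k → G => FreeGroup.lift f w) : Set G) →
        (Subgroup.closure (↑s : Set G) : Set G).Finite) := by
  intro H
  have e : Fin (Fintype.card A5) ≃ A5 := (Fintype.equivFin A5).symm
  generalize Fintype.card A5 = k at e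
  have : Finite (FreeGroup (Fin k) →* A5) := Finite.of_equiv _ (FreeGroup.lift (β := A5))
  obtain ⟨c₀, hc₀⟩ : ∃ c : A5, orderOf c = 5 := by
    have : Fact (Nat.Prime 5) := ⟨by norm_num⟩
    apply exists_prime_orderOf_dvd_card 5
    rw [show Fintype.card A5 = 60 by decide]
    norm_num
  obtain ⟨w, hw, h1, h2⟩ := exists_word (F := FreeGroup (Fin k)) (Q := A5) exists_noncomm c₀
  rw [hc₀] at h2
  have hlaw := law w hw h1 h2
  -- the surjection onto `A5`
  set ρ : FreeGroup (Fin k) →* A5 := FreeGroup.lift e with hρ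
  have hρs : Function.Surjective ρ := by
    intro q
    refine ⟨FreeGroup.of (e.symm q), ?_⟩
    simp [hρ]
  set c : A5 := ρ w with hc
  have hc5 : orderOf c = 5 := h2 ρ hρs
  have hc1 : (c : Equiv.Perm (Fin 5)) ≠ 1 := by
    intro h
    have : c = 1 := Subtype.ext h
    rw [this, orderOf_one] at hc5
    norm_num at hc5
  obtain ⟨i, hi⟩ : ∃ i, (c : Equiv.Perm (Fin 5)) i ≠ i := by
    by_contra hcon
    push Not at hcon
    exact hc1 (Equiv.ext hcon)
  set m : Fin 5 → Multiplicative ℤ := Pi.mulSingle i (Multiplicative.ofAdd 1) with hm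
  set u : W ℤ := SemidirectProduct.inl m with hu
  set φ₀ : FreeGroup (Fin k) →* W ℤ := FreeGroup.lift (fun a => SemidirectProduct.inr (e a)) with hφ₀
  have hφ₀w : φ₀ w = SemidirectProduct.inr c := by
    have : φ₀ = (SemidirectProduct.inr : A5 →* W ℤ).comp ρ := by
      apply FreeGroup.ext_hom
      intro a
      simp [hφ₀, hρ]
    rw [this]; rfl
  have hconj : FreeGroup.lift (fun a => u * SemidirectProduct.inr (e a) * u⁻¹) w
      = u * SemidirectProduct.inr c * u⁻¹ := by
    have : FreeGroup.lift (fun a => u * SemidirectProduct.inr (e a) * u⁻¹)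
        = (MulAut.conj u).toMonoidHom.comp φ₀ := by
      apply FreeGroup.ext_hom
      intro a
      simp [hφ₀]
    rw [this, MonoidHom.comp_apply, hφ₀w]
    simp
  set g : W ℤ := u * SemidirectProduct.inr c * u⁻¹ * (SemidirectProduct.inr c)⁻¹ with hg
  have hgmem : g ∈ Subgroup.closure
      (Set.range fun f : Fin k → W ℤ => FreeGroup.lift f w) := by
    apply Subgroup.mul_mem
    · rw [← hconj]
      exact Subgroup.subset_closure ⟨_, rfl⟩
    · apply Subgroup.inv_mem
      rw [← hφ₀w]
      exact Subgroup.subset_closure ⟨_, rfl⟩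
  have hfin := H 5 (by norm_num) k w (W ℤ) residually_finite hlaw {g} (by
    intro x hx
    rw [Finset.coe_singleton, Set.mem_singleton_iff] at hx
    rw [hx]; exact hgmem)
  rw [Finset.coe_singleton, ← Subgroup.zpowers_eq_closure] at hfin
  have hfo : IsOfFinOrder g := finite_zpowers.mp hfin
  obtain ⟨n, hn, hgn⟩ := isOfFinOrder_iff_pow_eq_one.mp hfo
  have hgr : g.right = 1 := by simp [hg, hu]
  have hgl : g.left i = Multiplicative.ofAdd 1 := by
    have h3 : g.left i = m i * (m ((c⁻¹ : A5) • i))⁻¹ := by
      simp only [hg, hu, SemidirectProduct.mul_left, SemidirectProduct.left_inl,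
        SemidirectProduct.left_inr, SemidirectProduct.inv_left, SemidirectProduct.mul_right,
        SemidirectProduct.right_inl, SemidirectProduct.right_inr, SemidirectProduct.inv_right,
        Pi.mul_apply, Pi.inv_apply, map_one, map_inv, one_mul, mul_one, inv_one]
      exact mul_one _
    have h4 : (c⁻¹ : A5) • i ≠ i := by
      intro h
      apply hi
      have h5 : c • ((c⁻¹ : A5) • i) = c • i := by rw [h]
      rw [smul_inv_smul] at h5
      exact h5.symm
    rw [h3, hm, Pi.mulSingle_eq_same, Pi.mulSingle_eq_of_ne h4]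
    simp
  have h6 : (g ^ n).left i = (g.left i) ^ n := by
    rw [pow_left, hgr]
    simp
  rw [hgn, hgl] at h6
  have h7 : (1 : Multiplicative ℤ) = (Multiplicative.ofAdd 1) ^ n := h6
  rw [← ofAdd_nsmul] at h7
  have h8 : (0 : ℤ) = n • (1 : ℤ) := h7
  simp at h8
  omega

end Pool.Agent.S02290
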