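import Pool.Statements.S02662

set_option autoImplicit false
open Pool Pool.MP_ab9402_al

namespace Pool.Agent.S02662

/-! ### A torsion-free nilpotent group of class three -/

/-- The underlying set of the group: length, number of `b`s, and three moment sums. -/
@[ext] structure NG where
  n : ℤ
  b : ℤ
  s1 : ℤ
  s2 : ℤ
  s3 : ℤ

namespace NG

instance : Mul NG := ⟨fun u v =>
  ⟨u.n + v.n, u.b + v.b, u.s1 + v.s1 + u.b * v.n,
    u.s2 + v.s2 + 2 * u.n * u.b * v.n + 2 * u.n * v.s1 + u.b * (v.n ^ 2 + v.n),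
    u.s3 + v.s3 + u.b ^ 2 * v.n + 2 * u.b * v.s1⟩⟩

instance : One NG := ⟨⟨0, 0, 0, 0, 0⟩⟩

instance : Inv NG := ⟨fun u =>
  ⟨-u.n, -u.b, -u.s1 + u.b * u.n, -u.s2 + 2 * u.n * u.s1 - u.b * u.n ^ 2 + u.b * u.n,
    -u.s3 + 2 * u.b * u.s1 - u.b ^ 2 * u.n⟩⟩

@[simp] theorem mul_n (u v : NG) : (u * v).n = u.n + v.n := rfl
@[simp] theorem mul_b (u v : NG) : (u * v).b = u.b + v.b := rfl
@[simp] theorem mul_s1 (u v : NG) : (u * v).s1 = u.s1 + v.s1 + u.b * v.n := rfl
@[simp] theorem mul_s2 (u v : NG) : (u * v).s2 =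
    u.s2 + v.s2 + 2 * u.n * u.b * v.n + 2 * u.n * v.s1 + u.b * (v.n ^ 2 + v.n) := rfl
@[simp] theorem mul_s3 (u v : NG) : (u * v).s3 =
    u.s3 + v.s3 + u.b ^ 2 * v.n + 2 * u.b * v.s1 := rfl
@[simp] theorem one_n : (1 : NG).n = 0 := rfl
@[simp] theorem one_b : (1 : NG).b = 0 := rfl
@[simp] theorem one_s1 : (1 : NG).s1 = 0 := rfl
@[simp] theorem one_s2 : (1 : NG).s2 = 0 := rfl
@[simp] theorem one_s3 : (1 : NG).s3 = 0 := rfl
@[simp] theorem inv_n (u : NG) : (u⁻¹).n = -u.n := rfl
@[simp] theorem inv_b (u : NG) : (u⁻¹).b = -u.b := rfl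
@[simp] theorem inv_s1 (u : NG) : (u⁻¹).s1 = -u.s1 + u.b * u.n := rfl
@[simp] theorem inv_s2 (u : NG) : (u⁻¹).s2 =
    -u.s2 + 2 * u.n * u.s1 - u.b * u.n ^ 2 + u.b * u.n := rfl
@[simp] theorem inv_s3 (u : NG) : (u⁻¹).s3 = -u.s3 + 2 * u.b * u.s1 - u.b ^ 2 * u.n := rfl

instance : Group NG := Group.ofLeftAxioms
  (by intro u v w; ext <;> simp <;> ring)
  (by intro u; ext <;> simp)
  (by intro u; ext <;> simp <;> ring)

end NG

/-- The Heisenberg quotient. -/
@[ext] structure HG where
  n : ℤ
  b : ℤ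
  s1 : ℤ

namespace HG

instance : Mul HG := ⟨fun u v => ⟨u.n + v.n, u.b + v.b, u.s1 + v.s1 + u.b * v.n⟩⟩
instance : One HG := ⟨⟨0, 0, 0⟩⟩
instance : Inv HG := ⟨fun u => ⟨-u.n, -u.b, -u.s1 + u.b * u.n⟩⟩

@[simp] theorem mul_n (u v : HG) : (u * v).n = u.n + v.n := rfl
@[simp] theorem mul_b (u v : HG) : (u * v).b = u.b + v.b := rfl
@[simp] theorem mul_s1 (u v : HG) : (u * v).s1 = u.s1 + v.s1 + u.b * v.n := rfl
@[simp] theorem one_n : (1 : HG).n = 0 := rfl
@[simp] theorem one_b : (1 : HG).b = 0 := rfl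
@[simp] theorem one_s1 : (1 : HG).s1 = 0 := rfl
@[simp] theorem inv_n (u : HG) : (u⁻¹).n = -u.n := rfl
@[simp] theorem inv_b (u : HG) : (u⁻¹).b = -u.b := rfl
@[simp] theorem inv_s1 (u : HG) : (u⁻¹).s1 = -u.s1 + u.b * u.n := rfl

instance : Group HG := Group.ofLeftAxioms
  (by intro u v w; ext <;> simp <;> ring)
  (by intro u; ext <;> simp)
  (by intro u; ext <;> simp)

end HG

/-- Projection to the Heisenberg quotient. -/
def projHG : NG →* HG where
  toFun u := ⟨u.n, u.b, u.s1⟩
  map_one' := by ext <;> simp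
  map_mul' u v := by ext <;> simp

/-- Projection to the abelianisation. -/
def projAb : HG →* Multiplicative (ℤ × ℤ) where
  toFun u := Multiplicative.ofAdd (u.n, u.b)
  map_one' := rfl
  map_mul' _ _ := rfl

theorem HG_nilpotent : Group.IsNilpotent HG := by
  refine Subgroup.isNilpotent_of_ker_le_center projAb ?_
  intro u hu
  rw [MonoidHom.mem_ker] at hu
  have h : (u.n, u.b) = (0, 0) := Multiplicative.ofAdd.injective hu
  have h1 : u.n = 0 := congrArg Prod.fst h
  have h2 : u.b = 0 := congrArg Prod.snd h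
  rw [Subgroup.mem_center_iff]
  intro g
  ext <;> simp [h1, h2]; ring

theorem NG_nilpotent : Group.IsNilpotent NG := by
  have := HG_nilpotent
  refine Subgroup.isNilpotent_of_ker_le_center projHG ?_
  intro u hu
  rw [MonoidHom.mem_ker] at hu
  have h1 : u.n = 0 := congrArg HG.n hu
  have h2 : u.b = 0 := congrArg HG.b hu
  have h3 : u.s1 = 0 := congrArg HG.s1 hu
  rw [Subgroup.mem_center_iff]
  intro g
  ext <;> simp [h1, h2, h3] <;> ring

/-! ### Words -/

/-- The image of a letter; `true` is the letter `b`, `false` the letter `a`. -/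
def letter (x : Bool) : NG := if x then ⟨1, 1, 1, 2, 1⟩ else ⟨1, 0, 0, 0, 0⟩

/-- Evaluation of a word in the group. -/
def ev (l : List Bool) : NG := (l.map letter).prod

/-- number of `b`s among the first `i` letters -/
def cnt (l : List Bool) (i : ℕ) : ℤ := ((l.take i).count true : ℕ)

theorem ev_append (l m : List Bool) : ev (l ++ m) = ev l * ev m := by
  simp [ev]

theorem ev_spec (l : List Bool) :
    (ev l).n = l.length ∧ (ev l).b = cnt l l.length ∧
    (ev l).s1 = ∑ k ∈ Finset.range l.length, cnt l (k + 1) ∧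
    (ev l).s2 = ∑ k ∈ Finset.range l.length, 2 * ((k : ℤ) + 1) * cnt l (k + 1) ∧
    (ev l).s3 = ∑ k ∈ Finset.range l.length, cnt l (k + 1) ^ 2 := by
  induction l using List.reverseRecOn with
  | nil => simp [ev, cnt]
  | append_singleton l x ih =>
    obtain ⟨h1, h2, h3, h4, h5⟩ := ih
    have hlen : (l ++ [x]).length = l.length + 1 := by simp
    have hcnt : ∀ k ∈ Finset.range l.length, cnt (l ++ [x]) (k + 1) = cnt l (k + 1) := by
      intro k hk
      have : k + 1 ≤ l.length := by simpa using hk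
      unfold cnt
      rw [List.take_append_of_le_length this]
    have hlast : cnt (l ++ [x]) (l.length + 1) = cnt l l.length + (if x then 1 else 0) := by
      unfold cnt
      have : (l ++ [x]).take (l.length + 1) = l ++ [x] := by
        rw [← hlen, List.take_length]
      rw [this, List.take_length, List.count_append]
      cases x <;> simp
    have hx : ev [x] = letter x := by simp [ev]
    rw [ev_append, hx, hlen]
    rw [Finset.sum_range_succ, Finset.sum_range_succ, Finset.sum_range_succ]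
    rw [Finset.sum_congr rfl hcnt]
    rw [Finset.sum_congr rfl (fun k hk => by rw [hcnt k hk] :
      ∀ k ∈ Finset.range l.length, 2 * ((k : ℤ) + 1) * cnt (l ++ [x]) (k + 1) =
        2 * ((k : ℤ) + 1) * cnt l (k + 1))]
    rw [Finset.sum_congr rfl (fun k hk => by rw [hcnt k hk] :
      ∀ k ∈ Finset.range l.length, cnt (l ++ [x]) (k + 1) ^ 2 = cnt l (k + 1) ^ 2)]
    rw [hlast, ← h3, ← h4, ← h5]
    simp only [NG.mul_n, NG.mul_b, NG.mul_s1, NG.mul_s2, NG.mul_s3, h1, h2]
    cases x
    · simp [letter]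
      ring
    · simp [letter]
      refine ⟨by ring, by ring, by ring⟩

/-! ### Mechanical words of irrational slope -/

/-- The slope. -/
noncomputable def slope : ℝ := √2 - 1

theorem slope_irr : Irrational slope := by
  have := irrational_sqrt_two.sub_intCast 1
  simpa [slope] using this

theorem slope_pos : 0 < slope := by
  have : (1 : ℝ) < √2 := Real.one_lt_sqrt_two
  unfold slope; linarith

theorem slope_lt_one : slope < 1 := by
  have : √2 < 2 := by rw [Real.sqrt_lt' (by norm_num)]; norm_num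
  unfold slope; linarith

/-- `l` is a factor of a mechanical word of slope `slope` (with a generic intercept). -/
def Mech (l : List Bool) : Prop :=
  ∃ β : ℝ, (∀ i : ℕ, i ≤ l.length → ∀ z : ℤ, slope * i + β ≠ z) ∧
    ∀ i : ℕ, i ≤ l.length → cnt l i = ⌊slope * i + β⌋ - ⌊β⌋

theorem cnt_zero (l : List Bool) : cnt l 0 = 0 := by simp [cnt]

theorem cnt_succ (l : List Bool) (i : ℕ) (h : i < l.length) :
    cnt l (i + 1) = cnt l i + (if l[i] then 1 else 0) := by
  unfold cnt
  rw [List.take_succ_eq_append_getElem h, List.count_append]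
  cases l[i] <;> simp

theorem eq_of_cnt (l l' : List Bool) (hlen : l.length = l'.length)
    (h : ∀ i : ℕ, i ≤ l.length → cnt l i = cnt l' i) : l = l' := by
  refine List.ext_getElem hlen ?_
  intro i h1 h2
  have e1 := cnt_succ l i h1
  have e2 := cnt_succ l' i h2
  rw [h i h1.le, h (i + 1) h1, e2] at e1
  generalize l[i] = x at e1 ⊢
  generalize l'[i] = y at e1 ⊢
  cases x <;> cases y <;> simp at e1 ⊢

theorem nearest {c c' : ℤ} {x : ℝ} (h1 : |(c : ℝ) - x| < 1 / 2)
    (h : ((c' : ℝ) - x) ^ 2 - ((c : ℝ) - x) ^ 2 = 0) : c' = c := by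
  by_contra hne
  have h2 : (1 : ℝ) ≤ |(c' : ℝ) - c| := by
    have : (1 : ℤ) ≤ |c' - c| := Int.one_le_abs (sub_ne_zero.mpr hne)
    exact_mod_cast this
  have h3 : |(c' : ℝ) - x| = |(c : ℝ) - x| := by
    have : ((c' : ℝ) - x) ^ 2 = ((c : ℝ) - x) ^ 2 := by linarith
    exact (sq_eq_sq_iff_abs_eq_abs _ _).mp this
  have h4 : |(c' : ℝ) - c| ≤ |(c' : ℝ) - x| + |(c : ℝ) - x| := by
    have : (c' : ℝ) - c = ((c' : ℝ) - x) - ((c : ℝ) - x) := by ring
    rw [this]
    exact abs_sub _ _
  linarith

theorem nearest_nonneg {c c' : ℤ} {x : ℝ} (h1 : |(c : ℝ) - x| < 1 / 2) :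
    0 ≤ ((c' : ℝ) - x) ^ 2 - ((c : ℝ) - x) ^ 2 := by
  rcases eq_or_ne c' c with rfl | hne
  · simp
  · have h2 : (1 : ℝ) ≤ |(c' : ℝ) - c| := by
      have : (1 : ℤ) ≤ |c' - c| := Int.one_le_abs (sub_ne_zero.mpr hne)
      exact_mod_cast this
    have h4 : |(c' : ℝ) - c| ≤ |(c' : ℝ) - x| + |(c : ℝ) - x| := by
      have : (c' : ℝ) - c = ((c' : ℝ) - x) - ((c : ℝ) - x) := by ring
      rw [this]
      exact abs_sub _ _
    have h5 : |(c : ℝ) - x| ≤ |(c' : ℝ) - x| := by linarith
    have h6 := sq_le_sq.mpr h5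
    linarith

theorem mech_unique (l l' : List Bool) (h : Mech l) (he : ev l = ev l') : l = l' := by
  obtain ⟨β, hβ, hc⟩ := h
  obtain ⟨n1, -, a1, b1, c1⟩ := ev_spec l
  obtain ⟨n2, -, a2, b2, c2⟩ := ev_spec l'
  have hlen : l.length = l'.length := by
    have : (l.length : ℤ) = l'.length := by rw [← n1, ← n2, he]
    exact_mod_cast this
  rw [← hlen] at a2 b2 c2
  rw [he, a2] at a1
  rw [he, b2] at b1
  rw [he, c2] at c1
  set γ : ℝ := β - ⌊β⌋ - 1 / 2 with hγ
  have hnear : ∀ k ∈ Finset.range l.length,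
      |((cnt l (k + 1) : ℤ) : ℝ) - (slope * ((k : ℝ) + 1) + γ)| < 1 / 2 := by
    intro k hk
    have hk' : k + 1 ≤ l.length := by simpa using hk
    rw [hc (k + 1) hk']
    have h1 := Int.floor_le (slope * ((k + 1 : ℕ) : ℝ) + β)
    have h2 := Int.lt_floor_add_one (slope * ((k + 1 : ℕ) : ℝ) + β)
    have h3 := hβ (k + 1) hk' ⌊slope * ((k + 1 : ℕ) : ℝ) + β⌋
    have h4 : (⌊slope * ((k + 1 : ℕ) : ℝ) + β⌋ : ℝ) < slope * ((k + 1 : ℕ) : ℝ) + β :=
      lt_of_le_of_ne h1 (Ne.symm h3)
    push_cast at h2 h4 ⊢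
    rw [abs_lt, hγ]
    constructor <;> linarith
  have hsum : ∑ k ∈ Finset.range l.length,
      ((((cnt l' (k + 1) : ℤ) : ℝ) - (slope * ((k : ℝ) + 1) + γ)) ^ 2 -
        (((cnt l (k + 1) : ℤ) : ℝ) - (slope * ((k : ℝ) + 1) + γ)) ^ 2) = 0 := by
    have a1' : ∑ k ∈ Finset.range l.length, ((cnt l' (k + 1) : ℤ) : ℝ) =
        ∑ k ∈ Finset.range l.length, ((cnt l (k + 1) : ℤ) : ℝ) := by exact_mod_cast a1
    have b1' : ∑ k ∈ Finset.range l.length, 2 * ((k : ℝ) + 1) * ((cnt l' (k + 1) : ℤ) : ℝ) =
        ∑ k ∈ Finset.range l.length, 2 * ((k : ℝ) + 1) * ((cnt l (k + 1) : ℤ) : ℝ) := by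
      exact_mod_cast b1
    have c1' : ∑ k ∈ Finset.range l.length, ((cnt l' (k + 1) : ℤ) : ℝ) ^ 2 =
        ∑ k ∈ Finset.range l.length, ((cnt l (k + 1) : ℤ) : ℝ) ^ 2 := by exact_mod_cast c1
    have key : ∀ k ∈ Finset.range l.length,
      ((((cnt l' (k + 1) : ℤ) : ℝ) - (slope * ((k : ℝ) + 1) + γ)) ^ 2 -
        (((cnt l (k + 1) : ℤ) : ℝ) - (slope * ((k : ℝ) + 1) + γ)) ^ 2) =
      (((cnt l' (k + 1) : ℤ) : ℝ) ^ 2 - ((cnt l (k + 1) : ℤ) : ℝ) ^ 2)
      - slope * (2 * ((k : ℝ) + 1) * ((cnt l' (k + 1) : ℤ) : ℝ)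
          - 2 * ((k : ℝ) + 1) * ((cnt l (k + 1) : ℤ) : ℝ))
      - 2 * γ * (((cnt l' (k + 1) : ℤ) : ℝ) - ((cnt l (k + 1) : ℤ) : ℝ)) := by
      intro k _
      ring
    rw [Finset.sum_congr rfl key, Finset.sum_sub_distrib, Finset.sum_sub_distrib,
      Finset.sum_sub_distrib, ← Finset.mul_sum, ← Finset.mul_sum, Finset.sum_sub_distrib,
      Finset.sum_sub_distrib, a1', b1', c1']
    ring
  rw [Finset.sum_eq_zero_iff_of_nonneg (fun k hk => nearest_nonneg (hnear k hk))] at hsum
  refine eq_of_cnt l l' hlen ?_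
  intro i hi
  rcases i with _ | k
  · rw [cnt_zero, cnt_zero]
  · have hk : k ∈ Finset.range l.length := by simpa using hi
    exact (nearest (hnear k hk) (hsum k hk)).symm

theorem Mech.left {l m : List Bool} (h : Mech (l ++ m)) : Mech l := by
  obtain ⟨β, hβ, hc⟩ := h
  have hlen : (l ++ m).length = l.length + m.length := List.length_append
  refine ⟨β, fun i hi => hβ i (by omega), ?_⟩
  intro i hi
  rw [← hc i (by omega)]
  unfold cnt
  rw [List.take_append_of_le_length hi]

theorem cnt_append_add (l m : List Bool) (i : ℕ) :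
    cnt (l ++ m) (l.length + i) = cnt l l.length + cnt m i := by
  unfold cnt
  rw [List.take_length_add_append, List.count_append, List.take_length]
  push_cast
  ring

theorem Mech.right {l m : List Bool} (h : Mech (l ++ m)) : Mech m := by
  obtain ⟨β, hβ, hc⟩ := h
  have hlen : (l ++ m).length = l.length + m.length := List.length_append
  refine ⟨β + slope * l.length, ?_, ?_⟩
  · intro i hi z
    have := hβ (l.length + i) (by omega) z
    intro h
    apply this
    rw [← h]
    push_cast
    ring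
  · intro i hi
    have e1 := hc (l.length + i) (by omega)
    have e2 := hc l.length (by omega)
    have e3 := cnt_append_add l m i
    have e4 := cnt_append_add l m 0
    rw [cnt_zero, add_zero, add_zero] at e4
    have e5 : slope * ((l.length + i : ℕ) : ℝ) + β = slope * i + (β + slope * l.length) := by
      push_cast; ring
    rw [e5] at e1
    have e6 : slope * (l.length : ℝ) + β = β + slope * l.length := by ring
    rw [e6] at e2
    omega

/-- `rep u k` is the `k + 1`-st power of the word `u`. -/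
def rep (u : List Bool) : ℕ → List Bool
  | 0 => u
  | k + 1 => rep u k ++ u

theorem rep_length (u : List Bool) (k : ℕ) : (rep u k).length = (k + 1) * u.length := by
  induction k with
  | zero => simp [rep]
  | succ k ih => simp [rep, ih]; ring

theorem rep_cnt (u : List Bool) (k : ℕ) :
    cnt (rep u k) (rep u k).length = (k + 1) * cnt u u.length := by
  induction k with
  | zero => simp [rep]
  | succ k ih =>
    have : (rep u (k + 1)).length = (rep u k).length + u.length := by simp [rep]
    rw [this]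
    show cnt (rep u k ++ u) _ = _
    rw [cnt_append_add, ih]
    push_cast
    ring

theorem not_mech_rep (u : List Bool) (hu : u ≠ []) : ∃ K : ℕ, ∀ k : ℕ, K ≤ k → ¬ Mech (rep u k) := by
  have hlen : 0 < u.length := List.length_pos_of_ne_nil hu
  set p : ℤ := cnt u u.length
  set q : ℕ := u.length
  have hne : (p : ℝ) - slope * q ≠ 0 := by
    intro h
    have hq : (q : ℝ) ≠ 0 := by exact_mod_cast hlen.ne'
    have : slope = ((p / q : ℚ) : ℝ) := by
      push_cast
      field_simp
      linarith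
    exact slope_irr ⟨_, this.symm⟩
  have hpos : 0 < |(p : ℝ) - slope * q| := abs_pos.mpr hne
  obtain ⟨K, hK⟩ := exists_nat_gt (1 / |(p : ℝ) - slope * q|)
  refine ⟨K, ?_⟩
  intro k hk ⟨β, hβ, hc⟩
  have h1 := hc (rep u k).length le_rfl
  rw [rep_cnt, rep_length] at h1
  have h2 := Int.floor_le (slope * (((k + 1) * u.length : ℕ) : ℝ) + β)
  have h3 := Int.lt_floor_add_one (slope * (((k + 1) * u.length : ℕ) : ℝ) + β)
  have h4 := Int.floor_le β
  have h5 := Int.lt_floor_add_one β
  have h6 : (((k : ℤ) + 1) * p : ℝ) = (⌊slope * (((k + 1) * u.length : ℕ) : ℝ) + β⌋ : ℝ) - ⌊β⌋ := by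
    exact_mod_cast h1
  push_cast at h2 h3 h6
  have h7 : |((k : ℝ) + 1) * ((p : ℝ) - slope * q)| < 1 := by
    rw [abs_lt]
    constructor
    · have : ((k : ℝ) + 1) * ((p : ℝ) - slope * q) = ((k : ℝ) + 1) * p - slope * ((k + 1) * q) := by
        ring
      rw [this, h6]
      linarith
    · have : ((k : ℝ) + 1) * ((p : ℝ) - slope * q) = ((k : ℝ) + 1) * p - slope * ((k + 1) * q) := by
        ring
      rw [this, h6]
      linarith
  rw [abs_mul] at h7
  have h8 : (K : ℝ) < |(k : ℝ) + 1| := by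
    rw [abs_of_pos (by positivity)]
    have : (K : ℝ) ≤ k := by exact_mod_cast hk
    linarith
  have h9 : 1 < (K : ℝ) * |(p : ℝ) - slope * q| := by
    rw [div_lt_iff₀ hpos] at hK
    exact hK
  have h10 : (K : ℝ) * |(p : ℝ) - slope * q| < |(k : ℝ) + 1| * |(p : ℝ) - slope * q| :=
    mul_lt_mul_of_pos_right h8 hpos
  linarith

/-- the mechanical word of length `n` -/
noncomputable def mw : ℕ → List Bool
  | 0 => []
  | n + 1 => mw n ++ [decide (⌊slope * (n + 1 : ℕ) + slope⌋ - ⌊slope * n + slope⌋ = 1)]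

theorem mw_length (n : ℕ) : (mw n).length = n := by
  induction n with
  | zero => simp [mw]
  | succ n ih => simp [mw, ih]

theorem mw_step (n : ℕ) : ⌊slope * (n + 1 : ℕ) + slope⌋ - ⌊slope * n + slope⌋ = 0 ∨
    ⌊slope * (n + 1 : ℕ) + slope⌋ - ⌊slope * n + slope⌋ = 1 := by
  have h1 := Int.floor_le (slope * ((n + 1 : ℕ) : ℝ) + slope)
  have h2 := Int.lt_floor_add_one (slope * ((n + 1 : ℕ) : ℝ) + slope)
  have h3 := Int.floor_le (slope * n + slope)
  have h4 := Int.lt_floor_add_one (slope * n + slope)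
  have h5 := slope_pos
  have h6 := slope_lt_one
  set A := ⌊slope * ((n + 1 : ℕ) : ℝ) + slope⌋
  set B := ⌊slope * n + slope⌋
  push_cast at h1 h2
  have h7 : (A : ℝ) - B < 2 := by linarith
  have h8 : (-1 : ℝ) < (A : ℝ) - B := by linarith
  have h7' : A - B < 2 := by exact_mod_cast h7
  have h8' : -1 < A - B := by exact_mod_cast h8
  omega

theorem mw_cnt (n : ℕ) : ∀ i : ℕ, i ≤ n → cnt (mw n) i = ⌊slope * i + slope⌋ - ⌊slope⌋ := by
  induction n with
  | zero =>
    intro i hi
    have : i = 0 := by omega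
    subst this
    simp [mw, cnt]
  | succ n ih =>
    intro i hi
    rcases Nat.lt_or_ge n i with h | h
    · have hi' : i = n + 1 := by omega
      subst hi'
      have e1 := cnt_append_add (mw n) [decide (⌊slope * (n + 1 : ℕ) + slope⌋ - ⌊slope * n + slope⌋ = 1)] 1
      rw [mw_length] at e1
      have e2 := ih n le_rfl
      show cnt (mw n ++ _) (n + 1) = _
      rw [e1, e2]
      rcases mw_step n with h0 | h1
      · rw [h0]
        simp only [cnt]
        simp
        push_cast at h0
        omega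
      · rw [h1]
        simp only [cnt]
        simp
        push_cast at h1
        omega
    · rw [← ih i h]
      unfold cnt
      show (((mw n ++ _).take i).count true : ℤ) = _
      rw [List.take_append_of_le_length (by rw [mw_length]; exact h)]

theorem mw_mech (n : ℕ) : Mech (mw n) := by
  refine ⟨slope, ?_, ?_⟩
  · intro i _ z h
    have h1 : ((i : ℝ) + 1) ≠ 0 := by positivity
    have : slope = ((z / (i + 1) : ℚ) : ℝ) := by
      push_cast
      field_simp
      linarith
    exact slope_irr ⟨_, this.symm⟩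
  · intro i hi
    rw [mw_length] at hi
    exact mw_cnt n i hi

/-! ### The semigroup of factors -/

/-- The list of letters of an element of the free semigroup. -/
def toL (u : FreeSemigroup Bool) : List Bool := u.head :: u.tail

theorem toL_mul (u v : FreeSemigroup Bool) : toL (u * v) = toL u ++ toL v := by simp [toL]

theorem toL_injective : Function.Injective toL := by
  intro u v h
  have h' : u.head :: u.tail = v.head :: v.tail := h
  rw [List.cons_eq_cons] at h'
  exact FreeSemigroup.ext h'.1 h'.2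

/-- The Rees congruence of the ideal of all words that are not mechanical. -/
def reesCon : Con (FreeSemigroup Bool) where
  r u v := u = v ∨ (¬ Mech (toL u) ∧ ¬ Mech (toL v))
  iseqv := by
    refine ⟨fun u => Or.inl rfl, ?_, ?_⟩
    · rintro u v (rfl | ⟨h1, h2⟩)
      · exact Or.inl rfl
      · exact Or.inr ⟨h2, h1⟩
    · rintro u v w (rfl | ⟨h1, h2⟩) h
      · exact h
      · rcases h with rfl | ⟨h3, h4⟩
        · exact Or.inr ⟨h1, h2⟩
        · exact Or.inr ⟨h1, h4⟩
  mul' := by
    rintro u u' v v' (rfl | ⟨h1, h2⟩) (rfl | ⟨h3, h4⟩)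
    · exact Or.inl rfl
    · refine Or.inr ⟨fun h => h3 ?_, fun h => h4 ?_⟩ <;>
        (rw [toL_mul] at h; exact h.right)
    · refine Or.inr ⟨fun h => h1 ?_, fun h => h2 ?_⟩ <;>
        (rw [toL_mul] at h; exact h.left)
    · refine Or.inr ⟨fun h => h1 ?_, fun h => h2 ?_⟩ <;>
        (rw [toL_mul] at h; exact h.left)

theorem rees_iff (u v : FreeSemigroup Bool) :
    reesCon u v ↔ (u = v ∨ (¬ Mech (toL u) ∧ ¬ Mech (toL v))) := Iff.rfl

/-- The semigroup of factors of the mechanical word, with zero. -/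
abbrev FS : Type := reesCon.Quotient

/-- The quotient map. -/
def mkFS : FreeSemigroup Bool →ₙ* FS where
  toFun u := (u : reesCon.Quotient)
  map_mul' _ _ := rfl

theorem mkFS_eq (u v : FreeSemigroup Bool) :
    mkFS u = mkFS v ↔ (u = v ∨ (¬ Mech (toL u) ∧ ¬ Mech (toL v))) := by
  rw [← rees_iff]
  exact Con.eq reesCon

theorem mkFS_surjective : Function.Surjective mkFS := by
  intro s
  induction s using Con.induction_on with
  | H u => exact ⟨u, rfl⟩

/-- Evaluation homomorphism. -/
def evS : FreeSemigroup Bool →ₙ* NG where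
  toFun u := ev (toL u)
  map_mul' u v := by rw [toL_mul, ev_append]

theorem lift_comp {n : ℕ} {A B : Type} [Semigroup A] [Semigroup B] (φ : A →ₙ* B)
    (f : Fin n → A) (u : FreeSemigroup (Fin n)) :
    φ (FreeSemigroup.lift f u) = FreeSemigroup.lift (fun i => φ (f i)) u := by
  have : φ.comp (FreeSemigroup.lift f) = FreeSemigroup.lift (fun i => φ (f i)) := by
    apply FreeSemigroup.hom_ext
    funext i
    simp
  exact DFunLike.congr_fun this u

theorem FS_identities (n : ℕ) (u v : FreeSemigroup (Fin n))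
    (h : ∀ f : Fin n → NG, FreeSemigroup.lift f u = FreeSemigroup.lift f v)
    (g : Fin n → FS) : FreeSemigroup.lift g u = FreeSemigroup.lift g v := by
  choose g' hg' using fun i => mkFS_surjective (g i)
  have hg : g = fun i => mkFS (g' i) := by
    funext i
    exact (hg' i).symm
  rw [hg, ← lift_comp, ← lift_comp, mkFS_eq]
  have hev : ev (toL (FreeSemigroup.lift g' u)) = ev (toL (FreeSemigroup.lift g' v)) := by
    have h1 := lift_comp evS g' u
    have h2 := lift_comp evS g' v
    have h3 : evS (FreeSemigroup.lift g' u) = evS (FreeSemigroup.lift g' v) := by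
      rw [h1, h2]
      exact h _
    exact h3
  by_cases h1 : Mech (toL (FreeSemigroup.lift g' u))
  · left
    exact toL_injective (mech_unique _ _ h1 hev)
  · by_cases h2 : Mech (toL (FreeSemigroup.lift g' v))
    · left
      exact (toL_injective (mech_unique _ _ h2 hev.symm)).symm
    · right
      exact ⟨h1, h2⟩

/-- powers in the free semigroup -/
def pw (u : FreeSemigroup Bool) : ℕ → FreeSemigroup Bool
  | 0 => u
  | k + 1 => pw u k * u

theorem pw_toL (u : FreeSemigroup Bool) (k : ℕ) : toL (pw u k) = rep (toL u) k := by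
  induction k with
  | zero => rfl
  | succ k ih => rw [pw, toL_mul, ih]; rfl

theorem pw_mul (u : FreeSemigroup Bool) (i j : ℕ) : pw u i * pw u j = pw u (i + j + 1) := by
  induction j with
  | zero => rfl
  | succ j ih =>
    show pw u i * (pw u j * u) = pw u (i + j + 1) * u
    rw [← mul_assoc, ih]

theorem FS_periodic (s : FS) : (Subsemigroup.closure ({s} : Set FS) : Set FS).Finite := by
  obtain ⟨u, rfl⟩ := mkFS_surjective s
  obtain ⟨K, hK⟩ := not_mech_rep (toL u) (by simp [toL])
  have hsub : (Subsemigroup.closure ({mkFS u} : Set FS) : Set FS) ⊆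
      Set.range (fun k : ℕ => mkFS (pw u k)) := by
    intro x hx
    refine Subsemigroup.closure_induction (p := fun x _ => x ∈ Set.range (fun k : ℕ => mkFS (pw u k)))
      ?_ ?_ hx
    · intro y hy
      rw [Set.mem_singleton_iff] at hy
      exact ⟨0, hy.symm⟩
    · rintro y z _ _ ⟨i, rfl⟩ ⟨j, rfl⟩
      refine ⟨i + j + 1, ?_⟩
      show mkFS (pw u (i + j + 1)) = mkFS (pw u i) * mkFS (pw u j)
      rw [← map_mul, pw_mul]
  refine Set.Finite.subset ?_ hsub
  refine Set.Finite.subset ((Set.finite_Iic K).image (fun k : ℕ => mkFS (pw u k))) ?_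
  rintro _ ⟨k, rfl⟩
  rcases le_total k K with h | h
  · exact ⟨k, h, rfl⟩
  · refine ⟨K, Set.mem_Iic.mpr le_rfl, ?_⟩
    show mkFS (pw u K) = mkFS (pw u k)
    rw [mkFS_eq]
    right
    rw [pw_toL, pw_toL]
    exact ⟨hK K le_rfl, hK k h⟩

theorem FS_gen (s : FS) : s ∈ Subsemigroup.closure
    ({mkFS (FreeSemigroup.of true), mkFS (FreeSemigroup.of false)} : Set FS) := by
  obtain ⟨u, rfl⟩ := mkFS_surjective s
  induction u using FreeSemigroup.recOnMul with
  | ih1 x =>
    apply Subsemigroup.subset_closure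
    cases x
    · exact Or.inr rfl
    · exact Or.inl rfl
  | ih2 x y hx hy =>
    rw [map_mul]
    exact Subsemigroup.mul_mem _ hx hy

/-- the mechanical word of length `n + 1` as an element of the free semigroup -/
noncomputable def mwS (n : ℕ) : FreeSemigroup Bool :=
  ⟨(mw (n + 1)).headI, (mw (n + 1)).tail⟩

theorem mwS_toL (n : ℕ) : toL (mwS n) = mw (n + 1) := by
  have h := mw_length (n + 1)
  unfold toL mwS
  generalize mw (n + 1) = l at h ⊢
  cases l with
  | nil => simp at h
  | cons x l => rfl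

theorem FS_infinite : Infinite FS := by
  refine Infinite.of_injective (fun n : ℕ => mkFS (mwS n)) ?_
  intro m n h
  have h' : mkFS (mwS m) = mkFS (mwS n) := h
  rw [mkFS_eq] at h'
  rcases h' with h' | ⟨h1, _⟩
  · have h2 := congrArg (fun w => (toL w).length) h'
    simp only [mwS_toL, mw_length] at h2
    omega
  · exact absurd (by rw [mwS_toL]; exact mw_mech _) h1

/-- The negation of the preceding statement: For every nilpotent group G, any semigroup satisfying all semigroup identities of G in which each element generates a finite subsemigroup has every finitely generated subsemigroup finite. -/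
theorem result :
    ¬ (∀ (G : Type) [Group G], Group.IsNilpotent G →
      ∀ (S : Type) [Semigroup S],
        (∀ (n : ℕ) (u v : FreeSemigroup (Fin n)),
          (∀ f : Fin n → G, FreeSemigroup.lift f u = FreeSemigroup.lift f v) →
          ∀ g : Fin n → S, FreeSemigroup.lift g u = FreeSemigroup.lift g v) →
        (∀ s : S, (Subsemigroup.closure ({s} : Set S) : Set S).Finite) →
        ∀ T : Finset S, (Subsemigroup.closure (T : Set S) : Set S).Finite) := by
  intro H
  classical
  have h := H NG NG_nilpotent FS FS_identities FS_periodic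
    {mkFS (FreeSemigroup.of true), mkFS (FreeSemigroup.of false)}
  have h2 : (Subsemigroup.closure ((({mkFS (FreeSemigroup.of true),
      mkFS (FreeSemigroup.of false)} : Finset FS) : Set FS)) : Set FS) = Set.univ := by
    rw [Finset.coe_pair, Set.eq_univ_iff_forall]
    exact FS_gen
  rw [h2] at h
  exact FS_infinite.not_finite (Set.finite_univ_iff.mp h)

end Pool.Agent.S02662
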