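import Pool.Statements.S03188
import Pool.Agent.Lib_MP_d581c5_al.Basic

set_option autoImplicit false
open scoped Pointwise Classical
open Pool Pool.MP_d581c5_al

namespace Pool.Agent.S03188

open Pool.Agent.LibD581c5 in
/-- The negation of the preceding statement: For every group with a length function, if there are C>0 and d with ∣S∣∣X∣ ≤ C(1+r)^d ∣SX∣ whenever S has lengths ≤ r, then the group has property RD: convolution by f supported in the r-ball has ℓ² norm ≤ C'(1+r)^d' ‖f‖₂. -/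
theorem result :
    ¬ (∀ (G : Type) [Group G] (L : G → ℝ),
      (∀ g, 0 ≤ L g) → L 1 = 0 → (∀ g, L g⁻¹ = L g) →
      (∀ g h, L (g * h) ≤ L g + L h) →
      (∃ C : ℝ, 0 < C ∧ ∃ d : ℕ, ∀ r : ℝ, 0 ≤ r → ∀ S X : Finset G,
          (∀ s ∈ S, L s ≤ r) →
          (S.card : ℝ) * (X.card : ℝ) ≤ C * (1 + r) ^ d * ((S * X).card : ℝ)) →
      ∃ C : ℝ, 0 < C ∧ ∃ d : ℕ, ∀ r : ℝ, 0 ≤ r →
        ∀ (A B : Finset G) (f g : G → ℂ), (∀ y ∈ A, L y ≤ r) →
          ∑ x ∈ A * B, ‖∑ p ∈ (A ×ˢ B).filter (fun p => p.1 * p.2 = x), f p.1 * g p.2‖ ^ 2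
            ≤ (C * (1 + r) ^ d) ^ 2 * (∑ y ∈ A, ‖f y‖ ^ 2) * (∑ z ∈ B, ‖g z‖ ^ 2)) := by
  intro hall
  obtain ⟨C, hC, e, hRD⟩ := hall Gp (fun g => (len g : ℝ)) (fun g => Nat.cast_nonneg _)
    (by simp only [len_one, Nat.cast_zero]) (fun g => by simp only [len_inv])
    (fun g h => by exact_mod_cast len_mul g h)
    (by
      refine ⟨16, by norm_num, 1, ?_⟩
      intro r hr S' X hS
      have hfl : ∀ a ∈ S'.image (fun s => s⁻¹), len a ≤ ⌊r⌋₊ := by
        intro a ha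
        rw [Finset.mem_image] at ha
        obtain ⟨s, hs, rfl⟩ := ha
        rw [len_inv]
        exact Nat.le_floor (hS s hs)
      have key : ∀ P : Finset Gp, (∀ s ∈ S', ∀ x ∈ X, s * x ∈ P) →
          (S'.card : ℝ) * (X.card : ℝ) ≤ 16 * (1 + r) ^ 1 * (P.card : ℝ) := by
        intro P hP'
        have hP : ∀ a ∈ S'.image (fun s => s⁻¹), ∀ x ∈ X, a⁻¹ * x ∈ P := by
          intro a ha x hx
          rw [Finset.mem_image] at ha
          obtain ⟨s, hs, rfl⟩ := ha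
          rw [inv_inv]
          exact hP' s hs x hx
        have h1 := rapid_expansion ⌊r⌋₊ (S'.image (fun s => s⁻¹)) X P hfl hP
        rw [Finset.card_image_of_injective _ inv_injective] at h1
        have h2 : (S'.card : ℝ) * (X.card : ℝ) ≤ 4 * (1 + 4 * (⌊r⌋₊ : ℝ)) * (P.card : ℝ) := by
          exact_mod_cast h1
        have h3 : (⌊r⌋₊ : ℝ) ≤ r := Nat.floor_le hr
        refine h2.trans ?_
        rw [pow_one]
        apply mul_le_mul_of_nonneg_right _ (Nat.cast_nonneg _)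
        linarith
      apply key
      intro s hs x hx
      exact @Finset.mul_mem_mul _ (fun a b => Classical.propDecidable _) _ _ _ _ _ hs hx)
  obtain ⟨K, hK⟩ : ∃ K : ℝ, K = (C * (1 + 1) ^ e) ^ 2 := ⟨_, rfl⟩
  obtain ⟨n, hn⟩ := exists_nat_gt (2 * K)
  have h := hRD 1 zero_le_one (S n) (B n) (fun _ => 1) (fun z => (psi n z : ℂ))
    (fun y hy => by exact_mod_cast len_S hy)
  have hcard : (0 : ℝ) < (S n).card := by exact_mod_cast (S_nonempty n).card_pos
  rw [← hK] at h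
  have hlow : ∀ (P : Finset Gp) (F : Gp → ℝ) (R : ℝ), (∀ z, 0 ≤ F z) → ∑ x ∈ P, F x ≤ R → S n ⊆ P →
      ∑ x ∈ S n, F x ≤ R := by
    intro P F R hF hR hsub
    exact (Finset.sum_le_sum_of_subset_of_nonneg hsub (fun z _ _ => hF z)).trans hR
  have hlow := hlow _ _ _ (fun _ => by positivity) h (by
    intro y hy
    rw [← mul_one y]
    exact @Finset.mul_mem_mul _ (fun a b => Classical.propDecidable _) _ _ _ _ _ hy (one_mem_B n))
  have hval := le_trans (a := ((S n).card : ℝ) * (1 + (n : ℝ) / 2) ^ 2) (by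
    rw [← nsmul_eq_mul, ← Finset.sum_const]
    apply Finset.sum_le_sum
    intro y hy
    have h1 : ∀ Q : Finset (Gp × Gp), (∀ p, p ∈ Q ↔ (p.1 ∈ S n ∧ p.2 ∈ B n) ∧ p.1 * p.2 = y) →
        ∑ p ∈ Q, (1 : ℂ) * (psi n p.2 : ℂ) = ((∑ s ∈ S n, psi n (s⁻¹ * y) : ℝ) : ℂ) := by
      intro Q hQ
      push_cast
      simp only [one_mul]
      symm
      apply Finset.sum_bij (fun s _ => (s, s⁻¹ * y))
      · intro s hs
        rw [hQ]
        exact ⟨⟨hs, inv_mul_mem_B hs hy⟩, by group⟩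
      · intro s _ t _ hst
        exact congrArg Prod.fst hst
      · rintro ⟨s, z⟩ hq
        rw [hQ] at hq
        refine ⟨s, hq.1.1, ?_⟩
        rw [← hq.2]
        simp
      · intro s _
        rfl
    rw [h1 _ (by intro p; simp only [Finset.mem_filter, Finset.mem_product]), Complex.norm_real,
      Real.norm_eq_abs, sq_abs]
    have := conv_psi n hy
    gcongr) hlow
  have hup : ∑ z ∈ B n, ‖(psi n z : ℂ)‖ ^ 2 ≤ 1 + (n : ℝ) / 2 := by
    refine le_trans (le_of_eq ?_) (norm_psi n)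
    apply Finset.sum_congr rfl
    intro z _
    rw [Complex.norm_real, Real.norm_eq_abs, sq_abs]
  have hK0 : 0 ≤ K := by rw [hK]; positivity
  have h5 : ((S n).card : ℝ) * (1 + (n : ℝ) / 2) ^ 2 ≤ K * ((S n).card : ℝ) * (1 + (n : ℝ) / 2) := by
    refine hval.trans ?_
    simp only [norm_one, one_pow, Finset.sum_const, nsmul_eq_mul, mul_one]
    gcongr
  have h6 : (0 : ℝ) < ((S n).card : ℝ) * (1 + (n : ℝ) / 2) := by positivity
  have h7 : (((S n).card : ℝ) * (1 + (n : ℝ) / 2)) * (1 + (n : ℝ) / 2) ≤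
      (((S n).card : ℝ) * (1 + (n : ℝ) / 2)) * K := by
    calc _ = ((S n).card : ℝ) * (1 + (n : ℝ) / 2) ^ 2 := by ring
      _ ≤ _ := h5
      _ = _ := by ring
  have h8 := le_of_mul_le_mul_left h7 h6
  linarith

end Pool.Agent.S03188
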