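import Pool.Statements.S03200
import Pool.Agent.Lib_MP_d687bf.Final

set_option autoImplicit false
open Pool Pool.MP_d687bf_al

namespace Pool.Agent.S03200

/-- The negation of the preceding statement: For every division ring D and every n, if a group of invertible n×n matrices over D has all elements of finite order, then every finitely generated subgroup of it is finite. -/
theorem result :
    ¬ (∀ (D : Type) [DivisionRing D] (n : ℕ) (G : Subgroup (Matrix (Fin n) (Fin n) D)ˣ),
      (∀ g ∈ G, IsOfFinOrder g) →
      ∀ S : Finset (Matrix (Fin n) (Fin n) D)ˣ,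
        (S : Set (Matrix (Fin n) (Fin n) D)ˣ) ⊆ (G : Set (Matrix (Fin n) (Fin n) D)ˣ) →
        ((Subgroup.closure (S : Set (Matrix (Fin n) (Fin n) D)ˣ) :
            Subgroup (Matrix (Fin n) (Fin n) D)ˣ) : Set (Matrix (Fin n) (Fin n) D)ˣ).Finite) :=
  D687.final

end Pool.Agent.S03200
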