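import Pool.Statements.S03284
import Pool.Agent.Lib_MP_debbfb_al.Limit

set_option autoImplicit false
open Pool Pool.MP_debbfb_al

namespace Pool.Agent.S03284

/-- There is a locally finite group which is the product of two locally nilpotent subgroups (in
fact of two locally finite 2-groups) and is not locally soluble. -/
theorem result :
    ¬ (∀ (G : Type) [Group G],
      (∀ s : Finset G, Finite (Subgroup.closure (s : Set G))) →
      ∀ A B : Subgroup G,
        (∀ s : Finset G, (s : Set G) ⊆ (A : Set G) →
          Group.IsNilpotent (Subgroup.closure (s : Set G))) →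
        (∀ s : Finset G, (s : Set G) ⊆ (B : Set G) →
          Group.IsNilpotent (Subgroup.closure (s : Set G))) →
        (∀ g : G, ∃ a ∈ A, ∃ b ∈ B, g = a * b) →
        ∀ s : Finset G, IsSolvable (Subgroup.closure (s : Set G))) := by
  exact Pool.MP_debbfb_al.Ext.final

end Pool.Agent.S03284
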