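import Pool.Statements.S04021
import Pool.Agent.Lib_MP_1fe18a_an.IntBeta
import Pool.Agent.Lib_MP_1fe18a_an.IntSer
import Pool.Agent.Lib_MP_1fe18a_an.Root
import Pool.Agent.Lib_MP_1fe18a_an.SerMono
import Pool.Agent.Lib_MP_1fe18a_an.NotInj
import Pool.Agent.Lib_MP_1fe18a_an.B4
import Pool.Agent.Lib_MP_1fe18a_an.HP
import Pool.Agent.Lib_MP_1fe18a_an.Half

set_option autoImplicit false
open Pool Pool.MP_1fe18a_an

namespace Pool.Agent.S04021

open Pool.Agent.JohnC Set

theorem Bnd_eq (l : ℝ) (hl : 0 < l) :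
    Bnd l = 2 * l * (Real.pi / (Real.exp (2 * Real.pi * l) - 1) - SerS l) := by
  unfold Bnd
  rw [int_beta l hl, int_series l hl]
  have h1 : Real.exp (2 * Real.pi * l) = Real.exp (Real.pi * l) ^ 2 := by
    rw [← Real.exp_nat_mul]; congr 1; push_cast; ring
  have h2 : (1:ℝ) < Real.exp (Real.pi * l) := by
    rw [Real.one_lt_exp_iff]; positivity
  have h3 : Real.exp (-(Real.pi * l)) = (Real.exp (Real.pi * l))⁻¹ := Real.exp_neg _
  rw [Real.sinh_eq, h1, mul_comm l Real.pi, h3]
  set E := Real.exp (Real.pi * l)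
  have h4 : E ^ 2 - 1 ≠ 0 := by nlinarith
  have h5 : E ≠ 0 := by positivity
  have h6 : E - E⁻¹ ≠ 0 := by
    intro h
    apply h4
    field_simp at h
    linarith
  field_simp
  ring

/-- There is λ in (0.627834, 0.627835) solving π/(e^{2πλ}−1) = Σ_{k≥1} k/(k²+λ²)·e^{−kπ/(2λ)} such that the least upper bound of ratios M/m forcing injectivity of holomorphic f on the disc with m ≤ ∣f'∣ ≤ M equals e^{λπ}. -/
theorem result :
    ∃ l : ℝ, (0.627834 : ℝ) < l ∧ l < (0.627835 : ℝ) ∧
      Real.pi / (Real.exp (2 * Real.pi * l) - 1) =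
        ∑' k : ℕ, ((k : ℝ) + 1) / (((k : ℝ) + 1) ^ 2 + l ^ 2) *
          Real.exp (-(((k : ℝ) + 1) * Real.pi) / (2 * l)) ∧
      IsLUB {g : ℝ | ∀ f : ℂ → ℂ, DifferentiableOn ℂ f (Metric.ball (0 : ℂ) 1) →
          ∀ m M : ℝ, 0 < m →
            (∀ z ∈ Metric.ball (0 : ℂ) 1, m ≤ ‖deriv f z‖ ∧ ‖deriv f z‖ ≤ M) →
            M ≤ g * m → Set.InjOn f (Metric.ball (0 : ℂ) 1)}
        (Real.exp (l * Real.pi)) := by
  obtain ⟨l, h1, h2, hroot⟩ := root_exists
  have hl : 0 < l := by linarith
  have hB : Bnd l = 0 := by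
    rw [Bnd_eq l hl, hroot]; ring
  have H : HalfPlaneThm l := half_plane_of_half l hl (half_theorem l h1 h2 hB)
  refine ⟨l, h1, h2, hroot, ?_, ?_⟩
  · -- upper bound
    intro g hg
    by_contra hlt
    rw [not_le] at hlt
    -- choose l' slightly larger than l
    have hg0 : 0 < g := lt_trans (Real.exp_pos _) hlt
    have hlog : l * Real.pi < Real.log g := by
      rw [← Real.log_exp (l * Real.pi)]
      exact Real.log_lt_log (Real.exp_pos _) hlt
    have hlog' : l < Real.log g / Real.pi := by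
      rw [lt_div_iff₀ Real.pi_pos]; exact hlog
    obtain ⟨l', hl1, hl2⟩ := exists_between (lt_min hlog' (show l < 1 by linarith))
    have hl'1 : l' < 1 := lt_of_lt_of_le hl2 (min_le_right _ _)
    have hl'g : l' * Real.pi ≤ Real.log g := by
      have := lt_of_lt_of_le hl2 (min_le_left _ _)
      rw [lt_div_iff₀ Real.pi_pos] at this
      exact this.le
    have hl'0 : 0 < l' := by linarith
    have hneg : Bnd l' < 0 := by
      rw [Bnd_eq l' hl'0]
      obtain ⟨s1, s2⟩ := ser_mono l l' hl hl1 hl'1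
      have : Real.pi / (Real.exp (2 * Real.pi * l') - 1) - SerS l' < 0 := by
        have := hroot
        unfold RootEq at this
        linarith
      have h2l : 0 < 2 * l' := by linarith
      exact mul_neg_of_pos_of_neg h2l this
    obtain ⟨f, hf, hb, hni⟩ := not_inj l' hl'0 hneg
    apply hni
    refine hg f hf (Real.exp (-(l' * Real.pi))) 1 (Real.exp_pos _) hb ?_
    have : Real.exp (l' * Real.pi) ≤ g := by
      rw [← Real.exp_log hg0]; exact Real.exp_le_exp.2 hl'g
    calc (1:ℝ) = Real.exp (l' * Real.pi) * Real.exp (-(l' * Real.pi)) := by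
          rw [← Real.exp_add]; simp
      _ ≤ g * Real.exp (-(l' * Real.pi)) :=
          mul_le_mul_of_nonneg_right this (Real.exp_pos _).le
  · -- least
    intro b hb
    by_contra hlt
    rw [not_le] at hlt
    obtain ⟨g, hg1, hg2⟩ := exists_between hlt
    have : g ≤ b := hb (fun f hf m M hm hbd hM => inj_of_ratio l hl H g hg2 f hf m M hm hbd hM)
    linarith

end Pool.Agent.S04021
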