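import Pool.Statements.S04104
import Pool.Agent.Lib_MP_270856_an.Approx
import Pool.Agent.Lib_MP_270856_an.Restrict
import Pool.Agent.Lib_MP_270856_an.LowerX2
import Pool.Agent.Lib_MP_270856_an.UpperY3

set_option autoImplicit false
open Classical
open Pool Pool.MP_270856_an

namespace Pool.Agent.S04104

/-- The negation of the preceding statement: For uniformly locally finite metric spaces X, Y, if the uniform Roe algebra of X embeds injectively as a *-algebra into that of Y, then asdim X ≤ asdim Y (every n bounding asdim Y also bounds asdim X). -/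
theorem result :
    ¬ (∀ (X Y : Type) [MetricSpace X] [MetricSpace Y],
    (∀ r : ℝ, ∃ N : ℕ, ∀ x : X,
        (Metric.closedBall x r).Finite ∧ (Metric.closedBall x r).ncard ≤ N) →
    (∀ r : ℝ, ∃ N : ℕ, ∀ y : Y,
        (Metric.closedBall y r).Finite ∧ (Metric.closedBall y r).ncard ≤ N) →
    (∃ Φ : (StarAlgebra.adjoin ℂ
              {T : lp (fun _ : X => ℂ) 2 →L[ℂ] lp (fun _ : X => ℂ) 2 |
                ∃ R : ℝ, ∀ a b : X, R < dist a b →
                  inner ℂ (lp.single (E := fun _ : X => ℂ) 2 a (1 : ℂ))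
                    (T (lp.single (E := fun _ : X => ℂ) 2 b (1 : ℂ))) = 0}).topologicalClosure
            →⋆ₙₐ[ℂ]
           (StarAlgebra.adjoin ℂ
              {T : lp (fun _ : Y => ℂ) 2 →L[ℂ] lp (fun _ : Y => ℂ) 2 |
                ∃ R : ℝ, ∀ a b : Y, R < dist a b →
                  inner ℂ (lp.single (E := fun _ : Y => ℂ) 2 a (1 : ℂ))
                    (T (lp.single (E := fun _ : Y => ℂ) 2 b (1 : ℂ))) = 0}).topologicalClosure,
        Function.Injective Φ) →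
    ∀ n : ℕ,
      (∀ R : ℝ, 0 < R → ∃ U : Fin (n + 1) → Set (Set Y),
        (∃ D : ℝ, ∀ i, ∀ A ∈ U i, ∀ a ∈ A, ∀ b ∈ A, dist a b ≤ D) ∧
        (∀ z : Y, ∃ i, ∃ A ∈ U i, z ∈ A) ∧
        (∀ i, ∀ A ∈ U i, ∀ B ∈ U i, A ≠ B → ∀ a ∈ A, ∀ b ∈ B, R < dist a b)) →
      (∀ R : ℝ, 0 < R → ∃ U : Fin (n + 1) → Set (Set X),
        (∃ D : ℝ, ∀ i, ∀ A ∈ U i, ∀ a ∈ A, ∀ b ∈ A, dist a b ≤ D) ∧
        (∀ z : X, ∃ i, ∃ A ∈ U i, z ∈ A) ∧
        (∀ i, ∀ A ∈ U i, ∀ B ∈ U i, A ≠ B → ∀ a ∈ A, ∀ b ∈ B, R < dist a b))) := by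
  intro H
  refine Pool.Agent.Roe.X_not_asdim_one (@H Pool.Agent.Roe.XPt
    (Pool.Agent.Roe.XPt × Pool.Agent.Roe.Bits) Pool.Agent.Roe.cX.metric
    Pool.Agent.Roe.cY.metric (Pool.Agent.Roe.cX.ulf Pool.Agent.Roe.cX_bound)
    (Pool.Agent.Roe.cY.ulf Pool.Agent.Roe.cY_bound) ?_ 1 Pool.Agent.Roe.Y_asdim_one)
  letI mX := Pool.Agent.Roe.cX.metric
  letI mY := Pool.Agent.Roe.cY.metric
  refine Pool.Agent.Roe.exists_restrict Pool.Agent.Roe.XPt
    (Pool.Agent.Roe.XPt × Pool.Agent.Roe.Bits) Pool.Agent.Roe.Phi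
    Pool.Agent.Roe.Phi_continuous Pool.Agent.Roe.Phi_injective ?_
  rintro T ⟨R, hR⟩ ε hε
  obtain ⟨S, ⟨m, hm⟩, hS⟩ := Pool.Agent.Roe.approx T ⌊R⌋₊
    (fun x x' hE => hR x x' (by
      by_contra hcon
      exact hE (Pool.Agent.Roe.cX.E_of_dist_le (not_lt.1 hcon)))) hε
  refine ⟨S, ⟨m, fun a b hab => hm a b (fun hE => ?_)⟩, hS⟩
  exact absurd (Pool.Agent.Roe.cY.dist_le_of_E hE) (not_le.2 hab)

end Pool.Agent.S04104
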