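import Pool.Statements.S04222
import Pool.Agent.Lib_MP_2ed15d_an.Main

set_option autoImplicit false
open Pool Pool.MP_2ed15d_an

namespace Pool.Agent.S04222

/-- The negation of the preceding statement: There is d>0 such that every transcendental entire f of order less than d satisfies T(r,f) ≤ (1+ε)T(r,f') for arbitrarily large r and every ε>0, i.e. liminf T(r,f)/T(r,f') ≤ 1, with T the Nevanlinna characteristic. -/
theorem result :
    ¬ (∃ d : ℝ, 0 < d ∧
      ∀ f : ℂ → ℂ, Differentiable ℂ f →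
        (¬ ∃ p : Polynomial ℂ, ∀ z : ℂ, f z = p.eval z) →
        (∃ σ : ℝ, σ < d ∧ ∃ C : ℝ, ∀ z : ℂ, ‖f z‖ ≤ Real.exp (C + ‖z‖ ^ σ)) →
        ∀ ε : ℝ, 0 < ε → ∀ R : ℝ, ∃ r : ℝ, R ≤ r ∧
          (1 / (2 * Real.pi)) *
              intervalIntegral (fun θ : ℝ => max 0 (Real.log ‖f (circleMap 0 r θ)‖))
                0 (2 * Real.pi) MeasureTheory.volume
            ≤ (1 + ε) * ((1 / (2 * Real.pi)) *
              intervalIntegral (fun θ : ℝ => max 0 (Real.log ‖deriv f (circleMap 0 r θ)‖))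
                0 (2 * Real.pi) MeasureTheory.volume)) := by
  rintro ⟨d, hd, H⟩
  obtain ⟨f, hf, hpoly, hord, ε, hε, R, hR⟩ := Pool.Agent.NevChar.main_example d hd
  obtain ⟨r, hr, hle⟩ := H f hf hpoly hord ε hε R
  exact absurd hle (not_le.mpr (hR r hr))

end Pool.Agent.S04222
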