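import Pool.Statements.S04543
-- import your own Pool.Agent.* helpers here
import Pool.Agent.Lib_MP_4704fc09_an.Ell2

set_option autoImplicit false
open Pool Pool.MP_4704fc09_an

namespace Pool.Agent.S04543

/-- The space of compact operators on real ℓ₂ with the operator norm carries a norm, equivalent to the operator norm, that is real analytic at every nonzero operator. -/
theorem result :
    ∃ N : Seminorm ℝ ↥(compactOperator (RingHom.id ℝ) (lp (fun _ : ℕ => ℝ) 2) (lp (fun _ : ℕ => ℝ) 2)),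
      ∃ a b : ℝ, 0 < a ∧ 0 < b ∧
        (∀ T : ↥(compactOperator (RingHom.id ℝ) (lp (fun _ : ℕ => ℝ) 2) (lp (fun _ : ℕ => ℝ) 2)),
          a * ‖T‖ ≤ N T ∧ N T ≤ b * ‖T‖) ∧
        AnalyticOnNhd ℝ (fun T => N T)
          {T : ↥(compactOperator (RingHom.id ℝ) (lp (fun _ : ℕ => ℝ) 2) (lp (fun _ : ℕ => ℝ) 2)) | T ≠ 0} := by
  obtain ⟨N, hN, hA⟩ := Pool.Agent.Lib4704.Ell2.exists_analytic_norm
  exact ⟨N, 1, 2, one_pos, two_pos, hN, hA⟩

end Pool.Agent.S04543
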