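import Pool.Statements.S05411
import Pool.Agent.Lib_MP_9284e8_an.Hull

set_option autoImplicit false
open Pool Pool.MP_9284e8_an

namespace Pool.Agent.S05411

/-- For every monic complex polynomial of degree n ≥ 2 whose lower coefficients are real and ≤ 0 and whose zeros all lie in the closed unit disc, every point of the convex hull of its zeros is within distance 1 of some zero of its derivative. -/
theorem result :
    ∀ (n : ℕ), 2 ≤ n → ∀ p : Polynomial ℂ, p.Monic → p.natDegree = n →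
      (∀ k : ℕ, k < n → ∃ r : ℝ, r ≤ 0 ∧ p.coeff k = (r : ℂ)) →
      (∀ z : ℂ, p.eval z = 0 → ‖z‖ ≤ 1) →
      ∀ ζ ∈ convexHull ℝ {z : ℂ | p.eval z = 0},
        ∃ w : ℂ, (Polynomial.derivative p).eval w = 0 ∧ ‖w - ζ‖ ≤ 1 := by
  intro n hn p hp hdeg hc hz ζ hζ
  obtain ⟨N, rfl⟩ : ∃ N, n = N + 1 := ⟨n - 1, by omega⟩
  exact Pool.Agent.Schmeisser.hull N (by omega) p hp hdeg hc hz ζ hζ

end Pool.Agent.S05411
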