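import Pool.Statements.S05821
import Pool.Agent.Lib_MP_af4de1_zy.Z177

set_option autoImplicit false
open Pool Pool.MP_af4de1_an

namespace Pool.Agent.S05821

/-- For every complex q with 0 < ∣q∣ ≤ 1, every zero of the entire function F(z) = sum over k of q^(k(k-1)/2) z^k / k! is simple, meaning the derivative of F is nonzero there. -/
theorem result :
    ∀ q : ℂ, 0 < ‖q‖ → ‖q‖ ≤ 1 → ∀ z : ℂ,
      (∑' k : ℕ, q ^ (k * (k - 1) / 2) * z ^ k / (Nat.factorial k : ℂ)) = 0 →
      deriv (fun w : ℂ => ∑' k : ℕ, q ^ (k * (k - 1) / 2) * w ^ k / (Nat.factorial k : ℂ)) z ≠ 0 := by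
  exact SokamEnd.full

end Pool.Agent.S05821
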