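import Pool.Statements.S06615
import Pool.Agent.Lib_MP_eedf80_an.Assembly

set_option autoImplicit false
open Pool Pool.MP_eedf80_an

namespace Pool.Agent.S06615

/-- If f and g are C^1 maps of [0,1] into itself with f(g(x)) = g(f(x)) for all x in [0,1], then some x in [0,1] satisfies f(x) = x and g(x) = x. -/
theorem result :
    ∀ f g : ℝ → ℝ,
      Set.MapsTo f (Set.Icc (0:ℝ) 1) (Set.Icc (0:ℝ) 1) →
      Set.MapsTo g (Set.Icc (0:ℝ) 1) (Set.Icc (0:ℝ) 1) →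
      ContDiffOn ℝ 1 f (Set.Icc (0:ℝ) 1) →
      ContDiffOn ℝ 1 g (Set.Icc (0:ℝ) 1) →
      (∀ x ∈ Set.Icc (0:ℝ) 1, f (g x) = g (f x)) →
      ∃ x ∈ Set.Icc (0:ℝ) 1, f x = x ∧ g x = x := by
  intro f g hf hg cf cg hc
  exact Pool.Agent.CFP.main f g hf hg cf cg hc

end Pool.Agent.S06615
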