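import Pool.Statements.S06799
import Pool.Agent.Lib_MP_fbc045_an.Assembly

set_option autoImplicit false
open Pool Pool.MP_fbc045_an

namespace Pool.Agent.S06799

/-- There is a plane homeomorphism in W^{1,1}_loc with locally integrable Jacobian and distortion K, exp(λK) locally integrable for some λ>0, mapping [0,1] onto itself and some E in [0,1] of positive length onto a scaled, shifted ternary Cantor set. -/
theorem result :
    ∃ (f : ℂ ≃ₜ ℂ) (Df : ℂ → ℂ →L[ℝ] ℂ) (K : ℂ → ℝ) (lam : ℝ) (E : Set ℂ) (a r : ℝ),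
      MeasureTheory.LocallyIntegrable Df MeasureTheory.volume ∧
      (∀ φ : ℂ → ℝ, ContDiff ℝ 1 φ → HasCompactSupport φ → ∀ v : ℂ,
        ∫ x, (fderiv ℝ φ x v) • f x ∂MeasureTheory.volume
          = - ∫ x, φ x • Df x v ∂MeasureTheory.volume) ∧
      MeasureTheory.LocallyIntegrable
        (fun x => LinearMap.det ((Df x : ℂ →L[ℝ] ℂ) : ℂ →ₗ[ℝ] ℂ)) MeasureTheory.volume ∧
      (∀ x, 1 ≤ K x) ∧
      (∀ᵐ x ∂MeasureTheory.volume,
        ‖Df x‖ ^ 2 ≤ K x * LinearMap.det ((Df x : ℂ →L[ℝ] ℂ) : ℂ →ₗ[ℝ] ℂ)) ∧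
      0 < lam ∧
      MeasureTheory.LocallyIntegrable (fun x => Real.exp (lam * K x)) MeasureTheory.volume ∧
      f '' ((fun t : ℝ => (t : ℂ)) '' Set.Icc 0 1) = (fun t : ℝ => (t : ℂ)) '' Set.Icc 0 1 ∧
      E ⊆ (fun t : ℝ => (t : ℂ)) '' Set.Icc 0 1 ∧
      0 < MeasureTheory.Measure.hausdorffMeasure 1 E ∧
      0 < r ∧
      f '' E = (fun c : ℝ => ((a + r * c : ℝ) : ℂ)) '' cantorSet := by
  exact Pool.Agent.MPfbc045.main

end Pool.Agent.S06799
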