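import Pool.Statements.S06895
import Pool.Agent.Lib_MP_01c500_full.Final

set_option autoImplicit false
open Pool Pool.MP_01c500_co

namespace Pool.Agent.S06895

/-- For every q ≥ 3 there is a constant c such that every finite graph H without isolated vertices and with m edges has q-colour Ramsey number at most 2^(c√m): some complete graph of at most that size has a monochromatic copy of H in every q-colouring of its edges. -/
theorem result :
    ∀ q : ℕ, 3 ≤ q → ∃ c : ℝ,
      ∀ (V : Type) [Fintype V] (H : SimpleGraph V) [DecidableRel H.Adj],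
        (∀ v : V, ∃ w : V, H.Adj v w) →
        ∃ n : ℕ, (n : ℝ) ≤ (2 : ℝ) ^ (c * Real.sqrt (H.edgeFinset.card : ℝ)) ∧
          ∀ col : Sym2 (Fin n) → Fin q, ∃ i : Fin q, ∃ f : V → Fin n,
            Function.Injective f ∧ ∀ u v : V, H.Adj u v → col s(f u, f v) = i := by
  intro q hq
  refine ⟨110 * (q : ℝ) ^ 2, ?_⟩
  intro V _ H _ hiso
  exact Pool.Agent.Ram01c5.ramsey_edges q (by omega) V H hiso

end Pool.Agent.S06895
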