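import Pool.Statements.S07220
-- import your own Pool.Agent.* helpers here

set_option autoImplicit false
open Pool Pool.MP_0fb6b1_co

namespace Pool.Agent.S07220

open Finset

/-- The cores of the three clusters. -/
def core (c : ℕ) : Finset ℕ := if c = 0 then {0, 1, 2} else if c = 1 then {0} else {1}

/-- Member `j` of cluster `c`: the core of the cluster plus private elements. -/
def st (w c j : ℕ) : Finset ℕ :=
  core c ∪ (Finset.range (w - (core c).card)).image (fun n => Nat.pair c (Nat.pair j n) + 3)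

/-- The family: three clusters with `N` members each. -/
def fam (w N : ℕ) : Finset (Finset ℕ) :=
  ((Finset.range 3) ×ˢ (Finset.range N)).image (fun p => st w p.1 p.2)

lemma core_lt (c x : ℕ) (hx : x ∈ core c) : x < 3 := by
  unfold core at hx
  split_ifs at hx <;> simp at hx <;> omega

lemma core_card_le (c : ℕ) : (core c).card ≤ 3 := by
  unfold core
  split_ifs <;> simp

lemma mem_st_add (w c j x : ℕ) :
    x + 3 ∈ st w c j ↔ ∃ n, n < w - (core c).card ∧ Nat.pair c (Nat.pair j n) = x := by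
  unfold st
  rw [Finset.mem_union, Finset.mem_image]
  constructor
  · rintro (h | ⟨n, hn, h⟩)
    · have := core_lt _ _ h
      omega
    · exact ⟨n, Finset.mem_range.1 hn, by omega⟩
  · rintro ⟨n, hn, h⟩
    exact Or.inr ⟨n, Finset.mem_range.2 hn, by omega⟩

lemma mem_st_small (w c j x : ℕ) (hx : x < 3) : x ∈ st w c j ↔ x ∈ core c := by
  unfold st
  rw [Finset.mem_union, Finset.mem_image]
  constructor
  · rintro (h | ⟨n, hn, h⟩)
    · exact h
    · omega
  · intro h
    exact Or.inl h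

lemma st_card (w c j : ℕ) (hw : 4 ≤ w) : (st w c j).card = w := by
  unfold st
  rw [Finset.card_union_of_disjoint, Finset.card_image_of_injective, Finset.card_range]
  · have := core_card_le c
    omega
  · intro a b h
    simpa using h
  · rw [Finset.disjoint_left]
    intro x hx hx'
    have h1 := core_lt _ _ hx
    rw [Finset.mem_image] at hx'
    obtain ⟨n, hn, h⟩ := hx'
    omega

lemma st_inj (w c j c' j' : ℕ) (hw : 4 ≤ w) (h : st w c j = st w c' j') : c = c' ∧ j = j' := by
  have h1 : Nat.pair c (Nat.pair j 0) + 3 ∈ st w c j := by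
    rw [mem_st_add]
    refine ⟨0, ?_, rfl⟩
    have := core_card_le c
    omega
  rw [h, mem_st_add] at h1
  obtain ⟨n, hn, h2⟩ := h1
  rw [Nat.pair_eq_pair, Nat.pair_eq_pair] at h2
  exact ⟨h2.1.symm, h2.2.1.symm⟩

lemma fam_card (w N : ℕ) (hw : 4 ≤ w) : (fam w N).card = 3 * N := by
  unfold fam
  rw [Finset.card_image_of_injOn, Finset.card_product, Finset.card_range, Finset.card_range]
  rintro ⟨c, j⟩ _ ⟨c', j'⟩ _ h
  obtain ⟨h1, h2⟩ := st_inj w c j c' j' hw h
  simp [h1, h2]

/-- A trace of `T` on a member of cluster `0` is never the union of traces of members of the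
clusters `1` and `2`. -/
lemma bad (w N j1 j2 j3 : ℕ) :
    ¬ ∃ T ∈ fam w N, T ∩ st w 0 j1 = (st w 1 j2 ∩ st w 0 j1) ∪ (st w 2 j3 ∩ st w 0 j1) := by
  rintro ⟨T, hT, h⟩
  unfold fam at hT
  rw [Finset.mem_image] at hT
  obtain ⟨⟨c, j⟩, hcj, rfl⟩ := hT
  rw [Finset.mem_product, Finset.mem_range, Finset.mem_range] at hcj
  have h0 : (0 : ℕ) ∈ st w c j := by
    have : (0 : ℕ) ∈ (st w 1 j2 ∩ st w 0 j1) ∪ (st w 2 j3 ∩ st w 0 j1) := by
      rw [Finset.mem_union, Finset.mem_inter, mem_st_small _ _ _ _ (by norm_num),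
        mem_st_small _ _ _ _ (by norm_num)]
      left
      simp [core]
    rw [← h, Finset.mem_inter] at this
    exact this.1
  have h1 : (1 : ℕ) ∈ st w c j := by
    have : (1 : ℕ) ∈ (st w 1 j2 ∩ st w 0 j1) ∪ (st w 2 j3 ∩ st w 0 j1) := by
      rw [Finset.mem_union, Finset.mem_inter, Finset.mem_inter,
        mem_st_small _ _ _ _ (by norm_num), mem_st_small _ _ _ _ (by norm_num),
        mem_st_small _ _ _ _ (by norm_num)]
      right
      simp [core]
    rw [← h, Finset.mem_inter] at this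
    exact this.1
  have h2 : (2 : ℕ) ∉ st w c j := by
    intro h2
    have : (2 : ℕ) ∈ st w c j ∩ st w 0 j1 := by
      rw [Finset.mem_inter]
      refine ⟨h2, ?_⟩
      rw [mem_st_small _ _ _ _ (by norm_num)]
      simp [core]
    rw [h, Finset.mem_union, Finset.mem_inter, Finset.mem_inter,
        mem_st_small _ _ _ _ (by norm_num), mem_st_small _ _ _ _ (by norm_num),
        mem_st_small _ _ _ _ (by norm_num)] at this
    simp [core] at this
  rw [mem_st_small _ _ _ _ (by norm_num)] at h0 h1 h2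
  have hc : c = 0 ∨ c = 1 ∨ c = 2 := by
    have := hcj.1
    simp at this
    omega
  rcases hc with rfl | rfl | rfl <;> simp [core] at h0 h1 h2

/-- The negation of the preceding statement: There is a constant K such that, for every family F of w-element sets with at least K^w members, the fraction of triples (S,S1,S2) from F for which some T in F has T∩S=(S1∩S)∪(S2∩S) tends to 1 as w grows, uniformly in F. -/
theorem result :
    ¬ (∃ K : ℝ, ∀ ε : ℝ, 0 < ε → ∃ W : ℕ, ∀ w : ℕ, W ≤ w →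
      ∀ F : Finset (Finset ℕ), (∀ A ∈ F, A.card = w) → K ^ w ≤ (F.card : ℝ) →
        (1 - ε) * (F.card : ℝ) ^ 3 ≤
          (((F ×ˢ F ×ˢ F).filter
            (fun p : Finset ℕ × Finset ℕ × Finset ℕ =>
              ∃ T ∈ F, T ∩ p.1 = (p.2.1 ∩ p.1) ∪ (p.2.2 ∩ p.1))).card : ℝ)) := by
  rintro ⟨K, hK⟩
  obtain ⟨W, hW⟩ := hK (1 / 28) (by norm_num)
  set w : ℕ := max W 4 with hw
  have hw4 : 4 ≤ w := le_max_right _ _
  set N : ℕ := max 1 ⌈K ^ w⌉₊ with hN
  have hN1 : 1 ≤ N := le_max_left _ _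
  have hcard : (fam w N).card = 3 * N := fam_card w N hw4
  have hbig : K ^ w ≤ ((fam w N).card : ℝ) := by
    rw [hcard]
    have h1 : K ^ w ≤ (⌈K ^ w⌉₊ : ℝ) := Nat.le_ceil _
    have h2 : (⌈K ^ w⌉₊ : ℝ) ≤ (N : ℝ) := by exact_mod_cast le_max_right _ _
    have h3 : (0 : ℝ) ≤ (N : ℝ) := by positivity
    push_cast
    linarith
  have hunif : ∀ A ∈ fam w N, A.card = w := by
    intro A hA
    unfold fam at hA
    rw [Finset.mem_image] at hA
    obtain ⟨⟨c, j⟩, _, rfl⟩ := hA
    exact st_card w c j hw4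
  have key := hW w (le_max_left _ _) (fam w N) hunif hbig
  set F := fam w N with hF
  set P : Finset ℕ × Finset ℕ × Finset ℕ → Prop := fun p =>
    ∃ T ∈ F, T ∩ p.1 = (p.2.1 ∩ p.1) ∪ (p.2.2 ∩ p.1) with hP
  -- the bad triples
  set g : ℕ × ℕ × ℕ → Finset ℕ × Finset ℕ × Finset ℕ :=
    fun q => (st w 0 q.1, st w 1 q.2.1, st w 2 q.2.2) with hg
  have hsub : ((Finset.range N) ×ˢ (Finset.range N) ×ˢ (Finset.range N)).image g ⊆
      (F ×ˢ F ×ˢ F).filter (fun p => ¬ P p) := by
    intro x hx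
    rw [Finset.mem_image] at hx
    obtain ⟨⟨a, b, c⟩, hq, rfl⟩ := hx
    rw [Finset.mem_product, Finset.mem_product] at hq
    obtain ⟨ha, hb, hc⟩ := hq
    rw [Finset.mem_filter, Finset.mem_product, Finset.mem_product]
    refine ⟨⟨?_, ?_, ?_⟩, ?_⟩
    · exact Finset.mem_image.2 ⟨(0, a), Finset.mem_product.2 ⟨by simp, ha⟩, rfl⟩
    · exact Finset.mem_image.2 ⟨(1, b), Finset.mem_product.2 ⟨by simp, hb⟩, rfl⟩
    · exact Finset.mem_image.2 ⟨(2, c), Finset.mem_product.2 ⟨by simp, hc⟩, rfl⟩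
    · exact bad w N a b c
  have hcardbad : N ^ 3 ≤ ((F ×ˢ F ×ˢ F).filter (fun p => ¬ P p)).card := by
    refine le_trans (le_of_eq ?_) (Finset.card_le_card hsub)
    rw [Finset.card_image_of_injective, Finset.card_product, Finset.card_product,
      Finset.card_range]
    · ring
    · rintro ⟨a, b, c⟩ ⟨a', b', c'⟩ h
      simp only [hg, Prod.mk.injEq] at h
      have e1 := (st_inj w _ _ _ _ hw4 h.1).2
      have e2 := (st_inj w _ _ _ _ hw4 h.2.1).2
      have e3 := (st_inj w _ _ _ _ hw4 h.2.2).2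
      simp [e1, e2, e3]
  have htot : ((F ×ˢ F ×ˢ F).filter (fun p => P p)).card +
      ((F ×ˢ F ×ˢ F).filter (fun p => ¬ P p)).card = (3 * N) ^ 3 := by
    rw [Finset.card_filter_add_card_filter_not, Finset.card_product, Finset.card_product, hcard]
    ring
  have hle : ((F ×ˢ F ×ˢ F).filter (fun p => P p)).card + N ^ 3 ≤ (3 * N) ^ 3 := by
    omega
  have hle' : (((F ×ˢ F ×ˢ F).filter (fun p => P p)).card : ℝ) + (N : ℝ) ^ 3 ≤
      (3 * (N : ℝ)) ^ 3 := by
    exact_mod_cast hle
  rw [hcard] at key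
  push_cast at key
  have hNpos : (1 : ℝ) ≤ (N : ℝ) := by exact_mod_cast hN1
  have hN3 : (0 : ℝ) < (N : ℝ) ^ 3 := by positivity
  have key' : (1 - 1 / 28) * (3 * (N : ℝ)) ^ 3 ≤
      (((F ×ˢ F ×ˢ F).filter (fun p => P p)).card : ℝ) := key
  nlinarith [key', hle', hN3]

end Pool.Agent.S07220
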