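import Pool.Statements.S07344

set_option autoImplicit false
open Pool Pool.MP_166f70_co

namespace Pool.Agent.S07344

/-!
Counterexample for `r = 3`: ten points and twelve lines of the real projective plane, each line
containing exactly three of the points, whose incidences force the golden ratio.
Rows of the pattern are the points `p i`, columns are the lines `l j`, and all the coordinates lie in
`ℤ[φ]` with `φ = (1 + √5) / 2`.
-/

/-- Points: coordinates are `Pa i k + Pb i k * φ`. -/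
def Pa : Matrix (Fin 10) (Fin 3) ℤ :=
  !![0, 1, -1; 1, 0, 0; 1, 1, 0; 1, 1, 0; 1, 1, 1; 0, 1, 1; 0, 1, 0; 0, 0, 1; 0, 1, 0; 1, 1, -1]

def Pb : Matrix (Fin 10) (Fin 3) ℤ :=
  !![1, 0, 1; 0, 0, 0; 0, 0, 0; 1, 0, 1; 0, 0, 0; 1, 0, 0; 0, 0, 0; 0, 0, 0; 0, 0, 1; 1, 0, 1]

/-- Lines: coordinates are `La k j + Lb k j * φ`. -/
def La : Matrix (Fin 3) (Fin 12) ℤ :=
  !![0, 1, -1, 1, 0, 0, 0, 1, 1, 1, -1, 1;
     1, -1, 0, 0, 0, 0, 1, -1, 0, -1, -1, 0;
     1, -1, 1, 0, 1, 1, -1, 0, 0, 0, 0, 0]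

def Lb : Matrix (Fin 3) (Fin 12) ℤ :=
  !![0, 0, 1, 0, 0, 0, 0, 0, 0, 0, 1, 0;
     -1, 0, -1, -1, 0, -1, 0, 0, 0, -1, -1, 0;
     0, 0, 0, 0, 0, 0, 0, 0, -1, 0, 1, 0]

def Ba : Matrix (Fin 10) (Fin 12) ℤ := Pa * La + Pb * Lb

def Bb : Matrix (Fin 10) (Fin 12) ℤ := Pa * Lb + Pb * La + Pb * Lb

/-- The sign of `x + y * φ` (correct for the small pairs met here). -/
def sg (x y : ℤ) : SignType :=
  if x = 0 ∧ y = 0 then 0 else if 0 < 1000 * x + 1618 * y ∧ 0 < 1000 * x + 1619 * y then 1 else -1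

def okp (x y : ℤ) : Prop :=
  (x = 0 ∧ y = 0) ∨ (0 < 1000 * x + 1618 * y ∧ 0 < 1000 * x + 1619 * y) ∨
    (1000 * x + 1618 * y < 0 ∧ 1000 * x + 1619 * y < 0)

instance (x y : ℤ) : Decidable (okp x y) := by unfold okp; infer_instance

/-- The sign pattern. -/
def A : Matrix (Fin 10) (Fin 12) SignType := fun i j => sg (Ba i j) (Bb i j)

theorem ok_all : ∀ i j, okp (Ba i j) (Bb i j) := by decide +kernel

noncomputable def φ : ℝ := (1 + √5) / 2

theorem φ_sq : φ * φ = φ + 1 := by
  have h : √5 * √5 = (5 : ℝ) := Real.mul_self_sqrt (by norm_num)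
  unfold φ
  linear_combination (1 / 4 : ℝ) * h

theorem φ_lo : (1618 : ℝ) / 1000 < φ := by
  have h : (2236 / 1000 : ℝ) < √5 := by
    apply Real.lt_sqrt_of_sq_lt; norm_num
  unfold φ; linarith

theorem φ_hi : φ < (1619 : ℝ) / 1000 := by
  have h : √5 < (2238 / 1000 : ℝ) := by
    rw [Real.sqrt_lt' (by norm_num)]; norm_num
  unfold φ; linarith

theorem sign_eq (x y : ℤ) (h : okp x y) : SignType.sign ((x : ℝ) + y * φ) = sg x y := by
  have h1 := φ_lo
  have h2 := φ_hi
  rcases h with ⟨hx, hy⟩ | ⟨ha, hb⟩ | ⟨ha, hb⟩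
  · subst hx hy; simp [sg]
  · have hne : ¬ (x = 0 ∧ y = 0) := by rintro ⟨rfl, rfl⟩; simp at ha
    have : sg x y = 1 := by unfold sg; rw [if_neg hne, if_pos ⟨ha, hb⟩]
    rw [this, sign_eq_one_iff]
    have ha' : (0 : ℝ) < 1000 * x + 1618 * y := by exact_mod_cast ha
    have hb' : (0 : ℝ) < 1000 * x + 1619 * y := by exact_mod_cast hb
    rcases le_total 0 y with hy | hy
    · have hy' : (0 : ℝ) ≤ y := by exact_mod_cast hy
      nlinarith
    · have hy' : (y : ℝ) ≤ 0 := by exact_mod_cast hy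
      nlinarith
  · have hne : ¬ (x = 0 ∧ y = 0) := by rintro ⟨rfl, rfl⟩; simp at ha
    have hnp : ¬ (0 < 1000 * x + 1618 * y ∧ 0 < 1000 * x + 1619 * y) := by
      rintro ⟨h3, -⟩; omega
    have : sg x y = -1 := by unfold sg; rw [if_neg hne, if_neg hnp]
    rw [this, sign_eq_neg_one_iff]
    have ha' : 1000 * (x : ℝ) + 1618 * y < 0 := by exact_mod_cast ha
    have hb' : 1000 * (x : ℝ) + 1619 * y < 0 := by exact_mod_cast hb
    rcases le_total 0 y with hy | hy
    · have hy' : (0 : ℝ) ≤ y := by exact_mod_cast hy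
      nlinarith
    · have hy' : (y : ℝ) ≤ 0 := by exact_mod_cast hy
      nlinarith

noncomputable def PR : Matrix (Fin 10) (Fin 3) ℝ := fun i k => (Pa i k : ℝ) + Pb i k * φ
noncomputable def LR : Matrix (Fin 3) (Fin 12) ℝ := fun k j => (La k j : ℝ) + Lb k j * φ
noncomputable def B : Matrix (Fin 10) (Fin 12) ℝ := PR * LR

theorem B_apply (i : Fin 10) (j : Fin 12) : B i j = (Ba i j : ℝ) + Bb i j * φ := by
  simp only [B, Ba, Bb, Matrix.mul_apply, Matrix.add_apply, Fin.sum_univ_three, PR, LR]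
  push_cast
  linear_combination ((Pb i 0 : ℝ) * Lb 0 j + Pb i 1 * Lb 1 j + Pb i 2 * Lb 2 j) * φ_sq

theorem B_sign (i : Fin 10) (j : Fin 12) : SignType.sign (B i j) = A i j := by
  rw [B_apply, sign_eq _ _ (ok_all i j)]; rfl

/-- The three reference rows `1, 6, 7` of any matrix with this zero pattern are independent;
more precisely the submatrix on rows `1,6,7` and columns `11,0,4` is triangular. -/
theorem three_le_rank {K : Type*} [Field K] (C : Matrix (Fin 10) (Fin 12) K)
    (hC : ∀ i j, C i j = 0 ↔ A i j = 0) : 3 ≤ C.rank := by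
  have h1 : (C.submatrix ![1, 6, 7] ![11, 0, 4]).det ≠ 0 := by
    rw [Matrix.det_fin_three]
    simp only [Matrix.submatrix_apply, Matrix.cons_val_zero, Matrix.cons_val_one, Matrix.cons_val]
    have e1 : C 1 0 = 0 := (hC 1 0).2 (by decide +kernel)
    have e2 : C 1 4 = 0 := (hC 1 4).2 (by decide +kernel)
    have e3 : C 6 11 = 0 := (hC 6 11).2 (by decide +kernel)
    have e4 : C 6 4 = 0 := (hC 6 4).2 (by decide +kernel)
    have n1 : C 1 11 ≠ 0 := fun h => absurd ((hC 1 11).1 h) (by decide +kernel)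
    have n2 : C 6 0 ≠ 0 := fun h => absurd ((hC 6 0).1 h) (by decide +kernel)
    have n3 : C 7 4 ≠ 0 := fun h => absurd ((hC 7 4).1 h) (by decide +kernel)
    rw [e1, e2, e3, e4]
    ring_nf
    exact mul_ne_zero (mul_ne_zero n1 n2) n3
  have h2 := Matrix.rank_of_det_ne_zero h1
  have h3 := Matrix.rank_submatrix_le C ![1, 6, 7] ![11, 0, 4]
  rw [h2] at h3
  simpa using h3

theorem lin_indep {K : Type*} [Field K] (C : Matrix (Fin 10) (Fin 12) K)
    (hC : ∀ i j, C i j = 0 ↔ A i j = 0) : LinearIndependent K ![C 1, C 6, C 7] := by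
  have e1 : C 1 0 = 0 := (hC 1 0).2 (by decide +kernel)
  have e2 : C 1 4 = 0 := (hC 1 4).2 (by decide +kernel)
  have e3 : C 6 11 = 0 := (hC 6 11).2 (by decide +kernel)
  have e4 : C 6 4 = 0 := (hC 6 4).2 (by decide +kernel)
  have e5 : C 7 11 = 0 := (hC 7 11).2 (by decide +kernel)
  have n1 : C 1 11 ≠ 0 := fun h => absurd ((hC 1 11).1 h) (by decide +kernel)
  have n2 : C 6 0 ≠ 0 := fun h => absurd ((hC 6 0).1 h) (by decide +kernel)
  have n3 : C 7 4 ≠ 0 := fun h => absurd ((hC 7 4).1 h) (by decide +kernel)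
  rw [Fintype.linearIndependent_iff]
  intro g hg
  have k11 := congrFun hg 11
  have k0 := congrFun hg 0
  have k4 := congrFun hg 4
  simp [Fin.sum_univ_three, e1, e2, e3, e4, e5, n1, n3] at k11 k0 k4
  have g2 : g 2 = 0 := k4
  have g0 : g 0 = 0 := k11
  have g1 : g 1 = 0 := by
    rw [g2] at k0; simpa [n2] using k0
  intro i
  fin_cases i
  · exact g0
  · exact g1
  · exact g2

theorem row_comb {K : Type*} [Field K] (C : Matrix (Fin 10) (Fin 12) K)
    (hC : ∀ i j, C i j = 0 ↔ A i j = 0) (hr : C.rank = 3) :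
    ∃ x y z : Fin 10 → K, ∀ i j, C i j = x i * C 1 j + y i * C 6 j + z i * C 7 j := by
  have hli := lin_indep C hC
  have hle : Submodule.span K (Set.range ![C 1, C 6, C 7]) ≤ Submodule.span K (Set.range C.row) := by
    apply Submodule.span_mono
    rintro _ ⟨k, rfl⟩
    fin_cases k
    · exact ⟨1, rfl⟩
    · exact ⟨6, rfl⟩
    · exact ⟨7, rfl⟩
  have hfr : Module.finrank K (Submodule.span K (Set.range ![C 1, C 6, C 7])) =
      Module.finrank K (Submodule.span K (Set.range C.row)) := by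
    rw [← Matrix.rank_eq_finrank_span_row, hr, finrank_span_eq_card hli]; rfl
  have heq := Submodule.eq_of_le_of_finrank_eq hle hfr
  have hex : ∀ i, ∃ g : Fin 3 → K, ∑ k, g k • ![C 1, C 6, C 7] k = C i := by
    intro i
    have : C i ∈ Submodule.span K (Set.range ![C 1, C 6, C 7]) := by
      rw [heq]; exact Submodule.subset_span ⟨i, rfl⟩
    exact (Submodule.mem_span_range_iff_exists_fun K).1 this
  choose g hg using hex
  refine ⟨fun i => g i 0, fun i => g i 1, fun i => g i 2, fun i j => ?_⟩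
  have := congrFun (hg i) j
  simp [Fin.sum_univ_three] at this
  exact this.symm

/-- The incidences force the golden ratio equation. -/
theorem golden {K : Type*} [Field K] (C : Matrix (Fin 10) (Fin 12) K)
    (hC : ∀ i j, C i j = 0 ↔ A i j = 0) (hr : C.rank = 3) : ∃ s : K, s * s = s + 1 := by
  obtain ⟨x, y, z, H⟩ := row_comb C hC hr
  -- zero coordinates of the lines
  have a0 : C 1 0 = 0 := (hC 1 0).2 (by decide +kernel)
  have c3 : C 7 3 = 0 := (hC 7 3).2 (by decide +kernel)
  have a4 : C 1 4 = 0 := (hC 1 4).2 (by decide +kernel)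
  have b4 : C 6 4 = 0 := (hC 6 4).2 (by decide +kernel)
  have a5 : C 1 5 = 0 := (hC 1 5).2 (by decide +kernel)
  have a6 : C 1 6 = 0 := (hC 1 6).2 (by decide +kernel)
  have c7 : C 7 7 = 0 := (hC 7 7).2 (by decide +kernel)
  have b8 : C 6 8 = 0 := (hC 6 8).2 (by decide +kernel)
  have c9 : C 7 9 = 0 := (hC 7 9).2 (by decide +kernel)
  have b11 : C 6 11 = 0 := (hC 6 11).2 (by decide +kernel)
  have c11 : C 7 11 = 0 := (hC 7 11).2 (by decide +kernel)
  have N : ∀ i j, A i j ≠ 0 → C i j ≠ 0 := fun i j h h0 => h ((hC i j).1 h0)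
  -- nonzero first and third coordinates of the points
  have hx : ∀ i, A i 11 ≠ 0 → x i ≠ 0 := by
    intro i hi h0
    have h1 := H i 11
    rw [h0, b11, c11] at h1
    exact N i 11 hi (by rw [h1]; ring)
  have hz : ∀ i, A i 4 ≠ 0 → z i ≠ 0 := by
    intro i hi h0
    have h1 := H i 4
    rw [h0, a4, b4] at h1
    exact N i 4 hi (by rw [h1]; ring)
  -- nonzero second coordinates
  have hy1 : ∀ i j, A i j = 0 → C 7 j = 0 → A i 11 ≠ 0 → A 1 j ≠ 0 → y i ≠ 0 := by
    intro i j hij hc hi h1j h0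
    have h1 := H i j
    rw [h0, hc, (hC i j).2 hij] at h1
    have h2 : x i * C 1 j = 0 := by rw [h1]; ring
    exact mul_ne_zero (hx i hi) (N 1 j h1j) h2
  have hy3 : ∀ i j, A i j = 0 → C 1 j = 0 → A i 4 ≠ 0 → A 7 j ≠ 0 → y i ≠ 0 := by
    intro i j hij hc hi h1j h0
    have h1 := H i j
    rw [h0, hc, (hC i j).2 hij] at h1
    have h2 : z i * C 7 j = 0 := by rw [h1]; ring
    exact mul_ne_zero (hz i hi) (N 7 j h1j) h2
  have y0 : y 0 ≠ 0 := hy1 0 3 (by decide +kernel) c3 (by decide +kernel) (by decide +kernel)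
  have y5 : y 5 ≠ 0 := hy1 5 3 (by decide +kernel) c3 (by decide +kernel) (by decide +kernel)
  have y2 : y 2 ≠ 0 := hy1 2 7 (by decide +kernel) c7 (by decide +kernel) (by decide +kernel)
  have y4 : y 4 ≠ 0 := hy1 4 7 (by decide +kernel) c7 (by decide +kernel) (by decide +kernel)
  have y3 : y 3 ≠ 0 := hy1 3 9 (by decide +kernel) c9 (by decide +kernel) (by decide +kernel)
  have y9 : y 9 ≠ 0 := hy1 9 9 (by decide +kernel) c9 (by decide +kernel) (by decide +kernel)
  have y8 : y 8 ≠ 0 := hy3 8 5 (by decide +kernel) a5 (by decide +kernel) (by decide +kernel)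
  have x0 := hx 0 (by decide +kernel)
  have x4 := hx 4 (by decide +kernel)
  have x5 := hx 5 (by decide +kernel)
  have z4 := hz 4 (by decide +kernel)
  have z8 := hz 8 (by decide +kernel)
  -- normalised coordinates
  obtain ⟨X, hX⟩ : ∃ X : Fin 10 → K, ∀ i, X i = x i / y i := ⟨fun i => x i / y i, fun i => rfl⟩
  obtain ⟨Z, hZ⟩ : ∃ Z : Fin 10 → K, ∀ i, Z i = z i / y i := ⟨fun i => z i / y i, fun i => rfl⟩
  have R : ∀ i j, y i ≠ 0 → A i j = 0 → X i * C 1 j + C 6 j + Z i * C 7 j = 0 := by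
    intro i j hi hij
    have h1 := H i j
    rw [(hC i j).2 hij] at h1
    rw [hX, hZ]
    field_simp
    linear_combination -h1
  have X8 : X 8 = 0 := by
    have h1 := R 8 11 y8 (by decide +kernel)
    rw [b11, c11] at h1
    have h2 : X 8 * C 1 11 = 0 := by linear_combination h1
    exact (mul_eq_zero.1 h2).resolve_right (N 1 11 (by decide +kernel))
  have Z2 : Z 2 = 0 := by
    have h1 := R 2 4 y2 (by decide +kernel)
    rw [a4, b4] at h1
    have h2 : Z 2 * C 7 4 = 0 := by linear_combination h1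
    exact (mul_eq_zero.1 h2).resolve_right (N 7 4 (by decide +kernel))
  have eqX : ∀ i k j, y i ≠ 0 → y k ≠ 0 → A i j = 0 → A k j = 0 → C 7 j = 0 → A 1 j ≠ 0 →
      X i = X k := by
    intro i k j hi hk hij hkj hc h1
    have h2 := R i j hi hij
    have h3 := R k j hk hkj
    rw [hc] at h2 h3
    apply mul_right_cancel₀ (N 1 j h1)
    linear_combination h2 - h3
  have eqZ : ∀ i k j, y i ≠ 0 → y k ≠ 0 → A i j = 0 → A k j = 0 → C 1 j = 0 → A 7 j ≠ 0 →
      Z i = Z k := by
    intro i k j hi hk hij hkj hc h1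
    have h2 := R i j hi hij
    have h3 := R k j hk hkj
    rw [hc] at h2 h3
    apply mul_right_cancel₀ (N 7 j h1)
    linear_combination h2 - h3
  have r7 : X 2 = X 4 := eqX 2 4 7 y2 y4 (by decide +kernel) (by decide +kernel) c7 (by decide +kernel)
  have r3 : X 0 = X 5 := eqX 0 5 3 y0 y5 (by decide +kernel) (by decide +kernel) c3 (by decide +kernel)
  have r9 : X 9 = X 3 := eqX 9 3 9 y9 y3 (by decide +kernel) (by decide +kernel) c9 (by decide +kernel)
  have r6 : Z 5 = Z 4 := eqZ 5 4 6 y5 y4 (by decide +kernel) (by decide +kernel) a6 (by decide +kernel)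
  have r0 : Z 9 = Z 0 := eqZ 9 0 0 y9 y0 (by decide +kernel) (by decide +kernel) a0 (by decide +kernel)
  have r5 : Z 3 = Z 8 := eqZ 3 8 5 y3 y8 (by decide +kernel) (by decide +kernel) a5 (by decide +kernel)
  have r8 : X 3 * Z 5 = X 5 * Z 3 := by
    have h2 := R 3 8 y3 (by decide +kernel)
    have h3 := R 5 8 y5 (by decide +kernel)
    rw [b8] at h2 h3
    apply mul_right_cancel₀ (N 1 8 (by decide +kernel))
    linear_combination Z 5 * h2 - Z 3 * h3
  have r1 : (X 0 - X 2) * Z 3 = (X 3 - X 2) * Z 0 := by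
    have h1 := R 0 1 y0 (by decide +kernel)
    have h2 := R 2 1 y2 (by decide +kernel)
    have h3 := R 3 1 y3 (by decide +kernel)
    rw [Z2] at h2
    apply mul_right_cancel₀ (N 1 1 (by decide +kernel))
    linear_combination Z 3 * (h1 - h2) - Z 0 * (h3 - h2)
  have r2 : X 0 * (Z 4 - Z 8) = X 4 * (Z 0 - Z 8) := by
    have h1 := R 0 2 y0 (by decide +kernel)
    have h2 := R 4 2 y4 (by decide +kernel)
    have h3 := R 8 2 y8 (by decide +kernel)
    rw [X8] at h3
    apply mul_right_cancel₀ (N 1 2 (by decide +kernel))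
    linear_combination (Z 4 - Z 8) * (h1 - h3) - (Z 0 - Z 8) * (h2 - h3)
  have r10 : X 5 * (Z 9 - Z 8) = X 9 * (Z 5 - Z 8) := by
    have h1 := R 5 10 y5 (by decide +kernel)
    have h2 := R 9 10 y9 (by decide +kernel)
    have h3 := R 8 10 y8 (by decide +kernel)
    rw [X8] at h3
    apply mul_right_cancel₀ (N 1 10 (by decide +kernel))
    linear_combination (Z 9 - Z 8) * (h1 - h3) - (Z 5 - Z 8) * (h2 - h3)
  have hne : Z 4 - Z 8 ≠ 0 := by
    intro h
    have h1 := R 4 6 y4 (by decide +kernel)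
    have h2 : X 8 * C 1 6 + C 6 6 + Z 8 * C 7 6 = 0 := by
      rw [a6] at h1 ⊢; linear_combination h1 - h * C 7 6
    apply N 8 6 (by decide +kernel)
    rw [H 8 6, a6]
    rw [a6, hZ 8] at h2
    field_simp at h2
    linear_combination h2
  have u0 : X 4 ≠ 0 := by rw [hX]; exact div_ne_zero x4 y4
  have p0 : X 5 ≠ 0 := by rw [hX]; exact div_ne_zero x5 y5
  have v0 : Z 4 ≠ 0 := by rw [hZ]; exact div_ne_zero z4 y4
  have e0 : Z 8 ≠ 0 := by rw [hZ]; exact div_ne_zero z8 y8
  rw [r3, r7, r5] at r1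
  rw [r3] at r2
  rw [r0, r9, r6] at r10
  rw [r6, r5] at r8
  generalize X 4 = u at *
  generalize X 5 = p at *
  generalize Z 4 = v at *
  generalize Z 8 = e at *
  generalize X 3 = f at *
  generalize Z 0 = q at *
  -- r8 : f * v = p * e, r10 : p * (q - e) = f * (v - e), r2 : p * (v - e) = u * (q - e)
  -- r1 : (p - u) * e = (f - u) * q
  have s1 : v * (q - e) = e * (v - e) := by
    apply mul_left_cancel₀ p0
    linear_combination v * r10 + (v - e) * r8
  have s2 : v * p = u * e := by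
    apply mul_left_cancel₀ hne
    linear_combination v * r2 + u * s1
  have s3 : v * v * f = u * e * e := by
    linear_combination v * r8 + e * s2
  have s4 : (e - v) * (v * v * e) = (e * e - v * v) * (v * q) := by
    apply mul_left_cancel₀ u0
    linear_combination v * v * v * r1 - v * v * e * s2 + v * q * s3
  have s5 : v * v * e = (e + v) * (v * q) := by
    apply mul_left_cancel₀ hne
    linear_combination -s4
  have s6 : v * v = (e + v) * (2 * v - e) := by
    apply mul_left_cancel₀ e0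
    linear_combination s5 + (e + v) * s1
  refine ⟨e / v, ?_⟩
  field_simp
  linear_combination s6

theorem no_rat (s : ℚ) : s * s ≠ s + 1 := by
  intro h
  have h5 : Irrational (√5) := by
    have := Nat.Prime.irrational_sqrt (p := 5) (by norm_num)
    exact_mod_cast this
  apply h5
  refine ⟨|2 * s - 1|, ?_⟩
  have h1 : ((|2 * s - 1| : ℚ) : ℝ) = |2 * (s : ℝ) - 1| := by push_cast; ring_nf
  rw [h1, ← Real.sqrt_sq_eq_abs]
  congr 1
  have h2 : (s : ℝ) * s = s + 1 := by exact_mod_cast h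
  linear_combination 4 * h2

/-- The negation of the preceding statement: For every sign pattern whose least rank among real matrices with that pattern is some r ≥ 3, and whose columns each have at most r zeros, some rational matrix with that pattern also has rank exactly r. -/
theorem result :
    ¬ (∀ (m n r : ℕ) (A : Matrix (Fin m) (Fin n) SignType),
      3 ≤ r →
      (∃ B : Matrix (Fin m) (Fin n) ℝ,
          (∀ i j, SignType.sign (B i j) = A i j) ∧ B.rank = r) →
      (∀ B : Matrix (Fin m) (Fin n) ℝ,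
          (∀ i j, SignType.sign (B i j) = A i j) → r ≤ B.rank) →
      (∀ j : Fin n, (Finset.univ.filter (fun i : Fin m => A i j = 0)).card ≤ r) →
      ∃ C : Matrix (Fin m) (Fin n) ℚ,
        (∀ i j, SignType.sign (C i j) = A i j) ∧ C.rank = r) := by
  intro h
  have hlow : ∀ B' : Matrix (Fin 10) (Fin 12) ℝ,
      (∀ i j, SignType.sign (B' i j) = A i j) → 3 ≤ B'.rank := by
    intro B' hB'
    apply three_le_rank
    intro i j
    rw [← hB' i j, sign_eq_zero_iff]
  have hB : B.rank = 3 := by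
    apply le_antisymm _ (hlow B B_sign)
    calc B.rank ≤ PR.rank := Matrix.rank_mul_le_left _ _
      _ ≤ 3 := by simpa using Matrix.rank_le_card_width PR
  obtain ⟨C, hC, hr⟩ := h 10 12 3 A le_rfl ⟨B, B_sign, hB⟩ hlow (by decide +kernel)
  obtain ⟨s, hs⟩ := golden C (fun i j => by rw [← hC i j, sign_eq_zero_iff]) hr
  exact no_rat s hs

end Pool.Agent.S07344
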