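import Pool.Statements.S07727
import Pool.Agent.Lib_MP_264ef2_co.Final

set_option autoImplicit false
open Classical Filter
open Pool Pool.MP_264ef2_co

namespace Pool.Agent.S07727

open Pool.Agent.GR

/-- from small bad probability to convergence -/
theorem tendsto_of_small (c : ℝ) (hc : 0 < c)
    (Q : (n : ℕ) → SimpleGraph (Fin n) → Prop)
    (h : ∀ η > 0, ∃ N : ℕ, ∀ n : ℕ, N ≤ n →
      Pr (c / n) (fun A : Finset (Edg n) => ¬ Q n (gr A)) ≤ η) :
    Tendsto (fun n : ℕ => Pr (c / (n : ℝ)) (fun A : Finset (Edg n) => Q n (gr A)))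
      atTop (nhds 1) := by
  rw [Metric.tendsto_atTop]
  intro ε hε
  obtain ⟨N1, h1⟩ := h (ε / 2) (by positivity)
  obtain ⟨N2, h2⟩ := exists_nat_gt_of c
  refine ⟨N1 + N2, fun n hn => ?_⟩
  obtain ⟨p0, p1⟩ := p_bounds hc (h2 n (by omega))
  have a1 := h1 n (by omega)
  have a2 := Pr_not (c / n) (fun A : Finset (Edg n) => Q n (gr A))
  have a3 := Pr_le_one p0 p1 (fun A : Finset (Edg n) => Q n (gr A))
  rw [Real.dist_eq, abs_lt]
  constructor <;> linarith

theorem small_of_tendsto_zero (c : ℝ)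
    (Q : (n : ℕ) → SimpleGraph (Fin n) → Prop)
    (h : Tendsto (fun n : ℕ => Pr (c / (n : ℝ)) (fun A : Finset (Edg n) => Q n (gr A)))
      atTop (nhds 0)) :
    ∀ η > 0, ∃ N : ℕ, ∀ n : ℕ, N ≤ n →
      Pr (c / n) (fun A : Finset (Edg n) => Q n (gr A)) ≤ η := by
  intro η hη
  rw [Metric.tendsto_atTop] at h
  obtain ⟨N, hN⟩ := h η hη
  refine ⟨N, fun n hn => ?_⟩
  have := hN n hn
  rw [Real.dist_eq, abs_lt] at this
  linarith

theorem small_of_tendsto_one (c : ℝ)
    (Q : (n : ℕ) → SimpleGraph (Fin n) → Prop)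
    (h : Tendsto (fun n : ℕ => Pr (c / (n : ℝ)) (fun A : Finset (Edg n) => Q n (gr A)))
      atTop (nhds 1)) :
    ∀ η > 0, ∃ N : ℕ, ∀ n : ℕ, N ≤ n →
      Pr (c / n) (fun A : Finset (Edg n) => ¬ Q n (gr A)) ≤ η := by
  intro η hη
  rw [Metric.tendsto_atTop] at h
  obtain ⟨N, hN⟩ := h η hη
  refine ⟨N, fun n hn => ?_⟩
  have := hN n hn
  rw [Real.dist_eq, abs_lt] at this
  have a2 := Pr_not (c / n) (fun A : Finset (Edg n) => Q n (gr A))
  linarith

/-- For d≥2 and c_d the sharp d-orientability threshold of G(n,c/n): below c_d, a.a.s. every generic d-rigid component has at most 3 vertices. Above c_d, a.a.s. the ((d+1)+d)-core is a rigid component of linear size and all other rigid components are o(n). -/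
theorem result :
    ∀ (d : ℕ), 2 ≤ d →
    ∀ (P : (n : ℕ) → ℝ → (SimpleGraph (Fin n) → Prop) → ℝ),
    (∀ n p Q, P n p Q = ∑ G : SimpleGraph (Fin n),
        if Q G then p ^ G.edgeFinset.card * (1 - p) ^ (n.choose 2 - G.edgeFinset.card) else 0) →
    ∀ (rig : (n : ℕ) → SimpleGraph (Fin n) → Finset (Fin n) → Prop),
    (∀ n G S, rig n G S ↔
        ((S.card ≤ d ∧ ∀ u ∈ S, ∀ v ∈ S, u ≠ v → G.Adj u v) ∨
         (d + 1 ≤ S.card ∧ ∃ q : Fin n → Fin d → ℝ,
            d * S.card - d * (d + 1) / 2 ≤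
              (Matrix.of (fun (e : Fin n × Fin n) (x : Fin n × Fin d) =>
                if e.1 ∈ S ∧ e.2 ∈ S ∧ G.Adj e.1 e.2 then
                  (if x.1 = e.1 then q e.1 x.2 - q e.2 x.2
                   else if x.1 = e.2 then q e.2 x.2 - q e.1 x.2 else 0)
                else 0)).rank))) →
    ∀ (core : (n : ℕ) → SimpleGraph (Fin n) → Fin n → Prop),
    (∀ n G v, core n G v ↔ ∀ T : Finset (Fin n),
        (∀ u : Fin n, (∃ S : Finset (Fin n), u ∈ S ∧ ∀ w ∈ S, d + 1 ≤ (S.filter (G.Adj w)).card) → u ∈ T) →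
        (∀ w : Fin n, d ≤ (T.filter (G.Adj w)).card → w ∈ T) → v ∈ T) →
    ∀ cd : ℝ, 0 < cd →
    (∀ c : ℝ, 0 < c → c < cd →
        Tendsto (fun n : ℕ => P n (c / (n : ℝ)) (fun G => ∀ S : Finset (Fin n),
          ((S ×ˢ S).filter (fun e => G.Adj e.1 e.2)).card ≤ 2 * d * S.card)) atTop (nhds 1)) →
    (∀ c : ℝ, cd < c →
        Tendsto (fun n : ℕ => P n (c / (n : ℝ)) (fun G => ∀ S : Finset (Fin n),
          ((S ×ˢ S).filter (fun e => G.Adj e.1 e.2)).card ≤ 2 * d * S.card)) atTop (nhds 0)) →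
    (∀ c : ℝ, 0 < c → c < cd →
        Tendsto (fun n : ℕ => P n (c / (n : ℝ)) (fun G => ∀ S : Finset (Fin n),
          (rig n G S ∧ ∀ T : Finset (Fin n), S ⊆ T → rig n G T → T = S) → S.card ≤ 3))
          atTop (nhds 1)) ∧
    (∀ c : ℝ, cd < c →
        Tendsto (fun n : ℕ => P n (c / (n : ℝ)) (fun G =>
          rig n G (Finset.univ.filter (core n G)) ∧
          ∀ T : Finset (Fin n), Finset.univ.filter (core n G) ⊆ T → rig n G T →
            T = Finset.univ.filter (core n G))) atTop (nhds 1) ∧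
        (∃ ε : ℝ, 0 < ε ∧
          Tendsto (fun n : ℕ => P n (c / (n : ℝ)) (fun G =>
            ε * (n : ℝ) ≤ ((Finset.univ.filter (core n G)).card : ℝ))) atTop (nhds 1)) ∧
        (∀ δ : ℝ, 0 < δ →
          Tendsto (fun n : ℕ => P n (c / (n : ℝ)) (fun G => ∀ S : Finset (Fin n),
            (rig n G S ∧ ∀ T : Finset (Fin n), S ⊆ T → rig n G T → T = S) →
            S ≠ Finset.univ.filter (core n G) → (S.card : ℝ) < δ * (n : ℝ))) atTop (nhds 1))) := by
  intro d hd P hP rig hrig core hcore cd hcd hsub hsup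
  -- translate the vocabulary
  have hP' : ∀ n p Q, P n p Q = Pr p (fun A : Finset (Edg n) => Q (gr A)) := by
    intro n p Q
    rw [hP, ← Pr_eq]
  have hrig' : ∀ n G S, rig n G S ↔ rigF d n G S := fun n G S => hrig n G S
  have hcore' : ∀ n (G : SimpleGraph (Fin n)), Finset.univ.filter (core n G) = Hat d G := by
    intro n G
    ext v
    simp only [Finset.mem_filter, Finset.mem_univ, true_and, Hat]
    exact hcore n G v
  simp only [hP', hrig', hcore'] at hsub hsup ⊢
  refine ⟨fun c hc hccd => ?_, fun c hccd => ?_⟩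
  · -- subcritical
    refine tendsto_of_small c hc (fun n G => ∀ S : Finset (Fin n),
      (rigF d n G S ∧ ∀ T : Finset (Fin n), S ⊆ T → rigF d n G T → T = S) → S.card ≤ 3) ?_
    have h1 := small_of_tendsto_one ((c + cd) / 2) (fun n G => ∀ S : Finset (Fin n),
      ((S ×ˢ S).filter (fun e => G.Adj e.1 e.2)).card ≤ 2 * d * S.card)
      (hsub ((c + cd) / 2) (by linarith) (by linarith))
    exact sub d hd c ((c + cd) / 2) hc (by linarith) h1
  · have hcpos : 0 < c := hcd.trans hccd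
    have h1 := small_of_tendsto_zero ((c + cd) / 2) (fun n G => ∀ S : Finset (Fin n),
      ((S ×ˢ S).filter (fun e => G.Adj e.1 e.2)).card ≤ 2 * d * S.card)
      (hsup ((c + cd) / 2) (by linarith))
    obtain ⟨β, hβ, hb⟩ := super d hd ((c + cd) / 2) c (by linarith) (by linarith) h1
    have hweak : ∀ (Q : (n : ℕ) → SimpleGraph (Fin n) → Prop) (N0 : ℕ),
        (∀ (n : ℕ), N0 ≤ n → ∀ (G : SimpleGraph (Fin n)),
          (((rigF d n G (Hat d G) ∧ ∀ T : Finset (Fin n), Hat d G ⊆ T →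
            rigF d n G T → T = Hat d G) ∧
          (∀ S : Finset (Fin n), (rigF d n G S ∧ ∀ T : Finset (Fin n), S ⊆ T →
            rigF d n G T → T = S) → S ≠ Hat d G → S.card < 5 * d)) ∧
          β * n ≤ ((Hat d G).card : ℝ)) → Q n G) →
        Tendsto (fun n : ℕ => Pr (c / (n : ℝ)) (fun A : Finset (Edg n) => Q n (gr A)))
          atTop (nhds 1) := by
      intro Q N0 hQ
      refine tendsto_of_small c hcpos Q (fun η hη => ?_)
      obtain ⟨N1, h2⟩ := hb η hη
      obtain ⟨N2, h3⟩ := exists_nat_gt_of c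
      refine ⟨N0 + N1 + N2, fun n hn => ?_⟩
      obtain ⟨p0, p1⟩ := p_bounds hcpos (h3 n (by omega))
      refine le_trans (Pr_mono p0 p1 (fun A hA hgood => ?_)) (h2 n (by omega))
      exact hA (hQ n (by omega) (gr A) hgood)
    refine ⟨?_, ⟨β, hβ, ?_⟩, fun δ hδ => ?_⟩
    · exact hweak (fun n G => rigF d n G (Hat d G) ∧ ∀ T : Finset (Fin n), Hat d G ⊆ T →
        rigF d n G T → T = Hat d G) 0 (fun n _ G h => h.1.1)
    · exact hweak (fun n G => β * (n : ℝ) ≤ ((Hat d G).card : ℝ)) 0 (fun n _ G h => h.2)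
    · obtain ⟨N0, h4⟩ := exists_nat_gt_of ((5 * d + 1) / δ)
      refine hweak (fun n G => ∀ S : Finset (Fin n),
            (rigF d n G S ∧ ∀ T : Finset (Fin n), S ⊆ T → rigF d n G T → T = S) →
            S ≠ Hat d G → (S.card : ℝ) < δ * (n : ℝ)) N0 (fun n hn G h S hS hne => ?_)
      have h5 := h.1.2 S hS hne
      have h6 := (h4 n hn).1
      rw [div_le_iff₀ hδ] at h6
      have h7 : (S.card : ℝ) < 5 * d := by exact_mod_cast h5
      linarith

end Pool.Agent.S07727
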