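import Pool.Statements.S09060

set_option autoImplicit false
open Pool Pool.MP_5f1df6_co

namespace Pool.Agent.S09060

/-- the standard additive character of `ZMod 5` -/
noncomputable abbrev e : AddChar (ZMod 5) ℂ := ZMod.stdAddChar (N := 5)

lemma e_apply (v : ZMod 5) :
    Complex.exp (2 * (Real.pi : ℂ) * Complex.I * ((v.val : ℕ) : ℂ) / ((5 : ℕ) : ℂ)) = e v := by
  rw [ZMod.stdAddChar_apply, ZMod.toCircle_apply]

/-- the triangle `i + j ≤ 3` in the plane over `ZMod 5` -/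
def T : Finset (ZMod 5 × ZMod 5) :=
  {(0,0),(0,1),(0,2),(0,3),(1,0),(1,1),(1,2),(2,0),(2,1),(3,0)}

/-- number of points of `T` on a line -/
def cnt (a b w : ZMod 5) : ℕ := (T.filter (fun x => a * x.1 + b * x.2 + w = 0)).card

def g (a b : ZMod 5) : ZMod 5 := -a^4 + a^3*b + a^2*b^2 + a*b^3 - b^4
def c (a b : ZMod 5) : ZMod 5 := (a+b)*(a^2+b^2)

/-- `T` meets the lines of each parallel class in numbers forming an arithmetic progression mod 5 -/
lemma countT : ∀ a b w : ZMod 5, ((cnt a b w : ℕ) : ZMod 5) = g a b + c a b * w := by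
  decide

/-- the nonzero scalars -/
def U : Finset (ZMod 5) := {1,2,3,4}

/-- representatives of the thirty lines -/
def P : Fin 3 → ZMod 5 × ZMod 5 → (Fin 4 → ZMod 5)
  | 0, x => ![x.1, 2*x.1+x.2, 1, 0]
  | 1, x => ![x.1+2*x.2, x.2, 0, 1]
  | 2, x => ![x.1, x.2, 1, 1]

def p1 (a b : ZMod 5) : ZMod 5 := c (a+2*b) b + c a b
def p2 (a b : ZMod 5) : ZMod 5 := c a (2*a+b) + c a b
def gg (a b : ZMod 5) : ZMod 5 := g (a+2*b) b + g a (2*a+b) + g a b

lemma bij : ∀ x z : ZMod 5, ∃ a b : ZMod 5, p1 a b = x ∧ p2 a b = z ∧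
    ∀ a' b' : ZMod 5, p1 a' b' = x → p2 a' b' = z → a' = a ∧ b' = b := by
  decide

def D : Finset (ZMod 5 × Fin 3 × (ZMod 5 × ZMod 5)) := U ×ˢ (Finset.univ ×ˢ T)

def phi (z : ZMod 5 × Fin 3 × (ZMod 5 × ZMod 5)) : Fin 4 → ZMod 5 := z.1 • P z.2.1 z.2.2

def e0 : Fin 4 → ZMod 5 := ![1,0,0,0]

/-- the connection set: thirty punctured lines and `± e0` -/
def C : Finset (Fin 4 → ZMod 5) := insert e0 (insert (-e0) (D.image phi))

lemma U_iff (s : ZMod 5) : s ∈ U ↔ s ≠ 0 := by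
  revert s; decide

lemma U_neg (s : ZMod 5) (h : s ∈ U) : -s ∈ U := by
  rw [U_iff] at *; simpa using h

lemma P23 : ∀ (i i' : Fin 3) (s s' : ZMod 5), s ≠ 0 → s' ≠ 0 → 
    s * (if i = 1 then 0 else 1) = s' * (if i' = 1 then 0 else 1) →
    s * (if i = 0 then 0 else 1) = s' * (if i' = 0 then 0 else 1) → i = i' ∧ s = s' := by
  decide

lemma P2 (i : Fin 3) (x : ZMod 5 × ZMod 5) : P i x 2 = if i = 1 then 0 else 1 := by
  fin_cases i <;> rfl
lemma P3 (i : Fin 3) (x : ZMod 5 × ZMod 5) : P i x 3 = if i = 0 then 0 else 1 := by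
  fin_cases i <;> rfl

instance : Fact (Nat.Prime 5) := ⟨by norm_num⟩

lemma phi_inj : Set.InjOn phi (D : Set (ZMod 5 × Fin 3 × (ZMod 5 × ZMod 5))) := by
  rintro ⟨s, i, x⟩ h ⟨s', i', x'⟩ h' heq
  simp only [D, Finset.coe_product, Set.mem_prod, Finset.mem_coe, U_iff] at h h'
  have e2 := congrFun heq 2
  have e3 := congrFun heq 3
  simp only [phi, Pi.smul_apply, smul_eq_mul, P2, P3] at e2 e3
  obtain ⟨hi, hs⟩ := P23 i i' s s' h.1 h'.1 e2 e3
  subst hi hs
  have e0 := congrFun heq 0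
  have e1 := congrFun heq 1
  simp only [phi, Pi.smul_apply, smul_eq_mul] at e0 e1
  have e0' := mul_left_cancel₀ h.1 e0
  have e1' := mul_left_cancel₀ h.1 e1
  obtain ⟨x1, x2⟩ := x
  obtain ⟨y1, y2⟩ := x'
  have : x1 = y1 ∧ x2 = y2 := by
    fin_cases i
    · have a0 : x1 = y1 := e0'
      have a1 : 2*x1+x2 = 2*y1+y2 := e1'
      subst a0
      exact ⟨rfl, by simpa using a1⟩
    · have a0 : x1+2*x2 = y1+2*y2 := e0'
      have a1 : x2 = y2 := e1'
      subst a1
      exact ⟨by simpa using a0, rfl⟩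
    · exact ⟨e0', e1'⟩
  rw [this.1, this.2]

lemma e0_notMem : e0 ∉ D.image phi := by
  intro h
  obtain ⟨⟨s, i, x⟩, hz, he⟩ := Finset.mem_image.1 h
  simp only [D, Finset.mem_product, U_iff] at hz
  have e2 := congrFun he 2
  have e3 := congrFun he 3
  simp only [phi, Pi.smul_apply, smul_eq_mul, P2, P3] at e2 e3
  have a2 : e0 2 = 0 := rfl
  have a3 : e0 3 = 0 := rfl
  rw [a2] at e2
  rw [a3] at e3
  fin_cases i <;> simp_all

lemma D_neg {v : Fin 4 → ZMod 5} (h : v ∈ D.image phi) : -v ∈ D.image phi := by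
  obtain ⟨⟨s, i, x⟩, hz, he⟩ := Finset.mem_image.1 h
  refine Finset.mem_image.2 ⟨⟨-s, i, x⟩, ?_, ?_⟩
  · simp only [D, Finset.mem_product] at hz ⊢
    exact ⟨U_neg _ hz.1, hz.2⟩
  · rw [← he]; simp [phi]

lemma ne0_notMem : -e0 ∉ D.image phi := by
  intro h
  exact e0_notMem (by simpa using D_neg h)

lemma e0_ne : e0 ≠ -e0 := by
  intro h
  have := congrFun h 0
  revert this
  decide

lemma zero_notMem : (0 : Fin 4 → ZMod 5) ∉ C := by
  intro h
  simp only [C, Finset.mem_insert] at h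
  rcases h with h | h | h
  · have := congrFun h 0
    revert this; decide
  · have := congrFun h 0
    revert this; decide
  · obtain ⟨⟨s, i, x⟩, hz, he⟩ := Finset.mem_image.1 h
    simp only [D, Finset.mem_product, U_iff] at hz
    have e2 := congrFun he 2
    have e3 := congrFun he 3
    simp only [phi, Pi.smul_apply, smul_eq_mul, P2, P3, Pi.zero_apply] at e2 e3
    fin_cases i <;> simp_all

lemma C_neg : ∀ v ∈ C, -v ∈ C := by
  intro v h
  simp only [C, Finset.mem_insert] at h ⊢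
  rcases h with h | h | h
  · right; left; rw [h]
  · left; rw [h]; simp
  · right; right; exact D_neg h

/-- the sum of a function over the connection set -/
lemma sum_C (F : (Fin 4 → ZMod 5) → ℂ) :
    ∑ v ∈ C, F v = F e0 + F (-e0) + ∑ i : Fin 3, ∑ x ∈ T, ∑ s ∈ U, F (s • P i x) := by
  rw [C, Finset.sum_insert, Finset.sum_insert ne0_notMem, Finset.sum_image phi_inj, D,
    Finset.sum_product, Finset.sum_comm, Finset.sum_product, add_assoc]
  · rfl
  · simp only [Finset.mem_insert, not_or]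
    exact ⟨e0_ne, e0_notMem⟩

lemma sum_U (v : ZMod 5) : ∑ s ∈ U, e (s * v) = 5 * (if v = 0 then 1 else 0) - 1 := by
  have h := AddChar.sum_mulShift v (ZMod.isPrimitive_stdAddChar 5)
  have hu : (Finset.univ : Finset (ZMod 5)) = insert 0 U := by decide
  have h0 : (0 : ZMod 5) ∉ U := by decide
  rw [hu, Finset.sum_insert h0, zero_mul, AddChar.map_zero_eq_one] at h
  have : ∑ s ∈ U, e (s * v) = ((if v = 0 then Fintype.card (ZMod 5) else 0 : ℕ) : ℂ) - 1 := by
    rw [← h]; ring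
  rw [this, ZMod.card]
  split_ifs <;> norm_num

/-- inner product -/
def ip (v y : Fin 4 → ZMod 5) : ZMod 5 := ∑ j, v j * y j

lemma sum_T (a b w : ZMod 5) : ∑ x ∈ T, ∑ s ∈ U, e (s * (a * x.1 + b * x.2 + w)) =
    5 * (cnt a b w : ℂ) - 10 := by
  simp only [sum_U]
  rw [Finset.sum_sub_distrib, ← Finset.mul_sum, Finset.sum_ite, Finset.sum_const_zero, add_zero,
    Finset.sum_const, Finset.sum_const]
  have : T.card = 10 := by decide
  rw [this]
  simp [cnt]

/-- the number of the thirty lines orthogonal to `y` -/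
def N (y : Fin 4 → ZMod 5) : ℕ :=
  cnt (y 0 + 2 * y 1) (y 1) (y 2) + cnt (y 0) (2 * y 0 + y 1) (y 3) + cnt (y 0) (y 1) (y 2 + y 3)

lemma N_cast (y : Fin 4 → ZMod 5) :
    ((N y : ℕ) : ZMod 5) = gg (y 0) (y 1) + p1 (y 0) (y 1) * y 2 + p2 (y 0) (y 1) * y 3 := by
  simp only [N, Nat.cast_add, countT, gg, p1, p2]
  ring

lemma lam_eq (y : Fin 4 → ZMod 5) :
    ∑ v ∈ C, e (∑ j, v j * y j) = e (y 0) + e (-(y 0)) + 5 * (N y : ℂ) - 30 := by
  rw [sum_C, Fin.sum_univ_three]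
  have h0 : ∀ x : ZMod 5 × ZMod 5, ∀ s : ZMod 5, ∑ j, (s • P 0 x) j * y j =
      s * ((y 0 + 2 * y 1) * x.1 + (y 1) * x.2 + y 2) := by
    intro x s
    simp only [Fin.sum_univ_four, P, Pi.smul_apply, smul_eq_mul]
    simp
    ring
  have h1 : ∀ x : ZMod 5 × ZMod 5, ∀ s : ZMod 5, ∑ j, (s • P 1 x) j * y j =
      s * ((y 0) * x.1 + (2 * y 0 + y 1) * x.2 + y 3) := by
    intro x s
    simp only [Fin.sum_univ_four, P, Pi.smul_apply, smul_eq_mul]
    simp
    ring
  have h2 : ∀ x : ZMod 5 × ZMod 5, ∀ s : ZMod 5, ∑ j, (s • P 2 x) j * y j =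
      s * ((y 0) * x.1 + (y 1) * x.2 + (y 2 + y 3)) := by
    intro x s
    simp only [Fin.sum_univ_four, P, Pi.smul_apply, smul_eq_mul]
    simp
    ring
  simp only [h0, h1, h2, sum_T]
  have h3 : ∑ j, e0 j * y j = y 0 := by
    simp [Fin.sum_univ_four, e0]
  have h4 : ∑ j, (-e0) j * y j = -(y 0) := by
    simp [Fin.sum_univ_four, e0]
  rw [h3, h4]
  simp only [N, Nat.cast_add]
  ring

/-- the time of uniform mixing -/
noncomputable def tt : ℝ := 2 * Real.pi / 25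

/-- the phase which depends on the first two coordinates only -/
noncomputable def GG (a : ZMod 5) : ℂ :=
  Complex.exp (-(Complex.I * (tt : ℂ) * (e a + e (-a)))) * Complex.exp (30 * Complex.I * (tt : ℂ))

lemma norm_GG (a : ZMod 5) : ‖GG a‖ = 1 := by
  have h : e (-a) = (starRingEnd ℂ) (e a) := AddChar.map_neg_eq_conj e a
  rw [GG, norm_mul, Complex.norm_exp, Complex.norm_exp, h, Complex.add_conj]
  simp

lemma norm_e (a : ZMod 5) : ‖e a‖ = 1 := by
  rw [← e_apply, Complex.norm_exp]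
  have : (2 * (Real.pi : ℂ) * Complex.I * ((a.val : ℕ) : ℂ) / ((5 : ℕ) : ℂ)) =
      ((2 * Real.pi * a.val / 5 : ℝ) : ℂ) * Complex.I := by
    push_cast; ring
  rw [this]
  simp

lemma exp_N (n : ℕ) : Complex.exp (-(Complex.I * (tt : ℂ) * (5 * (n : ℂ)))) =
    e (-((n : ℕ) : ZMod 5)) := by
  have h := ZMod.stdAddChar_coe (N := 5) (-(n : ℤ))
  push_cast at h
  rw [h, tt]
  congr 1
  push_cast
  ring

lemma F_eq (y : Fin 4 → ZMod 5) :
    Complex.exp (-(Complex.I * (tt : ℂ) * ∑ v ∈ C, e (∑ j, v j * y j))) =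
      GG (y 0) * e (-(gg (y 0) (y 1) + p1 (y 0) (y 1) * y 2 + p2 (y 0) (y 1) * y 3)) := by
  rw [lam_eq, ← N_cast, ← exp_N, GG, ← Complex.exp_add, ← Complex.exp_add]
  congr 1
  ring

/-- splitting of the coordinates -/
def eqv : (Fin 4 → ZMod 5) ≃ (ZMod 5 × ZMod 5) × (ZMod 5 × ZMod 5) where
  toFun y := ((y 0, y 1), (y 2, y 3))
  invFun p := ![p.1.1, p.1.2, p.2.1, p.2.2]
  left_inv y := by
    funext i
    fin_cases i <;> rfl
  right_inv p := rfl

lemma sum_split (F : (Fin 4 → ZMod 5) → ℂ) :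
    ∑ y, F y = ∑ a : ZMod 5, ∑ b : ZMod 5, ∑ v : ZMod 5, ∑ w : ZMod 5, F ![a, b, v, w] := by
  rw [← Equiv.sum_comp eqv.symm F, Fintype.sum_prod_type, Fintype.sum_prod_type]
  refine Finset.sum_congr rfl fun a _ => Finset.sum_congr rfl fun b _ => ?_
  rw [Fintype.sum_prod_type]
  rfl

lemma sum_all (v : ZMod 5) : ∑ s : ZMod 5, e (v * s) = if v = 0 then 5 else 0 := by
  have h := AddChar.sum_mulShift v (ZMod.isPrimitive_stdAddChar 5)
  simp only [mul_comm v]
  rw [h, ZMod.card]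
  split_ifs <;> norm_num

lemma norm_S (x : Fin 4 → ZMod 5) :
    ‖∑ y : Fin 4 → ZMod 5, Complex.exp (-(Complex.I * (tt : ℂ) * ∑ v ∈ C, e (∑ j, v j * y j))) *
      e (∑ j, x j * y j)‖ = 25 := by
  rw [sum_split]
  obtain ⟨a0, b0, h1, h2, h3⟩ := bij (x 2) (x 3)
  have key : ∀ a b : ZMod 5, ∑ v : ZMod 5, ∑ w : ZMod 5,
      Complex.exp (-(Complex.I * (tt : ℂ) * ∑ u ∈ C, e (∑ j, u j * (![a, b, v, w] : Fin 4 → ZMod 5) j))) *
      e (∑ j, x j * (![a, b, v, w] : Fin 4 → ZMod 5) j) =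
      GG a * e (x 0 * a + x 1 * b - gg a b) *
        ((if x 2 - p1 a b = 0 then 5 else 0) * (if x 3 - p2 a b = 0 then 5 else 0)) := by
    intro a b
    rw [← sum_all, ← sum_all, Finset.sum_mul_sum, Finset.mul_sum]
    refine Finset.sum_congr rfl fun v _ => ?_
    rw [Finset.mul_sum]
    refine Finset.sum_congr rfl fun w _ => ?_
    rw [F_eq, ← AddChar.map_add_eq_mul, mul_assoc, mul_assoc, ← AddChar.map_add_eq_mul,
      ← AddChar.map_add_eq_mul]
    congr 2
    simp [Fin.sum_univ_four]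
    ring
  simp only [key]
  rw [Finset.sum_eq_single a0, Finset.sum_eq_single b0]
  · rw [h1, h2, sub_self, sub_self, if_pos rfl, norm_mul, norm_mul, norm_GG, norm_e]
    norm_num
  · intro b _ hb
    by_cases hc1 : x 2 - p1 a0 b = 0
    · by_cases hc2 : x 3 - p2 a0 b = 0
      · exact absurd (h3 a0 b (sub_eq_zero.1 hc1).symm (sub_eq_zero.1 hc2).symm).2 hb
      · simp [hc2]
    · simp [hc1]
  · simp
  · intro a _ ha
    refine Finset.sum_eq_zero fun b _ => ?_
    by_cases hc1 : x 2 - p1 a b = 0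
    · by_cases hc2 : x 3 - p2 a b = 0
      · exact absurd (h3 a b (sub_eq_zero.1 hc1).symm (sub_eq_zero.1 hc2).symm).1 ha
      · simp [hc2]
    · simp [hc1]
  · simp

lemma not_int (k : ℤ) : ∑ v ∈ C, e (∑ j, v j * e0 j) ≠ (k : ℂ) := by
  rw [lam_eq]
  intro h
  have h1 : e0 0 = 1 := rfl
  rw [h1] at h
  have h2 : e (1 : ZMod 5) + e (-1 : ZMod 5) = ((2 * Real.cos (2 * Real.pi / 5) : ℝ) : ℂ) := by
    have h3 := ZMod.stdAddChar_coe (N := 5) (1 : ℤ)
    have h4 := ZMod.stdAddChar_coe (N := 5) (-1 : ℤ)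
    push_cast at h3 h4
    rw [h3, h4]
    push_cast
    rw [Complex.two_cos]
    congr 1
    · congr 1; ring
    · congr 1; ring
  rw [h2] at h
  have h5 : ((2 * Real.cos (2 * Real.pi / 5) : ℝ) : ℂ) = ((k + 30 - 5 * (N e0 : ℤ) : ℤ) : ℂ) := by
    push_cast at h ⊢
    linear_combination h
  have h6 : (2 * Real.cos (2 * Real.pi / 5) : ℝ) = ((k + 30 - 5 * (N e0 : ℤ) : ℤ) : ℝ) := by
    exact_mod_cast h5
  have h7 : 0 < Real.cos (2 * Real.pi / 5) := by
    apply Real.cos_pos_of_mem_Ioo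
    constructor <;> linarith [Real.pi_pos]
  have h8 : Real.cos (2 * Real.pi / 5) < 1 / 2 := by
    rw [← Real.cos_pi_div_three]
    apply Real.cos_lt_cos_of_nonneg_of_le_pi <;> linarith [Real.pi_pos]
  have h9 : (0 : ℝ) < ((k + 30 - 5 * (N e0 : ℤ) : ℤ) : ℝ) := by rw [← h6]; linarith
  have h10 : ((k + 30 - 5 * (N e0 : ℤ) : ℤ) : ℝ) < 1 := by rw [← h6]; linarith
  have h11 : (0 : ℤ) < k + 30 - 5 * (N e0 : ℤ) := by exact_mod_cast h9
  have h12 : k + 30 - 5 * (N e0 : ℤ) < 1 := by exact_mod_cast h10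
  omega

/-- The negation of the preceding statement: For any Cayley graph on (Z/qZ)^d with symmetric connection set avoiding 0, if at some time all entries of exp(-itA) (written via characters) have equal modulus, then every eigenvalue (sum of a character over the connection set) is an integer. -/
theorem result :
    ¬ (∀ (q d : ℕ) [NeZero q] (C : Finset (Fin d → ZMod q)),
      (0 : Fin d → ZMod q) ∉ C →
      (∀ c ∈ C, -c ∈ C) →
      (∃ t : ℝ, ∀ a b : Fin d → ZMod q,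
        ‖∑ y : Fin d → ZMod q,
            Complex.exp (-(Complex.I * (t : ℂ) *
              ∑ c ∈ C, Complex.exp (2 * (Real.pi : ℂ) * Complex.I *
                (((∑ j, c j * y j : ZMod q).val : ℕ) : ℂ) / (q : ℂ)))) *
            Complex.exp (2 * (Real.pi : ℂ) * Complex.I *
              (((∑ j, (a - b) j * y j : ZMod q).val : ℕ) : ℂ) / (q : ℂ))‖ =
        ‖∑ y : Fin d → ZMod q,
            Complex.exp (-(Complex.I * (t : ℂ) *
              ∑ c ∈ C, Complex.exp (2 * (Real.pi : ℂ) * Complex.I *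
                (((∑ j, c j * y j : ZMod q).val : ℕ) : ℂ) / (q : ℂ))))‖) →
      ∀ y : Fin d → ZMod q, ∃ k : ℤ,
        ∑ c ∈ C, Complex.exp (2 * (Real.pi : ℂ) * Complex.I *
          (((∑ j, c j * y j : ZMod q).val : ℕ) : ℂ) / (q : ℂ)) = (k : ℂ)) := by
  intro h
  have h1 := h 5 4 C zero_notMem C_neg
  have h2 : ∃ t : ℝ, ∀ a b : Fin 4 → ZMod 5,
        ‖∑ y : Fin 4 → ZMod 5,
            Complex.exp (-(Complex.I * (t : ℂ) *
              ∑ c ∈ C, Complex.exp (2 * (Real.pi : ℂ) * Complex.I *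
                (((∑ j, c j * y j : ZMod 5).val : ℕ) : ℂ) / ((5 : ℕ) : ℂ)))) *
            Complex.exp (2 * (Real.pi : ℂ) * Complex.I *
              (((∑ j, (a - b) j * y j : ZMod 5).val : ℕ) : ℂ) / ((5 : ℕ) : ℂ))‖ =
        ‖∑ y : Fin 4 → ZMod 5,
            Complex.exp (-(Complex.I * (t : ℂ) *
              ∑ c ∈ C, Complex.exp (2 * (Real.pi : ℂ) * Complex.I *
                (((∑ j, c j * y j : ZMod 5).val : ℕ) : ℂ) / ((5 : ℕ) : ℂ))))‖ := by
    refine ⟨tt, fun a b => ?_⟩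
    simp only [e_apply]
    rw [norm_S (a - b)]
    have h0 := norm_S 0
    simp only [Pi.zero_apply, zero_mul, Finset.sum_const_zero, AddChar.map_zero_eq_one,
      mul_one] at h0
    exact h0.symm
  obtain ⟨k, hk⟩ := h1 h2 e0
  simp only [e_apply] at hk
  exact not_int k hk

end Pool.Agent.S09060
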