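import Pool.Statements.S09397
import Pool.Agent.Lib_MP_6f255c_dk.FinalGlue

set_option autoImplicit false
open Pool Pool.MP_6f255c_co

namespace Pool.Agent.S09397

/-- For every finite simple graph in which no nonempty independent vertex set S leaves more than ∣S∣ components when deleted, the chromatic polynomial (as the signed sum over edge subsets of q to the number of components) is nonzero at every real q in (1,2). -/
theorem result :
    ∀ (V : Type) [Fintype V] [DecidableEq V] (G : SimpleGraph V) [DecidableRel G.Adj],
      (∀ S : Finset V, S.Nonempty → G.IsIndepSet (S : Set V) →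
          Nat.card ((G.induce ((S : Set V)ᶜ)).ConnectedComponent) ≤ S.card) →
      ∀ q : ℝ, 1 < q → q < 2 →
        (∑ A ∈ G.edgeFinset.powerset,
          (-1 : ℝ) ^ A.card *
            q ^ Nat.card (SimpleGraph.fromEdgeSet (A : Set (Sym2 V))).ConnectedComponent) ≠ 0 := by
  intro V _ _ G _ hG q hq1 hq2
  exact Pool.Agent.DK.main V G hG q hq1 hq2

end Pool.Agent.S09397
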