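import Pool.Statements.S09542
import Pool.Agent.Lib_MP_75b583_co.Final

set_option autoImplicit false
open Pool Pool.MP_75b583_co

namespace Pool.Agent.S09542

/-- The negation of the preceding statement: If every depth-r minor of every graph in a finite-graph class has average degree at most c(r+1)^k, then there are d and D so that each graph can be (d+1)-coloured with every monochromatic r-component of weak diameter at most D(r). -/
theorem result :
    ¬ (∀ P : (n : ℕ) → SimpleGraph (Fin n) → Prop,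
      (∃ c k : ℕ, ∀ (n : ℕ) (G : SimpleGraph (Fin n)), P n G →
        ∀ (r m : ℕ) (H : SimpleGraph (Fin m)) (B : Fin m → Set (Fin n)) (ctr : Fin m → Fin n),
          (∀ i j, i ≠ j → Disjoint (B i) (B j)) →
          (∀ i, ctr i ∈ B i) →
          (∀ i, ∀ v ∈ B i, ∃ w : G.Walk (ctr i) v, w.length ≤ r ∧ ∀ x ∈ w.support, x ∈ B i) →
          (∀ i j, H.Adj i j → ∃ x ∈ B i, ∃ y ∈ B j, G.Adj x y) →
          2 * Nat.card H.edgeSet ≤ c * (r + 1) ^ k * m) →
      ∃ d : ℕ, ∃ D : ℕ → ℕ, ∀ (n : ℕ) (G : SimpleGraph (Fin n)), P n G →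
        ∀ r : ℕ, ∃ col : Fin n → Fin (d + 1), ∀ u v : Fin n,
          Relation.ReflTransGen (fun x y => col x = col y ∧ G.edist x y ≤ (r : ℕ∞)) u v →
          G.edist u v ≤ (D r : ℕ∞)) := by
  intro hall
  obtain ⟨d, D, h⟩ := hall (fun n G =>
    ∀ (r m : ℕ) (H : SimpleGraph (Fin m)) (B : Fin m → Set (Fin n)) (ctr : Fin m → Fin n),
      (∀ i j, i ≠ j → Disjoint (B i) (B j)) →
      (∀ i, ctr i ∈ B i) →
      (∀ i, ∀ v ∈ B i, ∃ w : G.Walk (ctr i) v, w.length ≤ r ∧ ∀ x ∈ w.support, x ∈ B i) →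
      (∀ i j, H.Adj i j → ∃ x ∈ B i, ∃ y ∈ B j, G.Adj x y) →
      2 * Nat.card H.edgeSet ≤ 96 * (r + 1) ^ 2 * m) ⟨96, 2, fun n G hG => hG⟩
  obtain ⟨l, hl⟩ := Pool.Agent.Lib_MP_75b583_co.main_graph (d + 1) (by omega)
  obtain ⟨N, G, rk, hinj, hWR, hcol⟩ := hl (D (l + 1) + 1)
  obtain ⟨col, hc⟩ := h N G (by
    intro r m H B ctr hdisj hctr hrad hadj
    have h1 := Pool.Agent.Lib_MP_75b583_co.minor_density G rk hinj (3 * (4 * r + 1 + 1) ^ 2) r
      (fun v => hWR (4 * r + 1) v) m H B ctr hdisj hctr hrad hadj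
    refine h1.trans (Nat.mul_le_mul_right m ?_)
    nlinarith [Nat.zero_le r]) (l + 1)
  obtain ⟨u, v, huv, hD⟩ := hcol col
  apply hD
  refine (hc u v huv).trans_lt ?_
  exact_mod_cast Nat.lt_succ_self (D (l + 1))

end Pool.Agent.S09542
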