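import Pool.Statements.S10275
import Pool.Agent.Lib_MP_97158b_co.Final

set_option autoImplicit false
open Pool Pool.MP_97158b_co

namespace Pool.Agent.S10275

/-- For every d ≥ 2 there is N such that for all n ≥ N the coefficients of the product over i=1..n of (1 + t^i + ... + t^{i(d-1)}) rise weakly up to some index m and fall weakly after it. -/
theorem result :
    ∀ d : ℕ, 2 ≤ d → ∃ N : ℕ, ∀ n : ℕ, N ≤ n →
      ∃ m : ℕ,
        (∀ a b : ℕ, a ≤ b → b ≤ m →
          (∏ i ∈ Finset.Icc 1 n, ∑ k ∈ Finset.range d,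
              (Polynomial.X : Polynomial ℕ) ^ (i * k)).coeff a ≤
          (∏ i ∈ Finset.Icc 1 n, ∑ k ∈ Finset.range d,
              (Polynomial.X : Polynomial ℕ) ^ (i * k)).coeff b) ∧
        (∀ a b : ℕ, m ≤ a → a ≤ b →
          (∏ i ∈ Finset.Icc 1 n, ∑ k ∈ Finset.range d,
              (Polynomial.X : Polynomial ℕ) ^ (i * k)).coeff b ≤
          (∏ i ∈ Finset.Icc 1 n, ∑ k ∈ Finset.range d,
              (Polynomial.X : Polynomial ℕ) ^ (i * k)).coeff a) := by
  intro d hd
  exact Pool.Agent.Lib_MP_97158b_co.almkvist d hd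

end Pool.Agent.S10275
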