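import Pool.Statements.S10569
import Pool.Agent.Lib_MP_a50277.Glue
import Pool.Agent.Lib_MP_a50277.PartB
import Pool.Agent.Lib_MP_a50277.C1

set_option autoImplicit false
open Pool Pool.MP_a50277_co

namespace Pool.Agent.S10569

/-- For every d ≥ 1 and finite set P in the real projective plane, either some degree-d curve contains P, or some degree-d curve meets P in exactly (d+1)(d+2)/2−1 points and is the unique such curve through them, up to scalar. -/
theorem result :
    ∀ d : ℕ, 0 < d → ∀ P : Finset (Projectivization ℝ (Fin 3 → ℝ)),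
      (∃ f : MvPolynomial (Fin 3) ℝ, f.IsHomogeneous d ∧ f ≠ 0 ∧
          ∀ p ∈ P, MvPolynomial.eval p.rep f = 0) ∨
      (∃ f : MvPolynomial (Fin 3) ℝ, f.IsHomogeneous d ∧ f ≠ 0 ∧
          (P.filter (fun p => MvPolynomial.eval p.rep f = 0)).card = (d + 1) * (d + 2) / 2 - 1 ∧
          ∀ g : MvPolynomial (Fin 3) ℝ, g.IsHomogeneous d →
            (∀ p ∈ P, MvPolynomial.eval p.rep f = 0 → MvPolynomial.eval p.rep g = 0) →
            ∃ c : ℝ, g = c • f) := by
  exact WW.glue WW.claimB WW.affineC

end Pool.Agent.S10569
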