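import Pool.Statements.S10705
import Pool.Agent.Lib_MP_aad2bd_co.Nice6
import Pool.Agent.Lib_MP_aad2bd_co.PartK
import Pool.Agent.Lib_MP_aad2bd_co.PartF

set_option autoImplicit false
open Pool Pool.MP_aad2bd_co

namespace Pool.Agent.S10705

/-- For all finite posets A, B and nonempty finite poset C, if the pointwise-ordered posets of order-preserving maps C→A and C→B are order-isomorphic, then A and B are order-isomorphic. -/
theorem result :
    ∀ (A B C : Type) [PartialOrder A] [PartialOrder B] [PartialOrder C]
      [Finite A] [Finite B] [Finite C] [Nonempty C],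
      Nonempty ((C →o A) ≃o (C →o B)) → Nonempty (A ≃o B) :=
  Pool.Agent.Birk.final_assembly
    (Pool.Agent.Birk.K2_of_caseII
      (fun _ _ _ _ _ _ _ _ _ _ _ _ _ _ hC hirr hn htop hbot hA hB he b =>
        Pool.Agent.Birk.Pow.caseII hC hirr hn htop hbot hA hB he b))

end Pool.Agent.S10705
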