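import Pool.Statements.S11092
import Pool.Agent.Lib_MP_bb931d_co.Atoms

set_option autoImplicit false
open Pool Pool.MP_bb931d_co

namespace Pool.Agent.S11092

/-- The negation of the preceding statement: For every finite non-cyclic abelian group G with Davenport constant D, there is k* such that for all k ≥ k*, the largest number of minimal zero-sum sequences whose product equals a product of 2k+1 of them is exactly kD + floor(D/2). -/
theorem result :
    ¬ (∀ (G : Type) [AddCommGroup G] [Finite G], ¬ IsAddCyclic G →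
    ∃ kstar : ℕ, ∀ k : ℕ, kstar ≤ k → ∀ D : ℕ,
      IsGreatest {n : ℕ | ∃ A : Multiset G, A ≠ 0 ∧ A.sum = 0 ∧
          (∀ B : Multiset G, B ≤ A → B ≠ 0 → B.sum = 0 → B = A) ∧
          Multiset.card A = n} D →
      IsGreatest {l : ℕ | ∃ xs ys : List (Multiset G),
          xs.length = 2 * k + 1 ∧ ys.length = l ∧
          (∀ A ∈ xs, A ≠ 0 ∧ A.sum = 0 ∧
            ∀ B : Multiset G, B ≤ A → B ≠ 0 → B.sum = 0 → B = A) ∧
          (∀ A ∈ ys, A ≠ 0 ∧ A.sum = 0 ∧
            ∀ B : Multiset G, B ≤ A → B ≠ 0 → B.sum = 0 → B = A) ∧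
          xs.sum = ys.sum} (k * D + D / 2)) := by
  intro hall
  obtain ⟨kstar, hk⟩ := hall Pool.Agent.BB931D.G Pool.Agent.BB931D.not_cyclic
  have h20 : IsGreatest {n : ℕ | ∃ A : Multiset Pool.Agent.BB931D.G, A ≠ 0 ∧ A.sum = 0 ∧
      (∀ B : Multiset Pool.Agent.BB931D.G, B ≤ A → B ≠ 0 → B.sum = 0 → B = A) ∧
      Multiset.card A = n} 20 := by
    constructor
    · obtain ⟨A, hA, hc⟩ := Pool.Agent.BB931D.exists_twenty
      exact ⟨A, hA.1, hA.2.1, hA.2.2, hc⟩
    · rintro n ⟨A, h1, h2, h3, rfl⟩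
      exact Pool.Agent.BB931D.IsMin.card_le ⟨h1, h2, h3⟩
  have hgr := hk kstar le_rfl 20 h20
  obtain ⟨xs, ys, hx, hy, hxs, hys, heq⟩ := hgr.1
  exact Pool.Agent.BB931D.no_long_factorization kstar xs ys hx hy hxs hys heq

end Pool.Agent.S11092
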