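import Pool.Statements.S11387
import Pool.Agent.Lib_MP_c83083_co.Final

set_option autoImplicit false
open Pool Pool.MP_c83083_co

namespace Pool.Agent.S11387

/-- Take c colour classes of simple graphs on n ≥ 2 vertices, each vertex having at least ⌈n/2⌉ neighbours in every colour. If c ≥ 3, or c = 2 and n even, there is a properly coloured Hamilton cycle. If c = 2 and n odd, there is a properly coloured cycle on n−1 vertices. -/
theorem result :
    ∀ (n c : ℕ) (G : Fin c → SimpleGraph (Fin n)),
      2 ≤ n →
      (∀ (i : Fin c) (v : Fin n), (n + 1) / 2 ≤ ((G i).neighborSet v).ncard) →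
      (((3 ≤ c ∨ (c = 2 ∧ Even n)) →
          ∃ f : Fin n → Fin n, Function.Injective f ∧
            ∃ col : Fin n → Fin c, ∀ j : Fin n,
              (G (col j)).Adj (f j) (f (finRotate n j)) ∧ col j ≠ col (finRotate n j)) ∧
       ((c = 2 ∧ Odd n) →
          ∃ f : Fin (n - 1) → Fin n, Function.Injective f ∧
            ∃ col : Fin (n - 1) → Fin c, ∀ j : Fin (n - 1),
              (G (col j)).Adj (f j) (f (finRotate (n - 1) j)) ∧
                col j ≠ col (finRotate (n - 1) j))) := by
  exact Pool.Agent.Lib_MP_c83083_co.assemble Pool.Agent.Lib_MP_c83083_co.twoGraphs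

end Pool.Agent.S11387
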