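import Pool.Statements.S11698
-- import your own Pool.Agent.* helpers here
import Pool.Agent.Lib_MP_d5cc4e_co.Final

set_option autoImplicit false
open Pool Pool.MP_d5cc4e_co

namespace Pool.Agent.S11698

/-- The negation of the preceding statement: There is a colouring of the rationals with two colours such that for every infinite set X of rationals, the sums x+y with x, y in X (x = y allowed) do not all receive the same colour. -/
theorem result :
    ¬ (∃ c : ℚ → Fin 2, ∀ X : Set ℚ, X.Infinite →
      ¬ ∃ i : Fin 2, ∀ x ∈ X, ∀ y ∈ X, c (x + y) = i) := by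
  rintro ⟨c, hc⟩
  apply Pool.Agent.SumQ.not_good (fun x => decide (c x = 0))
  intro X hX
  rintro ⟨b, hb⟩
  apply hc X hX
  cases b
  · refine ⟨1, fun x hx y hy => ?_⟩
    have h := hb x hx y hy
    have h' : c (x + y) ≠ 0 := of_decide_eq_false h
    omega
  · refine ⟨0, fun x hx y hy => ?_⟩
    exact of_decide_eq_true (hb x hx y hy)

end Pool.Agent.S11698
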