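import Pool.Statements.S12437
import Pool.Agent.Lib_MP_f63283_co.Main

set_option autoImplicit false
open Pool Pool.MP_f63283_co

namespace Pool.Agent.S12437

/-- There is a constant C such that for all Δ, m ≥ 1, every integer matrix with m rows, pairwise distinct columns, and largest absolute m×m minor exactly Δ has at most C·m²·Δ columns. -/
theorem result :
    ∃ C : ℝ, ∀ Δ m n : ℕ, 1 ≤ Δ → 1 ≤ m →
      ∀ A : Matrix (Fin m) (Fin n) ℤ,
        Function.Injective A.transpose →
        (∀ s : Fin m → Fin n, |(A.submatrix id s).det| ≤ (Δ : ℤ)) →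
        (∃ s : Fin m → Fin n, |(A.submatrix id s).det| = (Δ : ℤ)) →
        (n : ℝ) ≤ C * (m : ℝ) ^ 2 * (Δ : ℝ) := by
  refine ⟨27 ^ 4 * 6, ?_⟩
  intro Δ m n hΔ hm A hinj hA hex
  have h := Pool.Agent.Lib_MP_f63283_co.main_bound Δ m n hΔ hm A hinj hA hex
  exact_mod_cast h

end Pool.Agent.S12437
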