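import Pool.Statements.S12853
import Pool.Agent.Lib_MP_1dc66a_gt.Main
import Pool.Agent.Lib_MP_1dc66a_gt.Nerve
import Pool.Agent.Lib_MP_1dc66a_gt.ScSphere

set_option autoImplicit false
open Pool Pool.MP_1dc66a_gt

namespace Pool.Agent.S12853

open Pool.Agent.Lib_MP_1dc66a_gt in
/-- For compact polyhedra X_n with bonding maps whose inverse limit is a hereditarily indecomposable continuum, and maps F_n from the 2-sphere with F_n homotopic to P_n∘F_{n+1}, the first map F_1 is null-homotopic. -/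
theorem result :
    ∀ (k : ℕ → ℕ) (X : ∀ n, Set (EuclideanSpace ℝ (Fin (k n))))
      (P : ∀ n, C(↥(X (n+1)), ↥(X n)))
      (F : ∀ n, C(↥(Metric.sphere (0 : EuclideanSpace ℝ (Fin 3)) 1), ↥(X n))),
      (∀ n, ∃ T : Finset (Finset (EuclideanSpace ℝ (Fin (k n)))),
          X n = ⋃ t ∈ T, convexHull ℝ (t : Set (EuclideanSpace ℝ (Fin (k n))))) →
      IsConnected {x : ∀ n, ↥(X n) | ∀ n, P n (x (n+1)) = x n} →
      (∀ A B : Set (∀ n, ↥(X n)),
          A ⊆ {x : ∀ n, ↥(X n) | ∀ n, P n (x (n+1)) = x n} →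
          B ⊆ {x : ∀ n, ↥(X n) | ∀ n, P n (x (n+1)) = x n} →
          IsCompact A → IsConnected A → IsCompact B → IsConnected B →
          (A ∩ B).Nonempty → A ⊆ B ∨ B ⊆ A) →
      (∀ n, (F n).Homotopic ((P n).comp (F (n+1)))) →
      ∃ c : ↥(X 0), (F 0).Homotopic (ContinuousMap.const _ c) := by
  intro k X P F hX _ hHI hF
  have hcomp : ∀ n, IsCompact (X n) := by
    intro n
    obtain ⟨T, hT⟩ := hX n
    rw [hT]
    exact T.isCompact_biUnion fun t _ => t.finite_toSet.isCompact_convexHull ℝ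
  have hcs : ∀ n, CompactSpace ↥(X n) := fun n => isCompact_iff_compactSpace.1 (hcomp n)
  have hconn : ConnectedSpace ↥(Metric.sphere (0 : EuclideanSpace ℝ (Fin 3)) 1) := by
    refine isConnected_iff_connectedSpace.1 (isConnected_sphere ?_ 0 zero_le_one)
    rw [rank_eq_card_basis (EuclideanSpace.basisFun (Fin 3) ℝ).toBasis]
    simp
  obtain ⟨l, V, _, K, u, ψ, hψ⟩ := nerve_dom (X 0) (hX 0)
  obtain ⟨N, φ, h1, h2⟩ := exists_tower (X := fun n => ↥(X n)) P hHI F hF l 0
    (fun y => K.typ (u y).1)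
    (fun i => (typ_cont K i).comp (continuous_subtype_val.comp u.continuous))
    (fun y i => typ_nonneg K (u y).2 i) (fun y => typ_sum K (u y).2)
  have h3 := h2.comap (F N)
  obtain ⟨c, hc⟩ := null_of_tower sc_sphere l K (u.comp (φ.comp (F N))) h3
  refine ⟨ψ c, ?_⟩
  have h4 : (F 0).Homotopic ((ψ.comp u).comp (F 0)) :=
    (hψ.symm).comp (ContinuousMap.Homotopic.refl (F 0))
  have h5 : ((ψ.comp u).comp (F 0)).Homotopic ((ψ.comp u).comp (φ.comp (F N))) :=
    (ContinuousMap.Homotopic.refl (ψ.comp u)).comp h1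
  have h6 : (ψ.comp (u.comp (φ.comp (F N)))).Homotopic
      (ψ.comp (ContinuousMap.const _ c)) :=
    (ContinuousMap.Homotopic.refl ψ).comp hc
  exact h4.trans (h5.trans h6)

end Pool.Agent.S12853
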