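import Pool.Statements.S13478

set_option autoImplicit false
open Pool Pool.MP_8403e4_gt

namespace Pool.Agent.S13478

open Set Topology Filter

/-!
The counterexample (in ZFC).  Let `PP = ℕ × (ℝ ∪ {∞})`, where the points `(n, x)` with `x` real are
isolated and the neighbourhoods of `(n, ∞)` contain all but countably many points of layer `n`.
`PP` is a P-space, so its Stone-Cech compactification `YY` is an F-space (it is even basically
disconnected).  Let `F` be the limit of the points `(n, ∞)` along a free ultrafilter on `ℕ` and let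
`XX` be the subspace of `YY` made of `F` and of all points lying in the closure of some countable
subset of `ℕ × ℝ`.  The traces on `XX` of the closures of the sets `T ⊆ ℕ × ℝ` that are either
countable, or co-countable in most layers, form a cocompact pretty base of `XX`.  The sets
`closure ({n} × (-∞, 0)) ∩ XX` are clopen in `XX`, but the closure of their union is not open.
-/

/-- The underlying set `ℕ × (ℝ ∪ {∞})` of the P-space used in the construction. -/
def PP : Type := ℕ × Option ℝ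

/-- The point `(n, ∞)`. -/
def pinf (n : ℕ) : PP := ((n, none) : ℕ × Option ℝ)

/-- The isolated point `(n, x)`. -/
def pt (s : ℕ × ℝ) : PP := ((s.1, some s.2) : ℕ × Option ℝ)

lemma pt_ne_pinf (s : ℕ × ℝ) (n : ℕ) : pt s ≠ pinf n := by
  intro h
  have h2 := congrArg (Prod.snd : ℕ × Option ℝ → Option ℝ) h
  simp [pt, pinf] at h2

lemma pt_inj : Function.Injective pt := by
  intro a b h
  have h1 := congrArg (Prod.fst : ℕ × Option ℝ → ℕ) h
  have h2 := congrArg (Prod.snd : ℕ × Option ℝ → Option ℝ) h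
  simp [pt] at h1 h2
  exact Prod.ext h1 h2

lemma pinf_inj {m n : ℕ} (h : pinf m = pinf n) : m = n := by
  have h1 := congrArg (Prod.fst : ℕ × Option ℝ → ℕ) h
  simpa [pinf] using h1

lemma PP_cases (p : PP) : (∃ n, p = pinf n) ∨ ∃ s, p = pt s := by
  rcases p with ⟨n, _ | x⟩
  · exact Or.inl ⟨n, rfl⟩
  · exact Or.inr ⟨(n, x), rfl⟩

/-- Points `(n,x)` are isolated, neighbourhoods of `(n, ∞)` are co-countable in layer `n`. -/
instance : TopologicalSpace PP where
  IsOpen U := ∀ n : ℕ, pinf n ∈ U → {x : ℝ | pt (n, x) ∉ U}.Countable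
  isOpen_univ := by
    intro n _
    simp
  isOpen_inter := by
    intro s t hs ht n hn
    refine ((hs n hn.1).union (ht n hn.2)).mono ?_
    intro x hx
    simp only [mem_ofPred_eq, mem_inter_iff, not_and_or] at hx
    exact hx
  isOpen_sUnion := by
    intro s hs n hn
    obtain ⟨t, hts, hnt⟩ := hn
    refine (hs t hts n hnt).mono ?_
    intro x hx hxt
    exact hx ⟨t, hts, hxt⟩

lemma isOpen_PP {U : Set PP} :
    IsOpen U ↔ ∀ n : ℕ, pinf n ∈ U → {x : ℝ | pt (n, x) ∉ U}.Countable := Iff.rfl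

/-- The F-space: the Stone-Cech compactification of `PP`. -/
abbrev YY : Type := StoneCech PP

/-- unit map -/
noncomputable abbrev ι : PP → YY := stoneCechUnit

/-- Continuous real functions are eventually constant in each layer. -/
lemma countable_ne {f : PP → ℝ} (hf : Continuous f) (n : ℕ) :
    {x : ℝ | f (pt (n, x)) ≠ f (pinf n)}.Countable := by
  have h1 : ∀ k : ℕ, {x : ℝ | pt (n, x) ∉ f ⁻¹' (Metric.ball (f (pinf n)) (1 / ((k : ℝ) + 1)))}.Countable := by
    intro k
    have ho : IsOpen (f ⁻¹' (Metric.ball (f (pinf n)) (1 / ((k : ℝ) + 1)))) :=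
      Metric.isOpen_ball.preimage hf
    refine isOpen_PP.1 ho n ?_
    simp only [mem_preimage, Metric.mem_ball, dist_self]
    positivity
  refine (countable_iUnion h1).mono ?_
  intro x hx
  simp only [mem_ofPred_eq] at hx
  have hpos : 0 < dist (f (pt (n, x))) (f (pinf n)) := dist_pos.2 hx
  obtain ⟨k, hk⟩ := exists_nat_one_div_lt hpos
  refine mem_iUnion.2 ⟨k, ?_⟩
  simp only [mem_ofPred_eq, mem_preimage, Metric.mem_ball, not_lt]
  exact hk.le

/-- `YY` is an F-space. -/
lemma fspace (f : YY → ℝ) (hf : Continuous f) (g : {y : YY // f y ≠ 0} → ℝ) (hg : Continuous g)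
    (hM : ∃ M : ℝ, ∀ y, |g y| ≤ M) :
    ∃ h : YY → ℝ, Continuous h ∧ (∃ M : ℝ, ∀ y, |h y| ≤ M) ∧
      ∀ y : {y : YY // f y ≠ 0}, h y.1 = g y := by
  classical
  obtain ⟨M, hM⟩ := hM
  have hι : Continuous ι := continuous_stoneCechUnit
  let U : Set PP := {p | f (ι p) ≠ 0}
  have hUo : IsOpen U := isOpen_ne_fun (hf.comp hι) continuous_const
  have hUc : IsOpen Uᶜ := by
    rw [isOpen_PP]
    intro n hn
    have hn0 : f (ι (pinf n)) = 0 := by
      simpa [U] using hn
    refine (countable_ne (hf.comp hι) n).mono ?_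
    intro x hx
    simp only [mem_ofPred_eq, mem_compl_iff, not_not, U, Function.comp] at hx ⊢
    rw [hn0]
    exact hx
  let h0 : PP → ℝ := fun p => if h : f (ι p) ≠ 0 then g ⟨ι p, h⟩ else 0
  have hh0 : Continuous h0 := by
    have h1 : ContinuousOn h0 U := by
      rw [continuousOn_iff_continuous_domRestrict]
      have : U.domRestrict h0 = fun u : U => g ⟨ι u.1, u.2⟩ := by
        funext u
        have hu : f (ι u.1) ≠ 0 := u.2
        simp only [domRestrict_apply, h0, dif_pos hu]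
      rw [this]
      exact hg.comp (Continuous.subtype_mk (hι.comp continuous_subtype_val) _)
    have h2 : ContinuousOn h0 Uᶜ := by
      refine (continuousOn_const (c := (0 : ℝ))).congr ?_
      intro p hp
      have hp' : ¬ (f (ι p) ≠ 0) := hp
      simp only [h0, dif_neg hp']
    rw [continuous_iff_continuousAt]
    intro p
    by_cases hp : p ∈ U
    · exact h1.continuousAt (hUo.mem_nhds hp)
    · exact h2.continuousAt (hUc.mem_nhds hp)
  have hb : ∀ p, h0 p ∈ Icc (-|M|) |M| := by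
    intro p
    by_cases hp : f (ι p) ≠ 0
    · simp only [h0, dif_pos hp]
      exact abs_le.1 ((hM _).trans (le_abs_self M))
    · simp only [h0, dif_neg hp]
      exact ⟨by simp, by simp⟩
  let k0 : PP → Icc (-|M|) |M| := fun p => ⟨h0 p, hb p⟩
  have hk0 : Continuous k0 := Continuous.subtype_mk hh0 _
  let k : YY → Icc (-|M|) |M| := stoneCechExtend hk0
  have hk : Continuous k := continuous_stoneCechExtend hk0
  have hkk : ∀ p, k (ι p) = k0 p := fun p => congrFun (stoneCechExtend_extends hk0) p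
  refine ⟨fun y => (k y : ℝ), continuous_subtype_val.comp hk, ⟨|M|, fun y => abs_le.2 (k y).2⟩, ?_⟩
  have hVo : IsOpen {y : YY | f y ≠ 0} := isOpen_ne_fun hf continuous_const
  have hd : Dense ((fun u : {y : YY // f y ≠ 0} => u.1) ⁻¹' (range ι)) :=
    Dense.preimage (denseRange_stoneCechUnit (α := PP)) hVo.isOpenMap_subtype_val
  have heq : (fun u : {y : YY // f y ≠ 0} => (k u.1 : ℝ)) = g := by
    refine Continuous.ext_on hd (continuous_subtype_val.comp (hk.comp continuous_subtype_val)) hg ?_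
    rintro ⟨u, hu⟩ ⟨p, hp⟩
    simp only at hp
    subst hp
    have hu' : f (ι p) ≠ 0 := hu
    simp only [hkk, k0, h0, dif_pos hu']
  intro y
  exact congrFun heq y

/-- closures of clopen subsets of `PP` in `YY` are clopen -/
lemma clopen_closure {K : Set PP} (hK : IsClopen K) : IsClopen (closure (ι '' K)) := by
  classical
  have hc : Continuous (K.boolIndicator) := (continuous_boolIndicator_iff_isClopen K).2 hK
  let e : YY → Bool := stoneCechExtend hc
  have he : Continuous e := continuous_stoneCechExtend hc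
  have hee : ∀ p, e (ι p) = K.boolIndicator p := fun p => congrFun (stoneCechExtend_extends hc) p
  have hE : IsClopen (e ⁻¹' {true}) := (isClopen_discrete _).preimage he
  have : closure (ι '' K) = e ⁻¹' {true} := by
    apply Subset.antisymm
    · refine closure_minimal ?_ hE.1
      rintro _ ⟨p, hp, rfl⟩
      simp only [mem_preimage, mem_singleton_iff, hee]
      exact (mem_iff_boolIndicator K p).1 hp
    · refine ((denseRange_stoneCechUnit (α := PP)).open_subset_closure_inter hE.2).trans ?_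
      refine closure_mono ?_
      rintro _ ⟨hy, p, rfl⟩
      refine ⟨p, ?_, rfl⟩
      simp only [mem_preimage, mem_singleton_iff, hee] at hy
      exact (mem_iff_boolIndicator K p).2 hy
  rw [this]
  exact hE


lemma closure_disj {K T : Set PP} (hK : IsClopen K) (h : Disjoint K T) :
    Disjoint (closure (ι '' K)) (closure (ι '' T)) := by
  have hc := clopen_closure hK
  have h2 : closure (ι '' T) ⊆ (closure (ι '' K))ᶜ := by
    have hKc : closure (ι '' Kᶜ) ⊆ (closure (ι '' K))ᶜ := by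
      refine closure_minimal ?_ hc.compl.1
      rintro _ ⟨p, hp, rfl⟩ hcon
      -- use the extension of the indicator function
      classical
      have hcc : Continuous (K.boolIndicator) := (continuous_boolIndicator_iff_isClopen K).2 hK
      let e : YY → Bool := stoneCechExtend hcc
      have he : Continuous e := continuous_stoneCechExtend hcc
      have hee : ∀ p, e (ι p) = K.boolIndicator p :=
        fun p => congrFun (stoneCechExtend_extends hcc) p
      have hE : IsClopen (e ⁻¹' {true}) := (isClopen_discrete _).preimage he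
      have hsub : closure (ι '' K) ⊆ e ⁻¹' {true} := by
        refine closure_minimal ?_ hE.1
        rintro _ ⟨q, hq, rfl⟩
        simp only [mem_preimage, mem_singleton_iff, hee]
        exact (mem_iff_boolIndicator K q).1 hq
      have h3 := hsub hcon
      simp only [mem_preimage, mem_singleton_iff, hee] at h3
      exact hp ((mem_iff_boolIndicator K p).2 h3)
    refine Subset.trans (closure_mono (image_mono ?_)) hKc
    exact h.subset_compl_left
  exact (disjoint_compl_right.mono_right h2)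

/-- The map from the set of isolated points to `YY`. -/
noncomputable def j (s : ℕ × ℝ) : YY := ι (pt s)

/-- closure in `YY` of a set of isolated points -/
noncomputable def cl (T : Set (ℕ × ℝ)) : Set YY := closure (ι '' (pt '' T))

lemma isClosed_cl (T : Set (ℕ × ℝ)) : IsClosed (cl T) := isClosed_closure

lemma cl_mono {T R : Set (ℕ × ℝ)} (h : T ⊆ R) : cl T ⊆ cl R :=
  closure_mono (image_mono (image_mono h))

lemma cl_union (T R : Set (ℕ × ℝ)) : cl (T ∪ R) = cl T ∪ cl R := by
  simp only [cl, image_union, closure_union]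

lemma isOpen_pt_image (T : Set (ℕ × ℝ)) : IsOpen (pt '' T) := by
  rw [isOpen_PP]
  rintro n ⟨s, _, hs⟩
  exact absurd hs (pt_ne_pinf s n)

lemma isClopen_pt_image {T : Set (ℕ × ℝ)} (hT : ∀ n, {x : ℝ | (n, x) ∈ T}.Countable) :
    IsClopen (pt '' T) := by
  refine ⟨?_, isOpen_pt_image T⟩
  rw [← isOpen_compl_iff, isOpen_PP]
  intro n _
  refine (hT n).mono ?_
  intro x hx
  simp only [mem_ofPred_eq, mem_compl_iff, not_not] at hx ⊢
  obtain ⟨s, hs, hsx⟩ := hx
  rw [pt_inj hsx] at hs
  exact hs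

lemma countable_layer {T : Set (ℕ × ℝ)} (hT : T.Countable) (n : ℕ) :
    {x : ℝ | (n, x) ∈ T}.Countable :=
  hT.preimage (f := fun x : ℝ => (n, x)) (fun a b h => by simpa using h)

lemma cl_disj {T R : Set (ℕ × ℝ)} (hT : ∀ n, {x : ℝ | (n, x) ∈ T}.Countable)
    (h : Disjoint T R) : Disjoint (cl T) (cl R) :=
  closure_disj (isClopen_pt_image hT) ((disjoint_image_iff pt_inj).2 h)

lemma isOpen_cl {T : Set (ℕ × ℝ)} (hT : ∀ n, {x : ℝ | (n, x) ∈ T}.Countable) : IsOpen (cl T) :=
  (clopen_closure (isClopen_pt_image hT)).2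

lemma j_mem_cl {T : Set (ℕ × ℝ)} {s : ℕ × ℝ} : j s ∈ cl T ↔ s ∈ T := by
  constructor
  · intro h
    by_contra hs
    have h1 : Disjoint (cl {s}) (cl T) := by
      refine cl_disj (fun n => countable_layer (countable_singleton s) n) ?_
      simpa using hs
    have h2 : j s ∈ cl {s} := subset_closure ⟨pt s, ⟨s, rfl, rfl⟩, rfl⟩
    exact Set.disjoint_left.1 h1 h2 h
  · intro h
    exact subset_closure ⟨pt s, ⟨s, h, rfl⟩, rfl⟩

/-- Countable-supported points. -/
def X0 : Set YY := {y | ∃ T : Set (ℕ × ℝ), T.Countable ∧ y ∈ cl T}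

lemma j_mem_X0 (s : ℕ × ℝ) : j s ∈ X0 := ⟨{s}, countable_singleton s, j_mem_cl.2 rfl⟩

/-- the special point -/
noncomputable def F : YY := ((hyperfilter ℕ).map (fun n => ι (pinf n))).lim

lemma tendsto_F : Tendsto (fun n => ι (pinf n)) (hyperfilter ℕ : Filter ℕ) (𝓝 F) :=
  Ultrafilter.le_nhds_lim ((hyperfilter ℕ).map (fun n => ι (pinf n)))

/-- filter of sets that are cocountable in most layers -/
def Fil (T : Set (ℕ × ℝ)) : Prop :=
  ∀ᶠ n in (hyperfilter ℕ : Filter ℕ), {x : ℝ | (n, x) ∉ T}.Countable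

lemma Fil.mono {T R : Set (ℕ × ℝ)} (hT : Fil T) (h : T ⊆ R) : Fil R := by
  refine Filter.Eventually.mono hT ?_
  intro n hn
  exact hn.mono (fun x hx hxT => hx (h hxT))

lemma not_countable_real : ¬ (univ : Set ℝ).Countable := by
  rw [countable_univ_iff]
  exact not_countable

lemma F_nbhd {T : Set (ℕ × ℝ)} (hT : Fil T) : ∃ K : Set PP, IsClopen K ∧
    F ∈ closure (ι '' K) ∧ closure (ι '' K) ⊆ cl T ∧ Disjoint K (pt '' Tᶜ) := by
  let A : Set ℕ := {n | {x : ℝ | (n, x) ∉ T}.Countable}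
  let K : Set PP := {p | (∃ n ∈ A, p = pinf n) ∨ ∃ s, s.1 ∈ A ∧ s ∈ T ∧ p = pt s}
  have hKi : ∀ n, pinf n ∈ K ↔ n ∈ A := by
    intro n
    constructor
    · rintro (⟨m, hm, h⟩ | ⟨s, _, _, h⟩)
      · rwa [pinf_inj h]
      · exact absurd h.symm (pt_ne_pinf s n)
    · intro hn
      exact Or.inl ⟨n, hn, rfl⟩
  have hKp : ∀ s, pt s ∈ K ↔ s.1 ∈ A ∧ s ∈ T := by
    intro s
    constructor
    · rintro (⟨m, hm, h⟩ | ⟨s', h1, h2, h⟩)
      · exact absurd h (pt_ne_pinf s m)
      · rw [pt_inj h]; exact ⟨h1, h2⟩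
    · rintro ⟨h1, h2⟩
      exact Or.inr ⟨s, h1, h2, rfl⟩
  have hK : IsClopen K := by
    constructor
    · rw [← isOpen_compl_iff, isOpen_PP]
      intro n hn
      have hn' : n ∉ A := fun h => hn ((hKi n).2 h)
      convert countable_empty (α := ℝ) using 1
      ext x
      simp only [mem_ofPred_eq, mem_compl_iff, not_not, hKp, mem_empty_iff_false, iff_false]
      exact fun h => hn' h.1
    · rw [isOpen_PP]
      intro n hn
      have hn' : n ∈ A := (hKi n).1 hn
      refine Countable.mono ?_ hn'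
      intro x hx hxT
      exact hx ((hKp (n, x)).2 ⟨hn', hxT⟩)
  refine ⟨K, hK, ?_, ?_, ?_⟩
  · refine isClosed_closure.mem_of_tendsto tendsto_F ?_
    refine Filter.Eventually.mono hT ?_
    intro n hn
    exact subset_closure ⟨_, (hKi n).2 hn, rfl⟩
  · refine closure_minimal ?_ (isClosed_cl T)
    rintro _ ⟨p, hp, rfl⟩
    rcases PP_cases p with ⟨n, rfl⟩ | ⟨s, rfl⟩
    · have hn : n ∈ A := (hKi n).1 hp
      have h1 : pinf n ∈ closure (pt '' T) := by
        rw [mem_closure_iff]
        intro o ho hno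
        have h2 : {x : ℝ | pt (n, x) ∉ o}.Countable := isOpen_PP.1 ho n hno
        by_contra hcon
        apply not_countable_real
        refine (h2.union hn).mono ?_
        intro x _
        by_contra hx
        simp only [mem_union, mem_ofPred_eq, not_or, not_not] at hx
        exact hcon ⟨pt (n, x), hx.1, (n, x), hx.2, rfl⟩
      exact image_closure_subset_closure_image continuous_stoneCechUnit ⟨_, h1, rfl⟩
    · exact subset_closure ⟨_, ⟨s, ((hKp s).1 hp).2, rfl⟩, rfl⟩
  · rw [Set.disjoint_left]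
    rintro _ hp ⟨s, hs, rfl⟩
    exact hs ((hKp s).1 hp).2

lemma F_mem_interior {T : Set (ℕ × ℝ)} (hT : Fil T) : F ∈ interior (cl T) := by
  obtain ⟨K, hK, h1, h2, _⟩ := F_nbhd hT
  exact mem_interior.2 ⟨_, h2, (clopen_closure hK).2, h1⟩

lemma F_not_mem {T : Set (ℕ × ℝ)} (hT : Fil Tᶜ) : F ∉ cl T := by
  obtain ⟨K, hK, h1, _, h2⟩ := F_nbhd hT
  rw [compl_compl] at h2
  intro h
  exact Set.disjoint_left.1 (closure_disj hK h2) h1 h

lemma Fil_compl_of_countable {T : Set (ℕ × ℝ)} (hT : T.Countable) : Fil Tᶜ := by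
  refine Filter.Eventually.of_forall ?_
  intro n
  refine (countable_layer hT n).mono ?_
  intro x hx
  simpa using hx

lemma Fil.nonempty_inter {T R : Set (ℕ × ℝ)} (hT : Fil T) (hR : Fil R) : (T ∩ R).Nonempty := by
  obtain ⟨n, h1, h2⟩ := (hT.and hR).exists
  by_contra hcon
  rw [not_nonempty_iff_eq_empty] at hcon
  apply not_countable_real
  refine (h1.union h2).mono ?_
  intro x _
  by_contra hx
  simp only [mem_union, mem_ofPred_eq, not_or, not_not] at hx
  have : (n, x) ∈ T ∩ R := hx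
  rw [hcon] at this
  exact this

/-- A point of `X0` in the closure of `T` is in the closure of a countable subset of `T`. -/
lemma X0_small {y : YY} (hy : y ∈ X0) {T : Set (ℕ × ℝ)} (hT : y ∈ cl T) :
    ∃ R : Set (ℕ × ℝ), R.Countable ∧ R ⊆ T ∧ y ∈ cl R := by
  obtain ⟨T', hT', hy'⟩ := hy
  refine ⟨T' ∩ T, hT'.mono inter_subset_left, inter_subset_right, ?_⟩
  rw [← inter_union_sdiff T' T, cl_union] at hy'
  rcases hy' with h | h
  · exact h
  · exfalso
    have h1 : Disjoint (cl (T' \ T)) (cl T) :=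
      cl_disj (countable_layer (hT'.mono sdiff_subset)) disjoint_sdiff_left
    exact Set.disjoint_left.1 h1 h hT

/-- The members of the lattice. -/
def LL (T : Set (ℕ × ℝ)) : Prop := T.Countable ∨ Fil T

/-- The space. -/
def XX : Set YY := X0 ∪ {F}

lemma cl_subset_XX {T : Set (ℕ × ℝ)} (hT : T.Countable) : cl T ⊆ XX :=
  fun _ hy => Or.inl ⟨T, hT, hy⟩

lemma F_mem_XX : F ∈ XX := Or.inr rfl

/-- The trace of the closure of `T` on `XX` -/
noncomputable def tr (T : Set (ℕ × ℝ)) : Set XX := Subtype.val ⁻¹' (cl T)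

lemma mem_tr {T : Set (ℕ × ℝ)} {x : XX} : x ∈ tr T ↔ (x : YY) ∈ cl T := Iff.rfl

lemma isClopen_tr {T : Set (ℕ × ℝ)} (hT : Fil T ∨ F ∉ cl T) : IsClopen (tr T) := by
  refine ⟨(isClosed_cl T).preimage continuous_subtype_val, ?_⟩
  rw [isOpen_iff_mem_nhds]
  rintro ⟨y, hy⟩ hyT
  have hyT' : y ∈ cl T := hyT
  have h1 : cl T ∈ 𝓝 y := by
    rcases hy with hy | hy
    · obtain ⟨R, hR, hRT, hyR⟩ := X0_small hy hyT'
      exact Filter.mem_of_superset ((isOpen_cl (countable_layer hR)).mem_nhds hyR) (cl_mono hRT)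
    · rw [mem_singleton_iff] at hy
      subst hy
      rcases hT with hT | hT
      · exact mem_interior_iff_mem_nhds.1 (F_mem_interior hT)
      · exact absurd hyT' hT
  exact continuous_subtype_val.continuousAt.preimage_mem_nhds h1

lemma LL.isClopen {T : Set (ℕ × ℝ)} (hT : LL T) : IsClopen (tr T) := by
  rcases hT with hT | hT
  · exact isClopen_tr (Or.inr (F_not_mem (Fil_compl_of_countable hT)))
  · exact isClopen_tr (Or.inl hT)

lemma tr_disj {T R : Set (ℕ × ℝ)} (hT : LL T) (hR : LL R) :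
    Disjoint (tr T) (tr R) ↔ Disjoint T R := by
  constructor
  · intro h
    rw [Set.disjoint_left]
    intro s hs hs'
    have hx : j s ∈ XX := Or.inl (j_mem_X0 s)
    have h1 : (⟨j s, hx⟩ : XX) ∈ tr T := mem_tr.2 (j_mem_cl.2 hs)
    have h2 : (⟨j s, hx⟩ : XX) ∈ tr R := mem_tr.2 (j_mem_cl.2 hs')
    exact Set.disjoint_left.1 h h1 h2
  · intro h
    rw [Set.disjoint_left]
    rintro ⟨y, hy⟩ h1 h2
    have h1' : y ∈ cl T := h1
    have h2' : y ∈ cl R := h2
    rcases hy with hy | hy
    · obtain ⟨Q, hQ, hQT, hyQ⟩ := X0_small hy h1'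
      exact Set.disjoint_left.1 (cl_disj (countable_layer hQ) (h.mono_left hQT)) hyQ h2'
    · rw [mem_singleton_iff] at hy
      subst hy
      rcases hT with hT | hT
      · exact F_not_mem (Fil_compl_of_countable hT) h1'
      · rcases hR with hR | hR
        · exact F_not_mem (Fil_compl_of_countable hR) h2'
        · obtain ⟨s, hs⟩ := hT.nonempty_inter hR
          exact Set.disjoint_left.1 h hs.1 hs.2

lemma LL.iUnion {c : Set (Set (ℕ × ℝ))} (hc : c.Countable) (h : ∀ T ∈ c, LL T) : LL (⋃₀ c) := by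
  by_cases h1 : ∃ T ∈ c, Fil T
  · obtain ⟨T, hT, hT'⟩ := h1
    exact Or.inr (hT'.mono (subset_sUnion_of_mem hT))
  · left
    refine hc.sUnion ?_
    intro T hT
    rcases h T hT with h2 | h2
    · exact h2
    · exact absurd ⟨T, hT, h2⟩ h1

/-- The base. -/
def BB : Set (Set XX) := {B | ∃ T, LL T ∧ B = tr T}

lemma BB_clopen {B : Set XX} (hB : B ∈ BB) : IsClopen B := by
  obtain ⟨T, hT, rfl⟩ := hB
  exact hT.isClopen

lemma BB_basis : TopologicalSpace.IsTopologicalBasis BB := by
  refine TopologicalSpace.isTopologicalBasis_of_isOpen_of_nhds (fun u hu => (BB_clopen hu).2) ?_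
  rintro ⟨y, hy⟩ u hyu hu
  obtain ⟨O, hO, rfl⟩ := isOpen_induced_iff.1 hu
  have hyO : y ∈ O := hyu
  obtain ⟨V, hV, hVo, hVO⟩ : ∃ V : Set YY, y ∈ V ∧ IsOpen V ∧ closure V ⊆ O := by
    obtain ⟨W, hW, hWc, hWO⟩ := exists_mem_nhds_isClosed_subset (hO.mem_nhds hyO)
    exact ⟨interior W, mem_interior_iff_mem_nhds.2 hW, isOpen_interior,
      (closure_minimal interior_subset hWc).trans hWO⟩
  have hsub : cl {s | j s ∈ V} ⊆ O := by
    refine Subset.trans (closure_mono ?_) hVO
    rintro _ ⟨_, ⟨s, hs, rfl⟩, rfl⟩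
    exact hs
  rcases hy with hy | hy
  · obtain ⟨T, hT, hyT⟩ := hy
    refine ⟨tr (T ∩ {s | j s ∈ V}), ⟨_, Or.inl (hT.mono inter_subset_left), rfl⟩, ?_, ?_⟩
    · rw [mem_tr]
      show y ∈ cl _
      rw [cl, mem_closure_iff]
      intro o ho hyo
      obtain ⟨_, ⟨hz1, hz2⟩, _, ⟨s, hs, rfl⟩, rfl⟩ :=
        mem_closure_iff.1 hyT (o ∩ V) (ho.inter hVo) ⟨hyo, hV⟩
      exact ⟨_, hz1, _, ⟨s, ⟨hs, hz2⟩, rfl⟩, rfl⟩
    · intro x hx
      exact hsub (cl_mono inter_subset_right hx)
  · rw [mem_singleton_iff] at hy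
    subst hy
    have hF : Fil {s | j s ∈ V} := by
      have h1 : ∀ᶠ n in (hyperfilter ℕ : Filter ℕ), ι (pinf n) ∈ V :=
        tendsto_F (hVo.mem_nhds hV)
      refine Filter.Eventually.mono h1 ?_
      intro n hn
      exact isOpen_PP.1 (hVo.preimage continuous_stoneCechUnit) n hn
    exact ⟨tr {s | j s ∈ V}, ⟨_, Or.inr hF, rfl⟩,
      mem_tr.2 (interior_subset (F_mem_interior hF)), fun x hx => hsub hx⟩

lemma BB_pretty (C D : Set (Set XX)) (hC : C ⊆ BB) (hCc : C.Countable) (hD : D ⊆ BB)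
    (hCD : ∀ U ∈ C, ∀ V ∈ D, Disjoint U V) :
    ∃ W ∈ BB, (∀ U ∈ C, U ⊆ W) ∧ ∀ V ∈ D, Disjoint W V := by
  classical
  have hC' : ∀ U : Set XX, U ∈ C → ∃ T, LL T ∧ U = tr T := fun U hU => hC hU
  choose! t ht1 ht2 using hC'
  have hLL : LL (⋃₀ (t '' C)) := by
    refine LL.iUnion (hCc.image t) ?_
    rintro _ ⟨U, hU, rfl⟩
    exact ht1 U hU
  refine ⟨tr (⋃₀ (t '' C)), ⟨_, hLL, rfl⟩, ?_, ?_⟩
  · intro U hU
    have h1 : U = tr (t U) := ht2 U hU
    rw [h1]
    intro x hx
    have h3 : t U ∈ t '' C := ⟨U, hU, rfl⟩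
    exact cl_mono (subset_sUnion_of_mem h3) hx
  · intro V hV
    obtain ⟨R, hR, rfl⟩ := hD hV
    rw [tr_disj hLL hR, disjoint_sUnion_left]
    rintro _ ⟨U, hU, rfl⟩
    rw [← tr_disj (ht1 U hU) hR, ← ht2 U hU]
    exact hCD U hU _ hV

lemma tr_compact {T : Set (ℕ × ℝ)} (hT : T.Countable) : IsCompact (tr T) := by
  rw [Subtype.isCompact_iff, tr, Subtype.image_preimage_coe,
    inter_eq_self_of_subset_right (cl_subset_XX hT)]
  exact (isClosed_cl T).isCompact

lemma BB_cocompact :
    @CompactSpace XX (TopologicalSpace.generateFrom ((fun B : Set XX => (closure B)ᶜ) '' BB)) := by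
  refine @compactSpace_generateFrom XX (TopologicalSpace.generateFrom
    ((fun B : Set XX => (closure B)ᶜ) '' BB)) _ rfl ?_
  intro P hP hcov
  have hF : (⟨F, F_mem_XX⟩ : XX) ∈ ⋃₀ P := by rw [hcov]; trivial
  obtain ⟨p0, hp0, hFp⟩ := hF
  obtain ⟨B0, hB0, hB0p⟩ := hP hp0
  obtain ⟨T0, hT0, rfl⟩ := hB0
  simp only at hB0p
  rw [hT0.isClopen.1.closure_eq] at hB0p
  subst hB0p
  have hT0c : T0.Countable := by
    rcases hT0 with h | h
    · exact h
    · exact absurd (mem_tr.2 (interior_subset (F_mem_interior h))) hFp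
  have hcomp := tr_compact hT0c
  have hopen : ∀ p ∈ P, IsOpen p := by
    intro p hp
    obtain ⟨B, hB, rfl⟩ := hP hp
    exact isOpen_compl_iff.2 isClosed_closure
  obtain ⟨Q, hQ⟩ := hcomp.elim_finite_subcover (fun p : P => p.1) (fun p => hopen p.1 p.2)
    (by rw [← sUnion_eq_iUnion, hcov]; exact subset_univ _)
  refine ⟨insert (tr T0)ᶜ (Subtype.val '' (Q : Set P)), ?_, ?_, ?_⟩
  · refine insert_subset hp0 ?_
    rintro _ ⟨p, _, rfl⟩
    exact p.2
  · exact (Q.finite_toSet.image _).insert _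
  · rw [sUnion_insert]
    refine eq_univ_of_forall ?_
    intro x
    by_cases hx : x ∈ tr T0
    · obtain ⟨p, hp, hxp⟩ := mem_iUnion₂.1 (hQ hx)
      exact Or.inr ⟨p.1, ⟨p, hp, rfl⟩, hxp⟩
    · exact Or.inl hx

/-- The bad clopen sets. -/
def CC (n : ℕ) : Set (ℕ × ℝ) := {s | s.1 = n ∧ s.2 < 0}

lemma Fil_CC_compl (n : ℕ) : Fil (CC n)ᶜ := by
  have h1 : ∀ᶠ m in (hyperfilter ℕ : Filter ℕ), m ≠ n := by
    have h2 : ({n}ᶜ : Set ℕ) ∈ hyperfilter ℕ := by
      apply Filter.mem_hyperfilter_of_finite_compl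
      simp
    exact h2
  refine h1.mono ?_
  intro m hm
  convert countable_empty (α := ℝ) using 1
  ext x
  simp only [CC, mem_ofPred_eq, mem_compl_iff, not_not, mem_empty_iff_false, iff_false]
  exact fun h => hm h.1

lemma not_countable_Iio : ¬ (Iio (0 : ℝ)).Countable := by
  intro h
  have := h.le_aleph0
  rw [Cardinal.mk_Iio_real] at this
  exact absurd this (not_le.2 Cardinal.aleph0_lt_continuum)

lemma not_countable_Ici : ¬ (Ici (0 : ℝ)).Countable := by
  intro h
  have := h.le_aleph0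
  rw [Cardinal.mk_Ici_real] at this
  exact absurd this (not_le.2 Cardinal.aleph0_lt_continuum)

lemma not_bd : ¬ IsClopen (closure (⋃ n, tr (CC n))) := by
  intro h
  -- `F` is in the closure
  have hF : (⟨F, F_mem_XX⟩ : XX) ∈ closure (⋃ n, tr (CC n)) := by
    rw [mem_closure_iff]
    intro o ho hFo
    obtain ⟨O, hO, rfl⟩ := isOpen_induced_iff.1 ho
    have h1 : ∀ᶠ n in (hyperfilter ℕ : Filter ℕ), ι (pinf n) ∈ O :=
      tendsto_F (hO.mem_nhds hFo)
    obtain ⟨n, hn⟩ := h1.exists
    have h2 := isOpen_PP.1 (hO.preimage continuous_stoneCechUnit) n hn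
    by_contra hcon
    apply not_countable_Iio
    refine h2.mono ?_
    intro x hx hxO
    apply hcon
    refine ⟨⟨j (n, x), Or.inl (j_mem_X0 _)⟩, hxO, mem_iUnion.2 ⟨n, mem_tr.2 (j_mem_cl.2 ?_)⟩⟩
    exact ⟨rfl, hx⟩
  -- so an open neighbourhood of it is contained in the closure
  obtain ⟨O, hO, hOeq⟩ := isOpen_induced_iff.1 h.2
  have hFO : F ∈ O := by
    have : (⟨F, F_mem_XX⟩ : XX) ∈ Subtype.val ⁻¹' O := by rw [hOeq]; exact hF
    exact this
  have h1 : ∀ᶠ n in (hyperfilter ℕ : Filter ℕ), ι (pinf n) ∈ O :=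
    tendsto_F (hO.mem_nhds hFO)
  obtain ⟨n, hn⟩ := h1.exists
  have h2 := isOpen_PP.1 (hO.preimage continuous_stoneCechUnit) n hn
  apply not_countable_Ici
  refine h2.mono ?_
  intro x hx hxO
  have hx1 : (⟨j (n, x), Or.inl (j_mem_X0 _)⟩ : XX) ∈ closure (⋃ n, tr (CC n)) := by
    rw [← hOeq]
    exact hxO
  -- `j (n,x)` is isolated
  have hiso : IsOpen (tr {(n, x)}) := (LL.isClopen (Or.inl (countable_singleton _))).2
  obtain ⟨z, hz1, hz2⟩ := mem_closure_iff.1 hx1 _ hiso (mem_tr.2 (j_mem_cl.2 rfl))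
  obtain ⟨m, hm⟩ := mem_iUnion.1 hz2
  have hd : Disjoint (cl {(n, x)}) (cl (CC m)) := by
    refine cl_disj (fun n => countable_layer (countable_singleton _) n) ?_
    rw [Set.disjoint_singleton_left]
    rintro ⟨_, h3⟩
    have h3' : x < 0 := h3
    exact absurd (show (0 : ℝ) ≤ x from hx) (not_le.2 h3')
  exact Set.disjoint_left.1 hd hz1 hm

/-- The negation of the preceding statement: Any Tychonoff space with a cocompact pretty base of clopen sets that embeds in some Tychonoff F-space is basically disconnected: the closure of any countable union of clopen sets is clopen. -/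
theorem result :
    ¬ (∀ (X : Type) [TopologicalSpace X] [T35Space X],
    (∃ 𝓑 : Set (Set X),
      (∀ B ∈ 𝓑, IsClopen B) ∧
      TopologicalSpace.IsTopologicalBasis 𝓑 ∧
      (∀ C D : Set (Set X), C ⊆ 𝓑 → C.Countable → D ⊆ 𝓑 →
        (∀ U ∈ C, ∀ V ∈ D, Disjoint U V) →
        ∃ W ∈ 𝓑, (∀ U ∈ C, U ⊆ W) ∧ ∀ V ∈ D, Disjoint W V) ∧
      @CompactSpace X (TopologicalSpace.generateFrom ((fun B : Set X => (closure B)ᶜ) '' 𝓑))) →
    (∃ (Y : Type) (_ : TopologicalSpace Y), T35Space Y ∧
      (∀ f : Y → ℝ, Continuous f →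
        ∀ g : {y : Y // f y ≠ 0} → ℝ, Continuous g → (∃ M : ℝ, ∀ y, |g y| ≤ M) →
          ∃ h : Y → ℝ, Continuous h ∧ (∃ M : ℝ, ∀ y, |h y| ≤ M) ∧
            ∀ y : {y : Y // f y ≠ 0}, h y.1 = g y) ∧
      ∃ e : X → Y, Topology.IsEmbedding e) →
    ∀ s : ℕ → Set X, (∀ n, IsClopen (s n)) → IsClopen (closure (⋃ n, s n))) := by
  intro H
  refine not_bd (H XX ⟨BB, fun B hB => BB_clopen hB, BB_basis, ?_, BB_cocompact⟩
    ⟨YY, inferInstance, inferInstance, fspace, Subtype.val, IsEmbedding.subtypeVal⟩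
    (fun n => tr (CC n)) (fun n => isClopen_tr (Or.inr (F_not_mem (Fil_CC_compl n)))))
  intro C D hC hCc hD hCD
  exact BB_pretty C D hC hCc hD hCD

end Pool.Agent.S13478
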