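-- Proof of the frozen statement S13519: compact spaces splittable over Eberlein compacta are Eberlein.
import Pool.Statements.S13519

set_option autoImplicit false
open Pool Pool.MP_89920a_gt

namespace Pool.Agent.S13519

open Set Topology Cardinal Filter

/-- A continuous map of `X` to `c₀(Γ)` (pointwise topology) with values in the unit ball. -/
def EMap {X : Type} [TopologicalSpace X] {Γ : Type} (g : X → Γ → ℝ) : Prop :=
  Continuous g ∧ (∀ x γ, |g x γ| ≤ 1) ∧ ∀ x, ∀ ε : ℝ, 0 < ε → {γ : Γ | ε < |g x γ|}.Finite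

/-- the splitting property -/
def Splits (X : Type) [TopologicalSpace X] : Prop :=
  ∀ A : Set X, ∃ (Γ : Type) (g : X → Γ → ℝ), EMap g ∧ ∀ x y, g x = g y → x ∈ A → y ∈ A

lemma emap_prod {X : Type} [TopologicalSpace X] (Γ : ℕ → Type) (g : ∀ n, X → Γ n → ℝ)
    (hg : ∀ n, EMap (g n)) :
    ∃ (Δ : Type) (h : X → Δ → ℝ), EMap h ∧ ∀ x y, h x = h y → ∀ n, g n x = g n y := by
  refine ⟨Σ n, Γ n, fun x p => g p.1 x p.2 / ((p.1 : ℝ) + 1), ⟨?_, ?_, ?_⟩, ?_⟩
  · refine continuous_pi fun p => ?_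
    have h1 : Continuous fun x => g p.1 x p.2 :=
      (continuous_apply p.2).comp (hg p.1).1
    exact h1.div_const _
  · intro x p
    have h1 := (hg p.1).2.1 x p.2
    have h2 : (0 : ℝ) < (p.1 : ℝ) + 1 := by positivity
    simp only [abs_div, abs_of_pos h2]
    rw [div_le_one h2]
    have : (0 : ℝ) ≤ (p.1 : ℝ) := by positivity
    linarith
  · intro x ε hε
    obtain ⟨N, hN⟩ := exists_nat_gt (1 / ε)
    have hfin : (⋃ n ∈ Finset.range N, (Sigma.mk n) '' {γ : Γ n | ε < |g n x γ|}).Finite := by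
      apply Set.Finite.biUnion (Finset.finite_toSet _)
      intro n _
      exact ((hg n).2.2 x ε hε).image _
    refine hfin.subset ?_
    rintro ⟨n, γ⟩ hp
    simp only [mem_ofPred_eq] at hp
    have h2 : (0 : ℝ) < (n : ℝ) + 1 := by positivity
    rw [abs_div, abs_of_pos h2, lt_div_iff₀ h2] at hp
    have h1 := (hg n).2.1 x γ
    have hnN : n < N := by
      by_contra hcon
      push Not at hcon
      have : (N : ℝ) ≤ n := by exact_mod_cast hcon
      have h3 : 1 / ε < (n : ℝ) + 1 := by linarith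
      rw [div_lt_iff₀ hε] at h3
      nlinarith
    simp only [mem_iUnion, Finset.mem_range]
    refine ⟨n, hnN, γ, ?_, rfl⟩
    simp only [mem_ofPred_eq]
    have hn0 : (0 : ℝ) ≤ (n : ℝ) := by positivity
    nlinarith
  · intro x y hxy n
    funext γ
    have := congrFun hxy ⟨n, γ⟩
    have h2 : ((n : ℝ) + 1) ≠ 0 := by positivity
    simpa [div_left_inj' h2] using this

lemma emap_prod2 {X : Type} [TopologicalSpace X] {Γ₁ Γ₂ : Type} (g₁ : X → Γ₁ → ℝ)
    (g₂ : X → Γ₂ → ℝ) (h₁ : EMap g₁) (h₂ : EMap g₂) :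
    ∃ (Δ : Type) (h : X → Δ → ℝ), EMap h ∧ ∀ x y, h x = h y → g₁ x = g₁ y ∧ g₂ x = g₂ y := by
  refine ⟨Γ₁ ⊕ Γ₂, fun x => Sum.elim (g₁ x) (g₂ x), ⟨?_, ?_, ?_⟩, ?_⟩
  · refine continuous_pi fun p => ?_
    rcases p with γ | γ
    · exact (continuous_apply γ).comp h₁.1
    · exact (continuous_apply γ).comp h₂.1
  · rintro x (γ | γ)
    · exact h₁.2.1 x γ
    · exact h₂.2.1 x γ
  · intro x ε hε
    have := ((h₁.2.2 x ε hε).image (Sum.inl : Γ₁ → Γ₁ ⊕ Γ₂)).union
      ((h₂.2.2 x ε hε).image (Sum.inr : Γ₂ → Γ₁ ⊕ Γ₂))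
    refine this.subset ?_
    rintro (γ | γ) hγ
    · exact Or.inl ⟨γ, hγ, rfl⟩
    · exact Or.inr ⟨γ, hγ, rfl⟩
  · intro x y hxy
    constructor
    · funext γ
      exact congrFun hxy (Sum.inl γ)
    · funext γ
      exact congrFun hxy (Sum.inr γ)

/-- Key principle: every colouring by at most continuum many colours is constant on the fibres of a
map to an Eberlein compactum. -/
lemma key {X : Type} [TopologicalSpace X] (hX : Splits X) {C : Type} (hC : #C ≤ 𝔠) (c : X → C) :
    ∃ (Γ : Type) (g : X → Γ → ℝ), EMap g ∧ ∀ x y, g x = g y → c x = c y := by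
  have h1 : #C ≤ #(Set ℕ) := by rwa [mk_set_nat]
  obtain ⟨j⟩ := Cardinal.le_def _ _ |>.1 h1
  choose Γ g hg hgs using fun n : ℕ => hX {x | n ∈ j (c x)}
  obtain ⟨Δ, h, hh, hhs⟩ := emap_prod Γ g hg
  refine ⟨Δ, h, hh, fun x y hxy => ?_⟩
  apply j.injective
  ext n
  exact ⟨fun hn => hgs n x y (hhs x y hxy n) hn, fun hn => hgs n y x (hhs x y hxy n).symm hn⟩

lemma support_countable {Γ : Type} (z : Γ → ℝ) (hz : ∀ ε : ℝ, 0 < ε → {γ : Γ | ε < |z γ|}.Finite) :
    {γ | z γ ≠ 0}.Countable := by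
  have : {γ | z γ ≠ 0} ⊆ ⋃ n : ℕ, {γ | 1 / ((n : ℝ) + 1) < |z γ|} := by
    intro γ hγ
    have h0 : 0 < |z γ| := abs_pos.2 hγ
    obtain ⟨n, hn⟩ := exists_nat_one_div_lt h0
    exact mem_iUnion.2 ⟨n, hn⟩
  refine Set.Countable.mono this (Set.countable_iUnion fun n => ?_)
  exact (hz _ (by positivity)).countable

lemma sigma_tight {Γ : Type} (G : Set (Γ → ℝ)) (z : Γ → ℝ) (hz : z ∈ closure G)
    (hzc : {γ | z γ ≠ 0}.Countable) (hG : ∀ b ∈ G, {γ | b γ ≠ 0}.Countable) :
    ∃ B ⊆ G, B.Countable ∧ z ∈ closure B := by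
  -- approximations
  have happ : ∀ (F : Set Γ) (n : ℕ), ∃ b ∈ G, F.Finite → ∀ γ ∈ F, |b γ - z γ| < 1 / ((n : ℝ) + 1) := by
    intro F n
    by_cases hF : F.Finite
    · have hopen : IsOpen {b : Γ → ℝ | ∀ γ ∈ F, |b γ - z γ| < 1 / ((n : ℝ) + 1)} := by
        have : {b : Γ → ℝ | ∀ γ ∈ F, |b γ - z γ| < 1 / ((n : ℝ) + 1)} =
            ⋂ γ ∈ F, {b : Γ → ℝ | |b γ - z γ| < 1 / ((n : ℝ) + 1)} := by
          ext b; simp
        rw [this]
        refine hF.isOpen_biInter fun γ _ => ?_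
        exact isOpen_lt (by fun_prop) continuous_const
      obtain ⟨b, hb1, hb2⟩ := mem_closure_iff.1 hz _ hopen (by
        intro γ _
        simp only [sub_self, abs_zero]
        positivity)
      exact ⟨b, hb2, fun _ => hb1⟩
    · obtain ⟨b, hb⟩ := closure_nonempty_iff.1 ⟨z, hz⟩
      exact ⟨b, hb, fun h => absurd h hF⟩
  choose b hbG hb using happ
  -- closing off
  let step : Set Γ → Set Γ := fun S =>
    S ∪ ⋃ F ∈ {F : Set Γ | F.Finite ∧ F ⊆ S}, ⋃ n : ℕ, {γ | b F n γ ≠ 0}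
  let S : ℕ → Set Γ := fun k => Nat.rec {γ | z γ ≠ 0} (fun _ T => step T) k
  have hS0 : S 0 = {γ | z γ ≠ 0} := rfl
  have hSs : ∀ k, S (k + 1) = step (S k) := fun k => rfl
  have hScount : ∀ k, (S k).Countable := by
    intro k
    induction k with
    | zero => rw [hS0]; exact hzc
    | succ k ih =>
      rw [hSs]
      refine ih.union ?_
      refine Set.Countable.biUnion (Set.countable_ofPred_finite_subset ih) ?_
      intro F _
      exact Set.countable_iUnion fun n => hG _ (hbG F n)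
  have hSmono : Monotone S := monotone_nat_of_le_succ fun k => by
    rw [hSs]; exact subset_union_left
  let T : Set Γ := ⋃ k, S k
  have hTc : T.Countable := Set.countable_iUnion hScount
  have hfinT : ∀ F : Set Γ, F.Finite → F ⊆ T → ∃ k, F ⊆ S k := by
    intro F hF hFT
    induction F, hF using Set.Finite.induction_on with
    | empty => exact ⟨0, empty_subset _⟩
    | @insert a F _ _ ih =>
      obtain ⟨k, hk⟩ := ih ((subset_insert _ _).trans hFT)
      obtain ⟨m, hm⟩ := mem_iUnion.1 (hFT (mem_insert a F))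
      refine ⟨max k m, ?_⟩
      intro γ hγ
      rcases hγ with rfl | hγ
      · exact hSmono (le_max_right _ _) hm
      · exact hSmono (le_max_left _ _) (hk hγ)
  let B : Set (Γ → ℝ) := ⋃ F ∈ {F : Set Γ | F.Finite ∧ F ⊆ T}, ⋃ n : ℕ, {b F n}
  refine ⟨B, ?_, ?_, ?_⟩
  · intro x hx
    simp only [B, mem_iUnion, mem_singleton_iff] at hx
    obtain ⟨F, _, n, rfl⟩ := hx
    exact hbG F n
  · refine Set.Countable.biUnion (Set.countable_ofPred_finite_subset hTc) ?_
    intro F _
    exact Set.countable_iUnion fun n => countable_singleton _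
  · have hbasis := hasBasis_pi (fun γ : Γ => Metric.nhds_basis_ball (x := z γ))
    rw [← nhds_pi] at hbasis
    rw [mem_closure_iff_nhds_basis hbasis]
    rintro ⟨F, ε⟩ ⟨hF, hε⟩
    simp only at hF hε
    -- choose n
    obtain ⟨n, hn⟩ : ∃ n : ℕ, ∀ γ ∈ F, 1 / ((n : ℝ) + 1) < ε γ := by
      induction F, hF using Set.Finite.induction_on with
      | empty => exact ⟨0, by simp⟩
      | @insert a F _ _ ih =>
        obtain ⟨n, hn⟩ := ih fun γ hγ => hε γ (mem_insert_of_mem _ hγ)
        obtain ⟨m, hm⟩ := exists_nat_one_div_lt (hε a (mem_insert _ _))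
        refine ⟨max n m, ?_⟩
        intro γ hγ
        rcases hγ with rfl | hγ
        · refine lt_of_le_of_lt ?_ hm
          apply one_div_le_one_div_of_le (by positivity)
          have : (m : ℝ) ≤ ((max n m : ℕ) : ℝ) := by exact_mod_cast le_max_right n m
          linarith
        · refine lt_of_le_of_lt ?_ (hn γ hγ)
          apply one_div_le_one_div_of_le (by positivity)
          have : (n : ℝ) ≤ ((max n m : ℕ) : ℝ) := by exact_mod_cast le_max_left n m
          linarith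
    refine ⟨b (F ∩ T) n, ?_, ?_⟩
    · simp only [B, mem_iUnion, mem_singleton_iff]
      exact ⟨F ∩ T, ⟨hF.subset inter_subset_left, inter_subset_right⟩, n, rfl⟩
    · intro γ hγ
      simp only [Metric.mem_ball, Real.dist_eq]
      by_cases hγT : γ ∈ T
      · exact (hb (F ∩ T) n (hF.subset inter_subset_left) γ ⟨hγ, hγT⟩).trans (hn γ hγ)
      · have h1 : z γ = 0 := by
          by_contra hne
          exact hγT (mem_iUnion.2 ⟨0, hne⟩)
        have h2 : b (F ∩ T) n γ = 0 := by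
          by_contra hne
          obtain ⟨k, hk⟩ := hfinT (F ∩ T) (hF.subset inter_subset_left) inter_subset_right
          apply hγT
          refine mem_iUnion.2 ⟨k + 1, ?_⟩
          rw [hSs]
          refine Or.inr ?_
          simp only [mem_iUnion]
          exact ⟨F ∩ T, ⟨hF.subset inter_subset_left, hk⟩, n, hne⟩
        rw [h1, h2]
        simpa using hε γ hγ

section Tight

variable {X : Type} [TopologicalSpace X] [CompactSpace X] [T2Space X]

lemma tight_aux (hX : Splits X) (A : Set X)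
    (hA : ∀ B ⊆ A, B.Countable → closure B ⊆ A) : IsClosed A := by
  rw [← closure_subset_iff_isClosed]
  intro x hx
  obtain ⟨Γ, g, hg, hgs⟩ := hX A
  have h1 : g x ∈ closure (g '' A) := image_closure_subset_closure_image hg.1 ⟨x, hx, rfl⟩
  obtain ⟨B', hB'A, hB'c, hxB'⟩ := sigma_tight (g '' A) (g x) h1
    (support_countable _ (hg.2.2 x)) (by
      rintro b ⟨a, _, rfl⟩
      exact support_countable _ (hg.2.2 a))
  obtain ⟨B, hBA, hBc, hBB'⟩ : ∃ B ⊆ A, B.Countable ∧ g '' B = B' := by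
    have hne : Nonempty X := ⟨x⟩
    choose! s hs using hB'A
    refine ⟨s '' B', ?_, hB'c.image s, ?_⟩
    · rintro _ ⟨b, hb, rfl⟩
      exact (hs hb).1
    · rw [image_image]
      apply Subset.antisymm
      · rintro _ ⟨b, hb, rfl⟩
        simp only
        rw [(hs hb).2]
        exact hb
      · intro b hb
        exact ⟨b, hb, (hs hb).2⟩
  have hcl : IsClosed (g '' closure B) := (isClosed_closure.isCompact.image hg.1).isClosed
  have h2 : g x ∈ g '' closure B := by
    have h3 : closure B' ⊆ g '' closure B := by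
      apply closure_minimal _ hcl
      rw [← hBB']
      exact image_mono subset_closure
    exact h3 hxB'
  obtain ⟨b, hb, hbx⟩ := h2
  exact hgs b x hbx (hA B hBA hBc hb)

lemma tight (hX : Splits X) (A : Set X) (x : X) (hx : x ∈ closure A) :
    ∃ B ⊆ A, B.Countable ∧ x ∈ closure B := by
  have h1 : IsClosed {y : X | ∃ B ⊆ A, B.Countable ∧ y ∈ closure B} := by
    apply tight_aux hX
    intro B hB hBc y hy
    have hB' : ∀ b ∈ B, ∃ D : Set X, D ⊆ A ∧ D.Countable ∧ b ∈ closure D := fun b hb => hB hb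
    choose! D hD using hB'
    refine ⟨⋃ b ∈ B, D b, iUnion₂_subset fun b hb => (hD b hb).1,
      hBc.biUnion fun b hb => (hD b hb).2.1, ?_⟩
    refine closure_minimal ?_ isClosed_closure hy
    intro b hb
    exact closure_mono (subset_biUnion_of_mem hb) (hD b hb).2.2
  have h2 : A ⊆ {y : X | ∃ B ⊆ A, B.Countable ∧ y ∈ closure B} := fun a ha =>
    ⟨{a}, singleton_subset_iff.2 ha, countable_singleton a, subset_closure rfl⟩
  exact closure_minimal h2 h1 hx

lemma card_closure_le (hX : Splits X) (P : Set X) (hP : P.Countable) :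
    #(closure P) ≤ 𝔠 := by
  -- maps splitting points
  choose Γ g hg hgs using fun x : X => hX {x}
  have hs : ∀ x : X, ∃ s : ℕ → Option (Γ x), ∀ y ∈ closure P, (∀ m γ, s m = some γ → g x y γ = g x x γ) →
      x ∈ closure P → y = x := by
    intro x
    have hS : (⋃ p ∈ P, {γ | g x p γ ≠ 0}).Countable :=
      hP.biUnion fun p _ => support_countable _ ((hg x).2.2 p)
    obtain ⟨s, hs⟩ := (Set.countable_iff_exists_subset_range (α := Option (Γ x))).1
      (hS.image (some : Γ x → Option (Γ x)))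
    refine ⟨s, fun y hy hys hx => ?_⟩
    have hvan : ∀ y ∈ closure P, ∀ γ, γ ∉ (⋃ p ∈ P, {γ | g x p γ ≠ 0}) → g x y γ = 0 := by
      intro y hy γ hγ
      have hcl : IsClosed {y | g x y γ = 0} :=
        isClosed_eq ((continuous_apply γ).comp (hg x).1) continuous_const
      refine closure_minimal ?_ hcl hy
      intro p hp
      by_contra hne
      exact hγ (mem_biUnion hp hne)
    have heq : g x x = g x y := by
      funext γ
      by_cases hγ : γ ∈ (⋃ p ∈ P, {γ | g x p γ ≠ 0})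
      · obtain ⟨m, hm⟩ := hs ⟨γ, hγ, rfl⟩
        exact (hys m γ hm).symm
      · rw [hvan x hx γ hγ, hvan y hy γ hγ]
    exact hgs x x y heq rfl
  choose s hs using hs
  -- the code
  let V : X → ℕ → ℕ → Set X := fun x n m =>
    {y | ∀ γ, s x m = some γ → |g x y γ - g x x γ| < 1 / ((n : ℝ) + 1)}
  have hVo : ∀ x n m, IsOpen (V x n m) := by
    intro x n m
    rcases h : s x m with _ | γ
    · have : V x n m = Set.univ := by
        ext y; simp [V, h]
      rw [this]; exact isOpen_univ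
    · have : V x n m = {y | |g x y γ - g x x γ| < 1 / ((n : ℝ) + 1)} := by
        ext y; simp [V, h]
      rw [this]
      have hc : Continuous fun y => g x y γ := (continuous_apply γ).comp (hg x).1
      exact isOpen_lt (by fun_prop) continuous_const
  have hVx : ∀ x n m, x ∈ V x n m := by
    intro x n m γ _
    simp only [sub_self, abs_zero]
    positivity
  let code : closure P → (ℕ × ℕ → Set P) := fun x q => {p | (p : X) ∈ V x q.1 q.2}
  have hinj : Function.Injective code := by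
    rintro ⟨x, hx⟩ ⟨y, hy⟩ hxy
    apply Subtype.ext
    simp only
    refine (hs x y hy ?_ hx).symm
    intro m γ hγ
    have hle : ∀ n : ℕ, |g x y γ - g x x γ| ≤ 1 / ((n : ℝ) + 1) := by
      intro n
      have h1 : y ∈ closure (V y n m ∩ P) := by
        rw [mem_closure_iff]
        intro O hO hyO
        obtain ⟨p, hp1, hp2⟩ := mem_closure_iff.1 hy (O ∩ V y n m) (hO.inter (hVo y n m)) ⟨hyO, hVx y n m⟩
        exact ⟨p, hp1.1, hp1.2, hp2⟩
      have h2 : V y n m ∩ P = V x n m ∩ P := by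
        ext p
        constructor
        · rintro ⟨hp1, hp2⟩
          refine ⟨?_, hp2⟩
          have := congrFun hxy (n, m)
          have h3 : (⟨p, hp2⟩ : P) ∈ code ⟨y, hy⟩ (n, m) := hp1
          rw [← this] at h3
          exact h3
        · rintro ⟨hp1, hp2⟩
          refine ⟨?_, hp2⟩
          have := congrFun hxy (n, m)
          have h3 : (⟨p, hp2⟩ : P) ∈ code ⟨x, hx⟩ (n, m) := hp1
          rw [this] at h3
          exact h3
      rw [h2] at h1
      have hcl : IsClosed {y | |g x y γ - g x x γ| ≤ 1 / ((n : ℝ) + 1)} := by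
        have hc : Continuous fun y => g x y γ := (continuous_apply γ).comp (hg x).1
        exact isClosed_le (by fun_prop) continuous_const
      refine closure_minimal ?_ hcl h1
      rintro p ⟨hp, _⟩
      exact (hp γ hγ).le
    by_contra hne
    have hpos : 0 < |g x y γ - g x x γ| := abs_pos.2 (sub_ne_zero.2 hne)
    obtain ⟨n, hn⟩ := exists_nat_one_div_lt hpos
    exact absurd (hle n) (not_le.2 hn)
  have h1 : #(closure P) ≤ #(ℕ × ℕ → Set P) := Cardinal.mk_le_of_injective hinj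
  refine h1.trans ?_
  have hPc : #P ≤ ℵ₀ := Cardinal.le_aleph0_iff_set_countable.2 hP
  have hSP : #(Set P) ≤ 𝔠 := by
    rw [Cardinal.mk_set]
    exact (Cardinal.power_le_power_left two_ne_zero hPc).trans Cardinal.two_power_aleph0.le
  calc #(ℕ × ℕ → Set P) = #(Set P) ^ #(ℕ × ℕ) := by simp
    _ ≤ 𝔠 ^ ℵ₀ := by
        have : #(ℕ × ℕ) = ℵ₀ := by simp
        rw [this]
        exact Cardinal.power_le_power_right hSP
    _ = 𝔠 := Cardinal.continuum_power_aleph0

/-- For every countable `P` there is an Eberlein map injective at all points of `closure P`. -/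
lemma exists_point_splitter (hX : Splits X) (P : Set X) :
    ∃ (Γ : Type) (g : X → Γ → ℝ), EMap g ∧
      (P.Countable → ∀ x ∈ closure P, ∀ y, g y = g x → y = x) := by
  classical
  by_cases hP : P.Countable
  · have hc : #(Option (closure P)) ≤ 𝔠 := by
      rw [Cardinal.mk_option]
      exact (add_le_add (card_closure_le hX P hP) (Cardinal.nat_lt_continuum 1).le).trans
        (by simp)
    obtain ⟨Γ, g, hg, hgc⟩ := key hX hc
      (fun x => if h : x ∈ closure P then some (⟨x, h⟩ : closure P) else none)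
    refine ⟨Γ, g, hg, fun _ x hx y hy => ?_⟩
    have := hgc y x hy
    simp only [hx, dif_pos] at this
    by_cases hy' : y ∈ closure P
    · simp only [hy', dif_pos] at this
      simpa using this
    · simp [hy'] at this
  · exact ⟨PEmpty, fun _ e => e.elim, ⟨continuous_pi fun e => e.elim, fun _ e => e.elim,
      fun _ _ _ => Set.toFinite _⟩, fun h => absurd h hP⟩

end Tight

section Index

/-- the index type: a well-order of type `ω₁` -/
abbrev W : Type := (ℵ_ 1).ord.ToType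

lemma W_mk : #W = ℵ_ 1 := Cardinal.mk_ord_toType _

lemma W_Iio (a : W) : (Iio a).Countable := by
  have h : #(Iio a) < ℵ_ 1 := by
    simpa using Cardinal.mk_Iio_lt a (by simp)
  rw [← Cardinal.le_aleph0_iff_set_countable]
  exact Order.lt_succ_iff.1 (lt_of_lt_of_eq h Cardinal.succ_aleph0.symm)

lemma W_bdd (A : Set W) (hA : A.Countable) : ∃ b, ∀ a ∈ A, a < b := by
  by_contra hcon
  push Not at hcon
  have : (Set.univ : Set W).Countable := by
    have h1 : (⋃ a ∈ A, Iic a).Countable := by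
      refine hA.biUnion fun a _ => ?_
      have : Iic a = insert a (Iio a) := by
        ext x; simp [le_iff_eq_or_lt]
      rw [this]
      exact (W_Iio a).insert a
    refine h1.mono fun b _ => ?_
    obtain ⟨a, ha, hab⟩ := hcon b
    exact mem_biUnion ha hab
  have h2 := Cardinal.le_aleph0_iff_set_countable.2 this
  rw [Cardinal.mk_univ, W_mk] at h2
  exact absurd h2 (not_le.2 Cardinal.aleph0_lt_aleph_one)

instance : Nonempty W := by
  obtain ⟨b, _⟩ := W_bdd ∅ countable_empty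
  exact ⟨b⟩

end Index

section Tree

variable {X : Type} {Γ : Set X → Type} (g : ∀ P : Set X, X → Γ P → ℝ) (p : Set X → X)

/-- the tree of closed sets -/
noncomputable def F (x : X) : W → Set X :=
  WellFounded.fix (r := fun a b : W => a < b) wellFounded_lt
    (fun α F => {y | ∀ β, ∀ h : β < α,
      g {q | ∃ γ, ∃ hγ : γ < β, q = p (F γ (lt_trans hγ h))} y =
      g {q | ∃ γ, ∃ hγ : γ < β, q = p (F γ (lt_trans hγ h))} x})

/-- the chosen points along the branch of `x` -/
def Pt (x : X) (β : W) : Set X := {q | ∃ γ, ∃ _ : γ < β, q = p (F g p x γ)}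

lemma F_eq (x : X) (α : W) :
    F g p x α = {y | ∀ β, β < α → g (Pt g p x β) y = g (Pt g p x β) x} := by
  rw [F, WellFounded.fix_eq]
  rfl

lemma mem_F_iff (x y : X) (α : W) :
    y ∈ F g p x α ↔ ∀ β, β < α → g (Pt g p x β) y = g (Pt g p x β) x := by
  rw [F_eq]; rfl

lemma self_mem_F (x : X) (α : W) : x ∈ F g p x α := by
  rw [mem_F_iff]
  intro β _; rfl

lemma F_anti (x : X) {α β : W} (h : α ≤ β) : F g p x β ⊆ F g p x α := by
  intro y hy
  rw [mem_F_iff] at hy ⊢
  exact fun γ hγ => hy γ (lt_of_lt_of_le hγ h)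

lemma Pt_congr (x y : X) (β : W) (h : ∀ γ < β, F g p x γ = F g p y γ) :
    Pt g p x β = Pt g p y β := by
  ext q
  constructor
  · rintro ⟨γ, hγ, rfl⟩
    exact ⟨γ, hγ, by rw [h γ hγ]⟩
  · rintro ⟨γ, hγ, rfl⟩
    exact ⟨γ, hγ, by rw [h γ hγ]⟩

lemma F_congr (x y : X) (α : W) (h : ∀ β < α, F g p x β = F g p y β)
    (hg : ∀ β < α, g (Pt g p x β) x = g (Pt g p x β) y) : F g p x α = F g p y α := by
  ext z
  rw [mem_F_iff, mem_F_iff]
  have hP : ∀ β < α, Pt g p x β = Pt g p y β := fun β hβ =>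
    Pt_congr g p x y β fun γ hγ => h γ (hγ.trans hβ)
  constructor
  · intro hz β hβ
    rw [← hP β hβ, hz β hβ, hg β hβ]
  · intro hz β hβ
    rw [hg β hβ, hP β hβ, hz β hβ]

lemma F_symm (x y : X) (α : W) (hy : y ∈ F g p x α) : ∀ β ≤ α, F g p y β = F g p x β := by
  intro β
  induction β using WellFoundedLT.induction with
  | ind β ih =>
    intro hβ
    symm
    apply F_congr
    · intro γ hγ
      exact (ih γ hγ (hγ.le.trans hβ)).symm
    · intro γ hγ
      exact ((mem_F_iff g p x y α).1 hy γ (lt_of_lt_of_le hγ hβ)).symm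

lemma Pt_symm (x y : X) (α : W) (hy : y ∈ F g p x α) : Pt g p y α = Pt g p x α :=
  Pt_congr g p y x α fun γ hγ => F_symm g p x y α hy γ hγ.le

lemma Pt_countable (x : X) (α : W) : (Pt g p x α).Countable := by
  have : Pt g p x α ⊆ (fun γ => p (F g p x γ)) '' Iio α := by
    rintro q ⟨γ, hγ, rfl⟩
    exact ⟨γ, hγ, rfl⟩
  exact ((W_Iio α).image _).mono this

end Tree

section Termination

variable {X : Type} [TopologicalSpace X] [CompactSpace X] [T2Space X]
  {Γ : Set X → Type} (g : ∀ P : Set X, X → Γ P → ℝ) (p : Set X → X)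

lemma F_closed (hg : ∀ P, EMap (g P)) (x : X) (α : W) : IsClosed (F g p x α) := by
  have : F g p x α = ⋂ β, ⋂ _ : β < α, {y | g (Pt g p x β) y = g (Pt g p x β) x} := by
    ext y
    rw [mem_F_iff]
    simp
  rw [this]
  exact isClosed_iInter fun β => isClosed_iInter fun _ => isClosed_eq (hg _).1 continuous_const

lemma terminates (hX : Splits X) (hg : ∀ P, EMap (g P))
    (hgs : ∀ P : Set X, P.Countable → ∀ x ∈ closure P, ∀ y, g P y = g P x → y = x)
    (hp : ∀ S : Set X, S.Nonempty → p S ∈ S) (x : X) : ∃ α, F g p x α = {x} := by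
  by_contra hcon
  push Not at hcon
  have hdisj : ∀ α α' : W, α < α' → ∀ z ∈ F g p x α', z ∉ closure (Pt g p x α) := by
    intro α α' hαα' z hz hzc
    have h1 : g (Pt g p x α) z = g (Pt g p x α) x := (mem_F_iff g p x z α').1 hz α hαα'
    have h2 : x = z := hgs _ (Pt_countable g p x α) z hzc x h1.symm
    apply hcon α'
    apply Subset.antisymm
    · intro y hy
      have h3 : g (Pt g p x α) y = g (Pt g p x α) x := (mem_F_iff g p x y α').1 hy α hαα'
      rw [mem_singleton_iff, h2]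
      apply hgs _ (Pt_countable g p x α) z hzc y
      rw [h3, h1]
    · rw [singleton_subset_iff]
      exact self_mem_F g p x α'
  let q : W → X := fun α => p (F g p x α)
  have hq : ∀ α, q α ∈ F g p x α := fun α => hp _ ⟨x, self_mem_F g p x α⟩
  obtain ⟨z, hz⟩ := exists_clusterPt_of_compactSpace (Filter.map q Filter.atTop)
  have hzI : ∀ α : W, z ∈ closure (q '' Ici α) := by
    intro α
    rw [mem_closure_iff_clusterPt]
    refine hz.mono ?_
    rw [Filter.le_principal_iff]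
    exact Filter.image_mem_map (Filter.Ici_mem_atTop α)
  have hzr : z ∈ closure (range q) := by
    obtain ⟨a⟩ := (inferInstance : Nonempty W)
    exact closure_mono (image_subset_range _ _) (hzI a)
  obtain ⟨B, hB, hBc, hzB⟩ := tight hX _ z hzr
  obtain ⟨A, hAc, hAB⟩ : ∃ A : Set W, A.Countable ∧ B ⊆ q '' A := by
    have hB' : ∀ b ∈ B, ∃ a : W, q a = b := fun b hb => hB hb
    choose! r hr using hB'
    refine ⟨r '' B, hBc.image r, ?_⟩
    intro b hb
    exact ⟨r b, ⟨b, hb, rfl⟩, hr b hb⟩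
  obtain ⟨b, hb⟩ := W_bdd A hAc
  obtain ⟨b', hb'⟩ := W_bdd {b} (countable_singleton b)
  have h1 : z ∈ closure (Pt g p x b) := by
    refine closure_mono ?_ hzB
    intro y hy
    obtain ⟨a, ha, rfl⟩ := hAB hy
    exact ⟨a, hb a ha, rfl⟩
  have h2 : z ∈ F g p x b' := by
    refine closure_minimal ?_ (F_closed g p hg x b') (hzI b')
    rintro _ ⟨a, ha, rfl⟩
    exact F_anti g p x ha (hq a)
  exact hdisj b b' (hb' b rfl) z h2 h1

end Termination

section Colour

/-- colour of a point of `c₀(Γ)`: the numbers of large coordinates -/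
noncomputable def col {Γ : Type} (z : Γ → ℝ) : ℕ → ℕ :=
  fun n => {γ | 1 / ((n : ℝ) + 1) < |z γ|}.ncard

lemma mono_compact {Γ : Type} (Z : Set (Γ → ℝ)) (hZ : IsCompact Z)
    (h0 : ∀ z ∈ Z, ∀ ε : ℝ, 0 < ε → {γ | ε < |z γ|}.Finite)
    (hcol : ∀ z ∈ Z, ∀ w ∈ Z, col z = col w) : ∃ j : (Γ → ℝ) → ℝ, Set.InjOn j Z := by
  classical
  have hfin : ∀ n : ℕ, (⋃ z ∈ Z, {γ | 1 / ((n : ℝ) + 1) < |z γ|}).Finite := by
    intro n
    have hpos : (0 : ℝ) < 1 / ((n : ℝ) + 1) := by positivity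
    let V : (Γ → ℝ) → Set (Γ → ℝ) := fun z =>
      {w | ∀ γ ∈ {γ | 1 / ((n : ℝ) + 1) < |z γ|}, 1 / ((n : ℝ) + 1) < |w γ|}
    have hV : ∀ z ∈ Z, V z ∈ 𝓝 z := by
      intro z hz
      have hopen : IsOpen (V z) := by
        have : V z = ⋂ γ ∈ {γ | 1 / ((n : ℝ) + 1) < |z γ|},
            {w : Γ → ℝ | 1 / ((n : ℝ) + 1) < |w γ|} := by
          ext w; simp [V]
        rw [this]
        refine (h0 z hz _ hpos).isOpen_biInter fun γ _ => ?_
        exact isOpen_lt continuous_const (by fun_prop)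
      exact hopen.mem_nhds fun γ hγ => hγ
    obtain ⟨t, htZ, hcov⟩ := hZ.elim_nhds_subcover V hV
    have : (⋃ z ∈ Z, {γ | 1 / ((n : ℝ) + 1) < |z γ|}) ⊆
        ⋃ z ∈ t, {γ | 1 / ((n : ℝ) + 1) < |z γ|} := by
      intro γ hγ
      simp only [mem_iUnion] at hγ
      obtain ⟨w, hw, hγw⟩ := hγ
      obtain ⟨z, hzt, hwz⟩ := mem_iUnion₂.1 (hcov hw)
      have hsub : {γ | 1 / ((n : ℝ) + 1) < |z γ|} ⊆ {γ | 1 / ((n : ℝ) + 1) < |w γ|} :=
        fun γ hγ => hwz γ hγ
      have hcard : {γ | 1 / ((n : ℝ) + 1) < |w γ|}.ncard ≤ {γ | 1 / ((n : ℝ) + 1) < |z γ|}.ncard :=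
        (congrFun (hcol w hw z (htZ z hzt)) n).le
      have heq := Set.eq_of_subset_of_ncard_le hsub hcard (h0 w hw _ hpos)
      refine mem_iUnion₂.2 ⟨z, hzt, ?_⟩
      rw [heq]
      exact hγw
    refine Set.Finite.subset ?_ this
    exact Set.Finite.biUnion (Finset.finite_toSet t) fun z hz => h0 z (htZ z hz) _ hpos
  let S : Set Γ := ⋃ n : ℕ, ⋃ z ∈ Z, {γ | 1 / ((n : ℝ) + 1) < |z γ|}
  have hS : S.Countable := Set.countable_iUnion fun n => (hfin n).countable
  have hout : ∀ z ∈ Z, ∀ γ, γ ∉ S → z γ = 0 := by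
    intro z hz γ hγ
    by_contra hne
    obtain ⟨n, hn⟩ := exists_nat_one_div_lt (abs_pos.2 hne)
    exact hγ (mem_iUnion.2 ⟨n, mem_biUnion hz hn⟩)
  have hinj : Function.Injective (fun (z : Z) (γ : S) => (z : Γ → ℝ) γ) := by
    rintro ⟨z, hz⟩ ⟨w, hw⟩ hzw
    apply Subtype.ext
    funext γ
    by_cases hγ : γ ∈ S
    · exact congrFun hzw ⟨γ, hγ⟩
    · simp only
      rw [hout z hz γ hγ, hout w hw γ hγ]
  have hcard : #Z ≤ #ℝ := by
    refine (Cardinal.mk_le_of_injective hinj).trans ?_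
    have h1 : #(S → ℝ) = #ℝ ^ #S := by simp
    rw [h1, Cardinal.mk_real]
    calc (𝔠 : Cardinal) ^ #S ≤ 𝔠 ^ ℵ₀ :=
        Cardinal.power_le_power_left Cardinal.continuum_ne_zero
          (Cardinal.le_aleph0_iff_set_countable.2 hS)
      _ = 𝔠 := Cardinal.continuum_power_aleph0
  obtain ⟨e⟩ := Cardinal.le_def _ _ |>.1 hcard
  refine ⟨fun z => if h : z ∈ Z then e ⟨z, h⟩ else 0, ?_⟩
  intro z hz w hw hzw
  simp only [hz, hw, dif_pos] at hzw
  have := e.injective hzw
  exact congrArg Subtype.val this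

lemma card_sigma (C : Type) (hC : #C ≤ 𝔠) : #(Σ α : W, (Iio α → C)) ≤ 𝔠 := by
  rw [Cardinal.mk_sigma]
  have h1 : ∀ α : W, #(Iio α → C) ≤ 𝔠 := by
    intro α
    have h2 : #(Iio α → C) = #C ^ #(Iio α) := by simp
    rw [h2]
    calc #C ^ #(Iio α) ≤ 𝔠 ^ #(Iio α) := Cardinal.power_le_power_right hC
      _ ≤ 𝔠 ^ ℵ₀ :=
        Cardinal.power_le_power_left Cardinal.continuum_ne_zero
          (Cardinal.le_aleph0_iff_set_countable.2 (W_Iio α))
      _ = 𝔠 := Cardinal.continuum_power_aleph0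
  refine (Cardinal.sum_le_sum _ (fun _ : W => 𝔠) h1).trans ?_
  rw [Cardinal.sum_const']
  rw [W_mk]
  calc ℵ_ 1 * 𝔠 ≤ 𝔠 * 𝔠 := mul_le_mul_left Cardinal.aleph_one_le_continuum _
    _ = 𝔠 := Cardinal.continuum_mul_self

lemma sigma_eq {C : Type} (s t : Σ α : W, (Iio α → C)) (h : s = t) :
    s.1 = t.1 ∧ ∀ β (h1 : β < s.1) (h2 : β < t.1), s.2 ⟨β, h1⟩ = t.2 ⟨β, h2⟩ := by
  subst h
  exact ⟨rfl, fun _ _ _ => rfl⟩

end Colour

theorem main {X : Type} [TopologicalSpace X] [CompactSpace X] [T2Space X] (hX : Splits X) :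
    ∃ (Γ : Type) (g : X → Γ → ℝ), EMap g ∧ Function.Injective g := by
  classical
  rcases isEmpty_or_nonempty X with hE | hN
  · exact ⟨PEmpty, fun _ e => e.elim, ⟨continuous_pi fun e => e.elim, fun _ e => e.elim,
      fun _ _ _ => Set.toFinite _⟩, fun x => hE.elim x⟩
  choose Γ g hg hgs using fun P : Set X => exists_point_splitter hX P
  obtain ⟨p, hp⟩ : ∃ p : Set X → X, ∀ S : Set X, S.Nonempty → p S ∈ S := by
    refine ⟨fun S => if h : S.Nonempty then h.some else hN.some, fun S hS => ?_⟩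
    simp only [hS, dif_pos]
    exact hS.some_mem
  choose ρ hρ using fun x => terminates g p hX hg (fun P hP x hx y hy => hgs P hP x hx y hy) hp x
  obtain ⟨Δ, f, hf, hfc⟩ := key hX (card_sigma (ℕ → ℕ) (by
    rw [Cardinal.mk_arrow]; simp))
    (fun x => (⟨ρ x, fun β => col (g (Pt g p x β) x)⟩ : Σ α : W, (Iio α → (ℕ → ℕ))))
  have hJ : ∀ (P : Set X) (Z : Set (Γ P → ℝ)), ∃ j : (Γ P → ℝ) → ℝ, IsCompact Z →
      (∀ z ∈ Z, ∀ ε : ℝ, 0 < ε → {γ | ε < |z γ|}.Finite) →
      (∀ z ∈ Z, ∀ w ∈ Z, col z = col w) → Set.InjOn j Z := by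
    intro P Z
    by_cases h : IsCompact Z ∧ (∀ z ∈ Z, ∀ ε : ℝ, 0 < ε → {γ | ε < |z γ|}.Finite) ∧
      (∀ z ∈ Z, ∀ w ∈ Z, col z = col w)
    · obtain ⟨j, hj⟩ := mono_compact Z h.1 h.2.1 h.2.2
      exact ⟨j, fun _ _ _ => hj⟩
    · exact ⟨fun _ => 0, fun h1 h2 h3 => absurd ⟨h1, h2, h3⟩ h⟩
  choose J hJ using hJ
  obtain ⟨Δ2, f2, hf2, hf2c⟩ := key hX (card_sigma ℝ Cardinal.mk_real.le)
    (fun x => (⟨ρ x, fun β => J (Pt g p x β)
      (g (Pt g p x β) '' ({y | f y = f x} ∩ F g p x β)) (g (Pt g p x β) x)⟩ :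
        Σ α : W, (Iio α → ℝ)))
  obtain ⟨Δ', h, hh, hhs⟩ := emap_prod2 f f2 hf hf2
  refine ⟨Δ', h, hh, ?_⟩
  intro x y hxy
  obtain ⟨h1, h2⟩ := hhs x y hxy
  obtain ⟨hρxy, hc2⟩ := sigma_eq _ _ (hf2c x y h2)
  simp only at hρxy hc2
  have claim : ∀ β, β ≤ ρ x → F g p x β = F g p y β := by
    intro β
    induction β using WellFoundedLT.induction with
    | ind β ih =>
      intro hβ
      apply F_congr
      · intro γ hγ
        exact ih γ hγ (hγ.le.trans hβ)
      · intro γ hγ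
        have hγρ : γ < ρ x := lt_of_lt_of_le hγ hβ
        have hPt : Pt g p x γ = Pt g p y γ := Pt_congr g p x y γ fun δ hδ =>
          ih δ (hδ.trans hγ) ((hδ.trans hγ).le.trans hβ)
        have hFe : F g p x γ = F g p y γ := ih γ hγ (hγ.le.trans hβ)
        have hCe : {z | f z = f x} = {z | f z = f y} := by rw [h1]
        have hc := hc2 γ hγρ (hρxy ▸ hγρ)
        rw [← hPt, ← hFe, ← hCe] at hc
        have hKc : IsCompact ({z | f z = f x} ∩ F g p x γ) := by
          refine IsClosed.isCompact ?_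
          exact (isClosed_eq hf.1 continuous_const).inter (F_closed g p hg x γ)
        refine hJ (Pt g p x γ) _ (hKc.image (hg _).1) ?_ ?_ ?_ ?_ hc
        · rintro _ ⟨z, _, rfl⟩
          exact (hg _).2.2 z
        · have hcolz : ∀ z, f z = f x → z ∈ F g p x γ →
              col (g (Pt g p x γ) z) = col (g (Pt g p x γ) x) := by
            intro z hz hzF
            obtain ⟨hρz, hcz⟩ := sigma_eq _ _ (hfc z x hz)
            simp only at hρz hcz
            have := hcz γ (by rw [hρz]; exact hγρ) hγρ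
            rwa [Pt_symm g p x z γ hzF] at this
          rintro _ ⟨z, ⟨hz1, hz2⟩, rfl⟩ _ ⟨w, ⟨hw1, hw2⟩, rfl⟩
          rw [hcolz z hz1 hz2, hcolz w hw1 hw2]
        · exact ⟨x, ⟨rfl, self_mem_F g p x γ⟩, rfl⟩
        · refine ⟨y, ⟨h1.symm, ?_⟩, rfl⟩
          rw [hFe]
          exact self_mem_F g p y γ
  have := claim (ρ x) le_rfl
  rw [hρ x] at this
  rw [hρxy, hρ y] at this
  exact singleton_injective this

/-- Every compact Hausdorff space X that is splittable over Eberlein compacta is itself Eberlein compact. Splittable means each subset A is the full preimage of its image under some continuous map into an Eberlein compactum. Eberlein means embeddable into the unit ball of c₀(Γ) with the pointwise topolo -/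
theorem result :
    ∀ (X : Type) [TopologicalSpace X] [CompactSpace X] [T2Space X],
      (∀ A : Set X, ∃ (Y : Type) (_ : TopologicalSpace Y), CompactSpace Y ∧
        (∃ (Γ : Type) (e : Y → Γ → ℝ), Topology.IsEmbedding e ∧
          (∀ y γ, |e y γ| ≤ 1) ∧
          (∀ y, ∀ ε : ℝ, 0 < ε → {γ : Γ | ε < |e y γ|}.Finite)) ∧
        ∃ f : X → Y, Continuous f ∧ f ⁻¹' (f '' A) = A) →
      ∃ (Γ : Type) (e : X → Γ → ℝ), Topology.IsEmbedding e ∧
        (∀ x γ, |e x γ| ≤ 1) ∧
        (∀ x, ∀ ε : ℝ, 0 < ε → {γ : Γ | ε < |e x γ|}.Finite) := by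
  intro X _ _ _ hsplit
  have hX : Splits X := by
    intro A
    obtain ⟨Y, _, _, ⟨Γ, e, he, he1, he2⟩, f, hf, hfA⟩ := hsplit A
    refine ⟨Γ, fun x => e (f x), ⟨he.continuous.comp hf, fun x γ => he1 _ _, fun x => he2 _⟩, ?_⟩
    intro x y hxy hx
    have h1 : f x = f y := he.injective hxy
    have h2 : y ∈ f ⁻¹' (f '' A) := ⟨x, hx, h1⟩
    rwa [hfA] at h2
  obtain ⟨Γ, g, hg, hinj⟩ := main hX
  exact ⟨Γ, g, (hg.1.isClosedEmbedding hinj).isEmbedding, hg.2.1, hg.2.2⟩

end Pool.Agent.S13519
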