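-- Proof of the frozen statement S13559. Ingredients: a compact space splittable over Eberlein compacta is
-- Eberlein compact (Split.lean, the solution of MP_89920a_gt) and a proof of the Benyamini-Rudin-Wage
-- theorem on continuous images of Eberlein compacta (Approx, Hull, Retr, Induct).
import Pool.Statements.S13559
import Pool.Agent.Lib_MP_8e7252_gt.Split
import Pool.Agent.Lib_MP_8e7252_gt.Approx
import Pool.Agent.Lib_MP_8e7252_gt.Induct

set_option autoImplicit false
open Pool Pool.MP_8e7252_gt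

namespace Pool.Agent.S13559

open Pool.Agent.Lib_MP_8e7252_gt

lemma squash_inj (s t : ℝ) (h : t / (1 + |t|) = s / (1 + |s|)) : t = s := by
  have h1 : (0 : ℝ) < 1 + |t| := by positivity
  have h2 : (0 : ℝ) < 1 + |s| := by positivity
  rw [div_eq_div_iff h1.ne' h2.ne'] at h
  have h3 : |t| = |s| := by
    have h4 := congrArg abs h
    rw [abs_mul, abs_mul, abs_of_pos h1, abs_of_pos h2] at h4
    linarith
  rw [h3] at h
  exact mul_right_cancel₀ h2.ne' h

/-- Benyamini-Rudin-Wage: a Hausdorff continuous image of an Eberlein compactum is Eberlein. -/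
theorem brw {X Z : Type} [TopologicalSpace X] [CompactSpace X] [TopologicalSpace Z] [T2Space Z]
    {Γ : Type} (e : X → Γ → ℝ) (hc : Continuous e) (hinj : Function.Injective e)
    (h0 : ∀ x, ∀ ε : ℝ, 0 < ε → {γ : Γ | ε < |e x γ|}.Finite)
    (g : X → Z) (hg : Continuous g) (hs : Function.Surjective g) :
    ∃ (Γ : Type) (g : Z → Γ → ℝ), Continuous g ∧
    Function.Injective g ∧ (∀ z γ, |g z γ| ≤ 1) ∧
    ∀ z, ∀ ε : ℝ, 0 < ε → {γ : Γ | ε < |g z γ|}.Finite := by
  have : CompactSpace Z := ⟨by
    rw [← hs.range_eq]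
    exact isCompact_range hg⟩
  choose H hH1 hH2 hH3 using fun m : ℕ =>
    exists_H e hc hinj h0 g hg hs (1 / ((m : ℝ) + 1)) (by positivity)
  have hsys : Sys (fun n m => H m n) :=
    ⟨fun m h hh => hH1 m h hh, fun n m => hH2 m n, fun n m => hH3 m n⟩
  exact eberlein_of_sys hsys

/-- If a compact Hausdorff X is splittable over Eberlein compacta (every subset A is f⁻¹f(A) for some continuous f onto a space embedding in c₀(Γ) pointwise), then so is every Hausdorff continuous image of X. -/
theorem result :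
    ∀ (X : Type) [TopologicalSpace X] [CompactSpace X] [T2Space X],
      (∀ A : Set X, ∃ (Y : Type) (_ : TopologicalSpace Y) (f : X → Y),
        Continuous f ∧ CompactSpace Y ∧
        (∃ (Γ : Type) (e : Y → Γ → ℝ), Topology.IsEmbedding e ∧
          ∀ y : Y, ∀ ε : ℝ, 0 < ε → {γ : Γ | ε ≤ |e y γ|}.Finite) ∧
        f ⁻¹' (f '' A) = A) →
      ∀ (Z : Type) [TopologicalSpace Z] [T2Space Z] (g : X → Z),
        Continuous g → Function.Surjective g →
        ∀ B : Set Z, ∃ (Y : Type) (_ : TopologicalSpace Y) (f : Z → Y),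
          Continuous f ∧ CompactSpace Y ∧
          (∃ (Γ : Type) (e : Y → Γ → ℝ), Topology.IsEmbedding e ∧
            ∀ y : Y, ∀ ε : ℝ, 0 < ε → {γ : Γ | ε ≤ |e y γ|}.Finite) ∧
          f ⁻¹' (f '' B) = B := by
  intro X _ _ _ hsplit Z _ _ g hg hs B
  have hX : Split.Splits X := by
    intro A
    obtain ⟨Y, _, f, hf, _, ⟨Γ, e, he, he2⟩, hfA⟩ := hsplit A
    refine ⟨Γ, fun x γ => e (f x) γ / (1 + |e (f x) γ|), ⟨?_, ?_, ?_⟩, ?_⟩
    · refine continuous_pi fun γ => ?_
      have h1 : Continuous fun x => e (f x) γ :=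
        (continuous_apply γ).comp (he.continuous.comp hf)
      exact h1.div (continuous_const.add h1.abs) fun x => by positivity
    · intro x γ
      have h1 : (0 : ℝ) < 1 + |e (f x) γ| := by positivity
      simp only
      rw [abs_div, abs_of_pos h1, div_le_one h1]
      linarith
    · intro x ε hε
      refine (he2 (f x) ε hε).subset ?_
      intro γ hγ
      have h1 : (0 : ℝ) < 1 + |e (f x) γ| := by positivity
      have h2 : ε < |e (f x) γ / (1 + |e (f x) γ|)| := hγ
      rw [abs_div, abs_of_pos h1, lt_div_iff₀ h1] at h2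
      have h3 : (0 : ℝ) ≤ |e (f x) γ| := abs_nonneg _
      change ε ≤ |e (f x) γ|
      nlinarith
    · intro x y hxy hx
      have h1 : e (f x) = e (f y) := by
        funext γ
        exact squash_inj _ _ (congrFun hxy γ)
      have h2 : f x = f y := he.injective h1
      have h3 : y ∈ f ⁻¹' (f '' A) := ⟨x, hx, h2⟩
      rwa [hfA] at h3
  obtain ⟨Γ, e, he, hinj⟩ := Split.main hX
  have : CompactSpace Z := ⟨by
    rw [← hs.range_eq]
    exact isCompact_range hg⟩
  obtain ⟨Γ', e', hc', hinj', _, h0'⟩ := brw e he.1 hinj he.2.2 g hg hs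
  refine ⟨Z, inferInstance, id, continuous_id, inferInstance,
    ⟨Γ', e', (hc'.isClosedEmbedding hinj').isEmbedding, ?_⟩, by simp⟩
  intro y ε hε
  refine (h0' y (ε / 2) (by positivity)).subset ?_
  intro γ hγ
  have h1 : ε ≤ |e' y γ| := hγ
  change ε / 2 < |e' y γ|
  linarith

end Pool.Agent.S13559
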