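import Pool.Statements.S13720
import Pool.Agent.Lib_MP_a77ffe_gt.Combi
import Pool.Agent.Lib_MP_a77ffe_gt.TopChain
import Pool.Agent.Lib_MP_a77ffe_gt.TopCover
import Pool.Agent.Lib_MP_a77ffe_gt.TopLabel

set_option autoImplicit false
open Pool Pool.MP_a77ffe_gt

namespace Pool.Agent.S13720

/-- The negation of the preceding statement: There is a geometric simplicial complex in some Euclidean space with exactly 22 vertices whose underlying space is homeomorphic to the 5-sphere with antipodal points identified, i.e. real projective 5-space. -/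
theorem result :
    ¬ (∃ n : ℕ, ∃ K : Geometry.SimplicialComplex ℝ (EuclideanSpace ℝ (Fin n)),
      K.vertices.ncard = 22 ∧
      Nonempty (Homeomorph (↥K.space)
        (Quot (fun x y : Metric.sphere (0 : EuclideanSpace ℝ (Fin 6)) 1 =>
          (x : EuclideanSpace ℝ (Fin 6)) = (y : EuclideanSpace ℝ (Fin 6)) ∨
          (x : EuclideanSpace ℝ (Fin 6)) = -(y : EuclideanSpace ℝ (Fin 6)))))) := by
  rintro ⟨n, K, hK, h⟩
  obtain ⟨W, hW⟩ := Pool.Agent.RP5.exists_starCover n K 22 hK (by norm_num) h
  obtain ⟨e, φ, δ, hδ, hsym, hlt, hodd, hadj⟩ := Pool.Agent.RP5.exists_labelling 22 W hW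
  exact Pool.Agent.RP5.not_ind_22 e hsym
    (Pool.Agent.RP5.ind_of_labelling 22 5 e φ δ hδ hlt hodd hadj)

end Pool.Agent.S13720
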