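import Pool.Statements.S13830

set_option autoImplicit false
open Pool Pool.MP_badb58_gt

namespace Pool.Agent.S13830

/-- The underlying set of the example: a countable discrete grid `d m k` and two further points
`a` and `b`. -/
inductive Pt : Type
  | a : Pt
  | b : Pt
  | d : ℕ → ℕ → Pt

/-- Open sets of the example: a set containing `a` must contain all but finitely many columns,
a set containing `b` must contain all but finitely many points of every column. -/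
def opn (U : Set Pt) : Prop :=
  (Pt.a ∈ U → ∃ n, ∀ m, n ≤ m → ∀ k, Pt.d m k ∈ U) ∧
  (Pt.b ∈ U → ∀ m, ∃ n, ∀ k, n ≤ k → Pt.d m k ∈ U)

instance topPt : TopologicalSpace Pt where
  IsOpen := opn
  isOpen_univ := ⟨fun _ => ⟨0, fun _ _ _ => trivial⟩, fun _ _ => ⟨0, fun _ _ => trivial⟩⟩
  isOpen_inter := by
    rintro U V ⟨hUa, hUb⟩ ⟨hVa, hVb⟩
    refine ⟨fun h => ?_, fun h m => ?_⟩
    · obtain ⟨n1, h1⟩ := hUa h.1
      obtain ⟨n2, h2⟩ := hVa h.2
      exact ⟨max n1 n2, fun m hm k => ⟨h1 m (le_trans (le_max_left _ _) hm) k,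
        h2 m (le_trans (le_max_right _ _) hm) k⟩⟩
    · obtain ⟨n1, h1⟩ := hUb h.1 m
      obtain ⟨n2, h2⟩ := hVb h.2 m
      exact ⟨max n1 n2, fun k hk => ⟨h1 k (le_trans (le_max_left _ _) hk),
        h2 k (le_trans (le_max_right _ _) hk)⟩⟩
  isOpen_sUnion := by
    intro S hS
    refine ⟨?_, ?_⟩
    · rintro ⟨U, hU, ha⟩
      obtain ⟨n, hn⟩ := (hS U hU).1 ha
      exact ⟨n, fun m hm k => ⟨U, hU, hn m hm k⟩⟩
    · rintro ⟨U, hU, hb⟩ m
      obtain ⟨n, hn⟩ := (hS U hU).2 hb m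
      exact ⟨n, fun k hk => ⟨U, hU, hn k hk⟩⟩

theorem isOpen_iff_opn (U : Set Pt) : IsOpen U ↔ opn U := Iff.rfl

theorem isOpen_compl_singleton' (x : Pt) : IsOpen ({x}ᶜ : Set Pt) := by
  refine ⟨fun _ => ?_, fun _ m => ?_⟩
  · cases x with
    | a => exact ⟨0, fun m _ k h => by simp at h⟩
    | b => exact ⟨0, fun m _ k h => by simp at h⟩
    | d i j =>
      refine ⟨i + 1, fun m hm k h => ?_⟩
      simp only [Set.mem_singleton_iff, Pt.d.injEq] at h
      omega
  · cases x with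
    | a => exact ⟨0, fun k _ h => by simp at h⟩
    | b => exact ⟨0, fun k _ h => by simp at h⟩
    | d i j =>
      refine ⟨j + 1, fun k hk h => ?_⟩
      simp only [Set.mem_singleton_iff, Pt.d.injEq] at h
      omega

instance : T1Space Pt := ⟨fun x => ⟨isOpen_compl_singleton' x⟩⟩

/-- Every subset of the example is saturated. -/
theorem sat (K : Set Pt) : ∀ x : Pt, (∀ U : Set Pt, IsOpen U → K ⊆ U → x ∈ U) → x ∈ K := by
  intro x hx
  by_contra hxK
  have := hx {x}ᶜ (isOpen_compl_singleton' x) (fun y hy hyx => hxK (hyx ▸ hy))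
  exact this rfl

theorem isCompact_of_finite_core {Y : Type} [TopologicalSpace Y] {K T : Set Y} (hT : T.Finite)
    (hTK : T ⊆ K) (h : ∀ V, IsOpen V → T ⊆ V → (K \ V).Finite) : IsCompact K := by
  classical
  refine isCompact_of_finite_subcover ?_
  intro ι U hU hK
  obtain ⟨t1, ht1⟩ := hT.isCompact.elim_finite_subcover U hU (hTK.trans hK)
  have hV : IsOpen (⋃ i ∈ t1, U i) := isOpen_biUnion fun i _ => hU i
  have hfin := h _ hV ht1
  obtain ⟨t2, ht2⟩ := hfin.isCompact.elim_finite_subcover U hU (Set.sdiff_subset.trans hK)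
  refine ⟨t1 ∪ t2, ?_⟩
  intro x hx
  by_cases hxV : x ∈ ⋃ i ∈ t1, U i
  · rw [Set.mem_iUnion₂] at hxV ⊢
    obtain ⟨i, hi, hxi⟩ := hxV
    exact ⟨i, Finset.mem_union_left _ hi, hxi⟩
  · have := ht2 ⟨hx, hxV⟩
    rw [Set.mem_iUnion₂] at this ⊢
    obtain ⟨i, hi, hxi⟩ := this
    exact ⟨i, Finset.mem_union_right _ hi, hxi⟩

/-- A set of grid points bounded in both coordinates is finite. -/
theorem finite_box (n : ℕ) (f : ℕ → ℕ) (S : Set Pt)
    (hS : ∀ x ∈ S, ∃ m k, x = Pt.d m k ∧ m < n ∧ k < f m) : S.Finite := by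
  classical
  refine Set.Finite.subset (Finset.finite_toSet
    (((Finset.range n).sigma fun m => Finset.range (f m)).image
      (fun p : (_ : ℕ) × ℕ => Pt.d p.1 p.2))) ?_
  intro x hx
  obtain ⟨m, k, rfl, hm, hk⟩ := hS x hx
  simp only [Finset.coe_image, Set.mem_image, Finset.mem_coe, Finset.mem_sigma, Finset.mem_range]
  exact ⟨⟨m, k⟩, ⟨hm, hk⟩, rfl⟩

/-- Sets containing both `a` and `b` are compact as soon as they are open (indeed always). -/
theorem isCompact_of_ab {U : Set Pt} (ha : Pt.a ∈ U) (hb : Pt.b ∈ U) : IsCompact U := by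
  refine isCompact_of_finite_core (T := {Pt.a, Pt.b}) (Set.toFinite _) ?_ ?_
  · rintro x (rfl | rfl) <;> assumption
  · intro V hV hT
    have haV : Pt.a ∈ V := hT (by simp)
    have hbV : Pt.b ∈ V := hT (by simp)
    obtain ⟨n, hn⟩ := hV.1 haV
    choose f hf using hV.2 hbV
    refine finite_box n f _ ?_
    rintro x ⟨_, hxV⟩
    cases x with
    | a => exact absurd haV hxV
    | b => exact absurd hbV hxV
    | d m k =>
      refine ⟨m, k, rfl, ?_, ?_⟩
      · by_contra h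
        exact hxV (hn m (not_lt.mp h) k)
      · by_contra h
        exact hxV (hf m k (not_lt.mp h))

theorem isCompact_univ_Pt : IsCompact (Set.univ : Set Pt) :=
  isCompact_of_ab (Set.mem_univ _) (Set.mem_univ _)

/-- Consonance of a space. -/
def Cns (Y : Type) (t : TopologicalSpace Y) : Prop :=
  ∀ F : Set (Set Y), (∀ U ∈ F, @IsOpen Y t U) →
        (∀ U V : Set Y, U ∈ F → @IsOpen Y t V → U ⊆ V → V ∈ F) →
        (∀ D : Set (Set Y), D.Nonempty → (∀ U ∈ D, @IsOpen Y t U) →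
            DirectedOn (· ⊆ ·) D → ⋃₀ D ∈ F → ∃ U ∈ D, U ∈ F) →
        ∀ U ∈ F, ∃ K : Set Y, @IsCompact Y t K ∧ K ⊆ U ∧
          ∀ V : Set Y, @IsOpen Y t V → K ⊆ V → V ∈ F

/-- Case 1: the open set contains `a` but not `b`. -/
theorem case_a (F : Set (Set Pt)) (_hFo : ∀ U ∈ F, IsOpen U)
    (hFup : ∀ U V : Set Pt, U ∈ F → IsOpen V → U ⊆ V → V ∈ F)
    (hFdir : ∀ D : Set (Set Pt), D.Nonempty → (∀ U ∈ D, IsOpen U) →
            DirectedOn (· ⊆ ·) D → ⋃₀ D ∈ F → ∃ U ∈ D, U ∈ F)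
    (U : Set Pt) (hUF : U ∈ F) (hU : IsOpen U) (ha : Pt.a ∈ U) (hb : Pt.b ∉ U) :
    ∃ K : Set Pt, IsCompact K ∧ K ⊆ U ∧ ∀ V : Set Pt, IsOpen V → K ⊆ V → V ∈ F := by
  classical
  -- the sets `W g n`
  let W : (ℕ → ℕ) → ℕ → Set Pt := fun g n => {x | x ∈ U ∧ ∀ m k, x = Pt.d m k → m < n → k < g m}
  have hWopen : ∀ g n, IsOpen (W g n) := by
    intro g n
    refine ⟨fun _ => ?_, fun h => absurd h.1 hb⟩
    obtain ⟨n0, h0⟩ := hU.1 ha
    refine ⟨max n0 n, fun m hm k => ⟨h0 m (le_trans (le_max_left _ _) hm) k, ?_⟩⟩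
    intro m' k' hmk hlt
    simp only [Pt.d.injEq] at hmk
    have := le_trans (le_max_right n0 n) hm
    omega
  have step : ∀ n (g : ℕ → ℕ), W g n ∈ F → ∃ j, W (Function.update g n j) (n + 1) ∈ F := by
    intro n g hg
    have := hFdir (Set.range fun j => W (Function.update g n j) (n + 1)) (Set.range_nonempty _)
      (by rintro _ ⟨j, rfl⟩; exact hWopen _ _) ?_ ?_
    · obtain ⟨_, ⟨j, rfl⟩, h⟩ := this
      exact ⟨j, h⟩
    · rintro _ ⟨i, rfl⟩ _ ⟨j, rfl⟩
      refine ⟨_, ⟨max i j, rfl⟩, ?_, ?_⟩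
      · rintro x ⟨hxU, hx⟩
        refine ⟨hxU, fun m k hxd hlt => ?_⟩
        have h1 := hx m k hxd hlt
        by_cases hmn : m = n
        · subst hmn
          simp only [Function.update_self] at h1 ⊢
          exact lt_of_lt_of_le h1 (le_max_left _ _)
        · simpa [Function.update_of_ne hmn] using h1
      · rintro x ⟨hxU, hx⟩
        refine ⟨hxU, fun m k hxd hlt => ?_⟩
        have h1 := hx m k hxd hlt
        by_cases hmn : m = n
        · subst hmn
          simp only [Function.update_self] at h1 ⊢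
          exact lt_of_lt_of_le h1 (le_max_right _ _)
        · simpa [Function.update_of_ne hmn] using h1
    · refine hFup _ _ hg (isOpen_sUnion (by rintro _ ⟨j, rfl⟩; exact hWopen _ _)) ?_
      rintro x ⟨hxU, hx⟩
      cases x with
      | a => exact ⟨_, ⟨0, rfl⟩, hxU, fun m k h => by simp at h⟩
      | b => exact absurd hxU hb
      | d m k =>
        refine ⟨_, ⟨k + 1, rfl⟩, hxU, fun m' k' hmk hlt => ?_⟩
        simp only [Pt.d.injEq] at hmk
        obtain ⟨rfl, rfl⟩ := hmk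
        by_cases hmn : m = n
        · subst hmn
          simp
        · rw [Function.update_of_ne hmn]
          exact hx m k rfl (by omega)
  -- recursive choice
  have h0 : W (fun _ => 0) 0 ∈ F := by
    refine hFup _ _ hUF (hWopen _ _) ?_
    intro x hx
    exact ⟨hx, fun m k _ h => absurd h (Nat.not_lt_zero _)⟩
  let s : (n : ℕ) → {g : ℕ → ℕ // W g n ∈ F} := fun n =>
    Nat.rec (motive := fun n => {g : ℕ → ℕ // W g n ∈ F}) ⟨fun _ => 0, h0⟩
      (fun n g => ⟨Function.update g.1 n (Classical.choose (step n g.1 g.2)),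
        Classical.choose_spec (step n g.1 g.2)⟩) n
  have hs : ∀ n m, m < n → (s (n + 1)).1 m = (s n).1 m := by
    intro n m hmn
    change Function.update (s n).1 n _ m = (s n).1 m
    exact Function.update_of_ne (by omega) _ _
  have hs' : ∀ m j, (s (m + 1 + j)).1 m = (s (m + 1)).1 m := by
    intro m j
    induction j with
    | zero => rfl
    | succ j ih =>
      have := hs (m + 1 + j) m (by omega)
      rw [← ih, ← this]
      rfl
  let g : ℕ → ℕ := fun m => (s (m + 1)).1 m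
  have hgW : ∀ n, W g n ∈ F := by
    intro n
    refine hFup _ _ (s n).2 (hWopen _ _) ?_
    rintro x ⟨hxU, hx⟩
    refine ⟨hxU, fun m k hxd hlt => ?_⟩
    have h1 := hx m k hxd hlt
    have h2 := hs' m (n - (m + 1))
    have h3 : m + 1 + (n - (m + 1)) = n := by omega
    rw [h3] at h2
    change k < (s (m + 1)).1 m
    rw [← h2]
    exact h1
  refine ⟨{x | x ∈ U ∧ ∀ m k, x = Pt.d m k → k < g m}, ?_, fun x hx => hx.1, ?_⟩
  · refine isCompact_of_finite_core (T := {Pt.a}) (Set.toFinite _) ?_ ?_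
    · rintro x rfl
      exact ⟨ha, fun m k h => by simp at h⟩
    · intro V hV hT
      have haV : Pt.a ∈ V := hT rfl
      obtain ⟨n, hn⟩ := hV.1 haV
      refine finite_box n g _ ?_
      rintro x ⟨⟨hxU, hxg⟩, hxV⟩
      cases x with
      | a => exact absurd haV hxV
      | b => exact absurd hxU hb
      | d m k =>
        refine ⟨m, k, rfl, ?_, hxg m k rfl⟩
        by_contra h
        exact hxV (hn m (not_lt.mp h) k)
  · intro V hV hKV
    have haV : Pt.a ∈ V := hKV ⟨ha, fun m k h => by simp at h⟩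
    obtain ⟨n, hn⟩ := hV.1 haV
    refine hFup _ _ (hgW n) hV ?_
    rintro x ⟨hxU, hx⟩
    cases x with
    | a => exact haV
    | b => exact absurd hxU hb
    | d m k =>
      by_cases hmn : m < n
      · refine hKV ⟨hxU, ?_⟩
        intro m' k' hmk
        simp only [Pt.d.injEq] at hmk
        obtain ⟨rfl, rfl⟩ := hmk
        exact hx m k rfl hmn
      · exact hn m (not_lt.mp hmn) k

/-- Case 2: the open set contains `b` but not `a`. -/
theorem case_b (F : Set (Set Pt)) (_hFo : ∀ U ∈ F, IsOpen U)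
    (hFup : ∀ U V : Set Pt, U ∈ F → IsOpen V → U ⊆ V → V ∈ F)
    (hFdir : ∀ D : Set (Set Pt), D.Nonempty → (∀ U ∈ D, IsOpen U) →
            DirectedOn (· ⊆ ·) D → ⋃₀ D ∈ F → ∃ U ∈ D, U ∈ F)
    (U : Set Pt) (hUF : U ∈ F) (hU : IsOpen U) (ha : Pt.a ∉ U) (hb : Pt.b ∈ U) :
    ∃ K : Set Pt, IsCompact K ∧ K ⊆ U ∧ ∀ V : Set Pt, IsOpen V → K ⊆ V → V ∈ F := by
  classical
  by_contra hcon
  push Not at hcon
  let K : ℕ → Set Pt := fun n => {x | x ∈ U ∧ ∀ m k, x = Pt.d m k → m < n}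
  have hK : ∀ n, IsCompact (K n) := by
    intro n
    refine isCompact_of_finite_core (T := {Pt.b}) (Set.toFinite _) ?_ ?_
    · rintro x rfl
      exact ⟨hb, fun m k h => by simp at h⟩
    · intro V hV hT
      have hbV : Pt.b ∈ V := hT rfl
      choose f hf using hV.2 hbV
      refine finite_box n f _ ?_
      rintro x ⟨⟨hxU, hxn⟩, hxV⟩
      cases x with
      | a => exact absurd hxU ha
      | b => exact absurd hbV hxV
      | d m k =>
        refine ⟨m, k, rfl, hxn m k rfl, ?_⟩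
        by_contra h
        exact hxV (hf m k (not_lt.mp h))
  have hKU : ∀ n, K n ⊆ U := fun n x hx => hx.1
  choose V hVo hKV hVF using fun n => hcon (K n) (hK n) (hKU n)
  let W : ℕ → Set Pt := fun n => {x | x ∈ U ∧ ∀ m, n ≤ m → x ∈ V m}
  have hWo : ∀ n, IsOpen (W n) := by
    intro n
    refine ⟨fun h => absurd h.1 ha, fun _ j => ?_⟩
    obtain ⟨NU, hNU⟩ := hU.2 hb j
    have hbV : ∀ m, Pt.b ∈ V m := fun m => hKV m ⟨hb, fun m k h => by simp at h⟩
    choose N hN using fun m => (hVo m).2 (hbV m) j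
    refine ⟨max NU ((Finset.range (j + 1)).sup N), fun k hk => ⟨?_, fun m _ => ?_⟩⟩
    · exact hNU k (le_trans (le_max_left _ _) hk)
    · by_cases hmj : m < j + 1
      · refine hN m k ?_
        refine le_trans (Finset.le_sup (f := N) (Finset.mem_range.mpr hmj)) ?_
        exact le_trans (le_max_right _ _) hk
      · refine hKV m ⟨hNU k (le_trans (le_max_left _ _) hk), ?_⟩
        intro m' k' hmk
        simp only [Pt.d.injEq] at hmk
        omega
  have hWmono : Monotone W := fun i j hij x hx => ⟨hx.1, fun m hm => hx.2 m (le_trans hij hm)⟩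
  have := hFdir (Set.range W) (Set.range_nonempty _) (by rintro _ ⟨n, rfl⟩; exact hWo n)
    (directedOn_range.mpr (hWmono.directed_le)) ?_
  · obtain ⟨_, ⟨n, rfl⟩, hn⟩ := this
    exact hVF n (hFup _ _ hn (hVo n) (fun x hx => hx.2 n le_rfl))
  · refine hFup _ _ hUF (isOpen_sUnion (by rintro _ ⟨n, rfl⟩; exact hWo n)) ?_
    intro x hxU
    cases x with
    | a => exact absurd hxU ha
    | b => exact ⟨_, ⟨0, rfl⟩, hxU, fun m _ => hKV m ⟨hxU, fun m k h => by simp at h⟩⟩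
    | d m k =>
      refine ⟨_, ⟨m + 1, rfl⟩, hxU, fun i hi => hKV i ⟨hxU, ?_⟩⟩
      intro m' k' hmk
      simp only [Pt.d.injEq] at hmk
      omega

/-- Case 3: the open set contains neither `a` nor `b`. -/
theorem case_none (F : Set (Set Pt)) (_hFo : ∀ U ∈ F, IsOpen U)
    (hFup : ∀ U V : Set Pt, U ∈ F → IsOpen V → U ⊆ V → V ∈ F)
    (hFdir : ∀ D : Set (Set Pt), D.Nonempty → (∀ U ∈ D, IsOpen U) →
            DirectedOn (· ⊆ ·) D → ⋃₀ D ∈ F → ∃ U ∈ D, U ∈ F)
    (U : Set Pt) (hUF : U ∈ F) (ha : Pt.a ∉ U) (hb : Pt.b ∉ U) :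
    ∃ K : Set Pt, IsCompact K ∧ K ⊆ U ∧ ∀ V : Set Pt, IsOpen V → K ⊆ V → V ∈ F := by
  classical
  have hop : ∀ S : Set Pt, S ⊆ U → IsOpen S := fun S hS =>
    ⟨fun h => absurd (hS h) ha, fun h => absurd (hS h) hb⟩
  have := hFdir {S | S ⊆ U ∧ S.Finite} ⟨∅, by simp, by simp⟩ (fun S hS => hop S hS.1) ?_ ?_
  · obtain ⟨S, ⟨hSU, hSf⟩, hSF⟩ := this
    exact ⟨S, hSf.isCompact, hSU, fun V hV hSV => hFup _ _ hSF hV hSV⟩
  · rintro S ⟨hSU, hSf⟩ T ⟨hTU, hTf⟩
    exact ⟨S ∪ T, ⟨Set.union_subset hSU hTU, hSf.union hTf⟩, Set.subset_union_left,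
      Set.subset_union_right⟩
  · have : ⋃₀ {S | S ⊆ U ∧ S.Finite} = U := by
      apply Set.Subset.antisymm
      · exact Set.sUnion_subset fun S hS => hS.1
      · intro x hx
        exact ⟨{x}, ⟨by simpa using hx, Set.finite_singleton x⟩, rfl⟩
    rw [this]
    exact hUF

theorem cns_Pt : Cns Pt topPt := by
  intro F hFo hFup hFdir U hUF
  have hU := hFo U hUF
  by_cases ha : Pt.a ∈ U
  · by_cases hb : Pt.b ∈ U
    · exact ⟨U, isCompact_of_ab ha hb, subset_rfl, fun V hV hUV => hFup _ _ hUF hV hUV⟩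
    · exact case_a F hFo hFup hFdir U hUF hU ha hb
  · by_cases hb : Pt.b ∈ U
    · exact case_b F hFo hFup hFdir U hUF hU ha hb
    · exact case_none F hFo hFup hFdir U hUF ha hb

/-- The points of the Smyth power space. -/
abbrev PS : Type := {K : Set Pt // K.Nonempty ∧ IsCompact K ∧
              ∀ x : Pt, (∀ U : Set Pt, IsOpen U → K ⊆ U → x ∈ U) → x ∈ K}

/-- The upper Vietoris topology. -/
@[reducible] def tPS : TopologicalSpace PS := TopologicalSpace.generateFrom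
          {S | ∃ U : Set Pt, IsOpen U ∧ S = {K | K.1 ⊆ U}}

/-- The basic open sets of the upper Vietoris topology. -/
def bx (U : Set Pt) : Set PS := {K | K.1 ⊆ U}

theorem isOpen_bx {U : Set Pt} (hU : IsOpen U) : @IsOpen PS tPS (bx U) :=
  TopologicalSpace.isOpen_generateFrom_of_mem ⟨U, hU, rfl⟩

theorem exists_bx {W : Set PS} (hW : @IsOpen PS tPS W) :
    ∀ K ∈ W, ∃ U : Set Pt, IsOpen U ∧ K ∈ bx U ∧ bx U ⊆ W := by
  induction hW with
  | basic s hs =>
    obtain ⟨U, hU, rfl⟩ := hs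
    intro K hK
    exact ⟨U, hU, hK, subset_rfl⟩
  | univ => exact fun K _ => ⟨Set.univ, isOpen_univ, fun _ _ => trivial, fun _ _ => trivial⟩
  | inter s t _ _ ihs iht =>
    rintro K ⟨hKs, hKt⟩
    obtain ⟨U, hU, hKU, hUs⟩ := ihs K hKs
    obtain ⟨V, hV, hKV, hVt⟩ := iht K hKt
    exact ⟨U ∩ V, hU.inter hV, fun x hx => ⟨hKU hx, hKV hx⟩, fun L hL =>
      ⟨hUs (fun x hx => (hL hx).1), hVt (fun x hx => (hL hx).2)⟩⟩
  | sUnion S _ ih =>
    rintro K ⟨s, hs, hKs⟩
    obtain ⟨U, hU, hKU, hUs⟩ := ih s hs K hKs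
    exact ⟨U, hU, hKU, fun L hL => ⟨s, hs, hUs hL⟩⟩

/-- The Scott open family of open sets of the power space that is not compactly generated. -/
def fam : Set (Set PS) :=
  {W | @IsOpen PS tPS W ∧ ∃ V₁ V₂ : Set Pt, IsOpen V₁ ∧ IsOpen V₂ ∧ Pt.a ∈ V₁ ∧ Pt.b ∈ V₂ ∧
    V₁ ∪ V₂ = Set.univ ∧ bx V₁ ⊆ W ∧ bx V₂ ⊆ W}

theorem fam_dir (D : Set (Set PS)) (_hDn : D.Nonempty) (hDo : ∀ U ∈ D, @IsOpen PS tPS U)
    (hD : DirectedOn (· ⊆ ·) D) (hDf : ⋃₀ D ∈ fam) : ∃ U ∈ D, U ∈ fam := by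
  obtain ⟨_, V₁, V₂, hV₁, hV₂, ha, hb, hun, hb1, hb2⟩ := hDf
  -- first step
  have hK1c : IsCompact (insert Pt.a V₂ᶜ) :=
    (isCompact_univ_Pt.of_isClosed_subset hV₂.isClosed_compl (Set.subset_univ _)).insert _
  have hK1 : (⟨insert Pt.a V₂ᶜ, Set.insert_nonempty _ _, hK1c, sat _⟩ : PS) ∈ bx V₁ := by
    rintro x (rfl | hx)
    · exact ha
    · have : x ∈ V₁ ∪ V₂ := hun ▸ Set.mem_univ x
      exact this.resolve_right hx
  obtain ⟨S, hSD, hS⟩ := hb1 hK1
  obtain ⟨V₁', hV₁', hKV, hVS⟩ := exists_bx (hDo S hSD) _ hS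
  have ha' : Pt.a ∈ V₁' := hKV (Set.mem_insert _ _)
  have hun' : V₁' ∪ V₂ = Set.univ := by
    refine Set.eq_univ_of_forall fun x => ?_
    by_cases hx : x ∈ V₂
    · exact Or.inr hx
    · exact Or.inl (hKV (Set.mem_insert_of_mem _ hx))
  -- second step
  have hK2c : IsCompact (insert Pt.b V₁'ᶜ) :=
    (isCompact_univ_Pt.of_isClosed_subset hV₁'.isClosed_compl (Set.subset_univ _)).insert _
  have hK2 : (⟨insert Pt.b V₁'ᶜ, Set.insert_nonempty _ _, hK2c, sat _⟩ : PS) ∈ bx V₂ := by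
    rintro x (rfl | hx)
    · exact hb
    · have : x ∈ V₁' ∪ V₂ := hun' ▸ Set.mem_univ x
      exact this.resolve_left hx
  obtain ⟨T, hTD, hT⟩ := hb2 hK2
  obtain ⟨V₂', hV₂', hKV2, hVT⟩ := exists_bx (hDo T hTD) _ hT
  have hb' : Pt.b ∈ V₂' := hKV2 (Set.mem_insert _ _)
  have hun'' : V₁' ∪ V₂' = Set.univ := by
    refine Set.eq_univ_of_forall fun x => ?_
    by_cases hx : x ∈ V₁'
    · exact Or.inl hx
    · exact Or.inr (hKV2 (Set.mem_insert_of_mem _ hx))
  obtain ⟨R, hRD, hSR, hTR⟩ := hD S hSD T hTD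
  exact ⟨R, hRD, hDo R hRD, V₁', V₂', hV₁', hV₂', ha', hb', hun'', hVS.trans hSR, hVT.trans hTR⟩

theorem not_cns_PS : ¬ Cns PS tPS := by
  classical
  intro h
  have hU1 : IsOpen ({Pt.b}ᶜ : Set Pt) := isOpen_compl_singleton' _
  have hU2 : IsOpen ({Pt.a}ᶜ : Set Pt) := isOpen_compl_singleton' _
  have hmem : (bx {Pt.b}ᶜ ∪ bx {Pt.a}ᶜ) ∈ fam := by
    refine ⟨@IsOpen.union _ _ _ tPS (isOpen_bx hU1) (isOpen_bx hU2), {Pt.b}ᶜ, {Pt.a}ᶜ, hU1, hU2,
      by simp, by simp, ?_, Set.subset_union_left, Set.subset_union_right⟩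
    refine Set.eq_univ_of_forall fun x => ?_
    cases x with
    | a => left; simp
    | b => right; simp
    | d m k => left; simp
  obtain ⟨KK, hKc, hKsub, hKfam⟩ := h fam (fun U hU => hU.1)
    (by
      rintro U V ⟨_, V₁, V₂, h1, h2, h3, h4, h5, h6, h7⟩ hV hUV
      exact ⟨hV, V₁, V₂, h1, h2, h3, h4, h5, h6.trans hUV, h7.trans hUV⟩)
    fam_dir _ hmem
  -- the members of `KK` containing `a`
  have hK1 : @IsCompact PS tPS (KK \ bx {Pt.a}ᶜ) :=
    @IsCompact.diff PS tPS _ _ hKc (isOpen_bx hU2)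
  have hK2 : @IsCompact PS tPS (KK \ bx {Pt.b}ᶜ) :=
    @IsCompact.diff PS tPS _ _ hKc (isOpen_bx hU1)
  -- finite traces on the columns
  let H : ℕ → ℕ → Set Pt := fun j r => {x | x ≠ Pt.b ∧ ∀ k, x = Pt.d j k → k < r}
  have hHo : ∀ j r, IsOpen (H j r) := by
    intro j r
    refine ⟨fun _ => ⟨j + 1, fun m hm k => ⟨by simp, fun k' hk' => ?_⟩⟩, fun h => absurd rfl h.1⟩
    simp only [Pt.d.injEq] at hk'
    omega
  have hHmono : ∀ j, Monotone (H j) := fun j r s hrs x hx =>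
    ⟨hx.1, fun k hk => lt_of_lt_of_le (hx.2 k hk) hrs⟩
  have hr : ∀ j, ∃ r, (KK \ bx {Pt.a}ᶜ) ⊆ bx (H j r) := by
    intro j
    refine @IsCompact.elim_directed_cover PS tPS _ ℕ _ hK1 (fun r => bx (H j r))
      (fun r => isOpen_bx (hHo j r)) ?_ ?_
    · rintro K ⟨hK, hKa⟩
      have hKb : K.1 ⊆ {Pt.b}ᶜ := (hKsub hK).resolve_right hKa
      have hcov : K.1 ⊆ ⋃ r, H j r := by
        intro x hx
        have hxb : x ≠ Pt.b := hKb hx
        cases x with
        | a => exact Set.mem_iUnion.mpr ⟨0, hxb, fun k h => by simp at h⟩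
        | b => exact absurd rfl hxb
        | d m k =>
          refine Set.mem_iUnion.mpr ⟨k + 1, hxb, fun k' h => ?_⟩
          simp only [Pt.d.injEq] at h
          omega
      obtain ⟨r, hr⟩ := K.2.2.1.elim_directed_cover (H j) (hHo j) hcov (hHmono j).directed_le
      exact Set.mem_iUnion.mpr ⟨r, hr⟩
    · exact Monotone.directed_le fun r s hrs K hK => hK.trans (hHmono j hrs)
  choose r hr using hr
  let G : ℕ → Set Pt := fun j => {x | x ≠ Pt.a ∧ ∀ m, x = Pt.d m (r m) → m < j}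
  have hGo : ∀ j, IsOpen (G j) := by
    intro j
    refine ⟨fun h => absurd rfl h.1, fun _ m => ⟨r m + 1, fun k hk => ⟨by simp, fun m' h => ?_⟩⟩⟩
    simp only [Pt.d.injEq] at h
    obtain ⟨rfl, rfl⟩ := h
    omega
  have hGmono : Monotone G := fun i j hij x hx =>
    ⟨hx.1, fun m hm => lt_of_lt_of_le (hx.2 m hm) hij⟩
  obtain ⟨j, hj⟩ : ∃ j, (KK \ bx {Pt.b}ᶜ) ⊆ bx (G j) := by
    refine @IsCompact.elim_directed_cover PS tPS _ ℕ _ hK2 (fun j => bx (G j))
      (fun j => isOpen_bx (hGo j)) ?_ ?_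
    · rintro K ⟨hK, hKb⟩
      have hKa : K.1 ⊆ {Pt.a}ᶜ := (hKsub hK).resolve_left hKb
      have hcov : K.1 ⊆ ⋃ j, G j := by
        intro x hx
        have hxa : x ≠ Pt.a := hKa hx
        cases x with
        | a => exact absurd rfl hxa
        | b => exact Set.mem_iUnion.mpr ⟨0, hxa, fun k h => by simp at h⟩
        | d m k =>
          refine Set.mem_iUnion.mpr ⟨m + 1, hxa, fun m' h => ?_⟩
          simp only [Pt.d.injEq] at h
          omega
      obtain ⟨j, hj⟩ := K.2.2.1.elim_directed_cover G hGo hcov hGmono.directed_le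
      exact Set.mem_iUnion.mpr ⟨j, hj⟩
    · exact Monotone.directed_le fun i j hij K hK => hK.trans (hGmono hij)
  -- the point that escapes
  set p : Pt := Pt.d j (r j) with hp
  have hV1o : IsOpen ({Pt.b}ᶜ ∩ {p}ᶜ : Set Pt) := hU1.inter (isOpen_compl_singleton' _)
  have hV2o : IsOpen ({Pt.a}ᶜ ∩ {p}ᶜ : Set Pt) := hU2.inter (isOpen_compl_singleton' _)
  have hDo : IsOpen ({Pt.a}ᶜ ∩ {Pt.b}ᶜ : Set Pt) := hU2.inter hU1
  have hcov := hKfam (bx ({Pt.b}ᶜ ∩ {p}ᶜ) ∪ bx ({Pt.a}ᶜ ∩ {p}ᶜ) ∪ bx ({Pt.a}ᶜ ∩ {Pt.b}ᶜ))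
    (@IsOpen.union _ _ _ tPS (@IsOpen.union _ _ _ tPS (isOpen_bx hV1o) (isOpen_bx hV2o))
      (isOpen_bx hDo)) ?_
  · obtain ⟨_, W₁, W₂, _, _, haW, hbW, hW, hs1, hs2⟩ := hcov
    have hpW : p ∈ W₁ ∪ W₂ := hW ▸ Set.mem_univ p
    rcases hpW with hpW | hpW
    · have hmem : (⟨{Pt.a, p}, Set.insert_nonempty _ _, (Set.toFinite _).isCompact, sat _⟩ : PS) ∈
          bx W₁ := by
        rintro x (rfl | rfl) <;> assumption
      rcases hs1 hmem with (h1 | h1) | h1
      · exact (h1 (Set.mem_insert_of_mem _ rfl)).2 rfl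
      · exact (h1 (Set.mem_insert _ _)).1 rfl
      · exact (h1 (Set.mem_insert _ _)).1 rfl
    · have hmem : (⟨{Pt.b, p}, Set.insert_nonempty _ _, (Set.toFinite _).isCompact, sat _⟩ : PS) ∈
          bx W₂ := by
        rintro x (rfl | rfl) <;> assumption
      rcases hs2 hmem with (h1 | h1) | h1
      · exact (h1 (Set.mem_insert _ _)).1 rfl
      · exact (h1 (Set.mem_insert_of_mem _ rfl)).2 rfl
      · exact (h1 (Set.mem_insert _ _)).2 rfl
  · intro K hK
    by_cases hKa : K ∈ bx {Pt.a}ᶜ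
    · by_cases hKb : K ∈ bx {Pt.b}ᶜ
      · exact Or.inr fun x hx => ⟨hKa hx, hKb hx⟩
      · refine Or.inl (Or.inr fun x hx => ⟨hKa hx, fun hxp => ?_⟩)
        have h1 : x ∈ G j := hj ⟨hK, hKb⟩ hx
        exact lt_irrefl _ (h1.2 j hxp)
    · refine Or.inl (Or.inl fun x hx => ⟨?_, fun hxp => ?_⟩)
      · exact (hr j ⟨hK, hKa⟩ hx).1
      · have h1 : x ∈ H j (r j) := hr j ⟨hK, hKa⟩ hx
        exact lt_irrefl _ (h1.2 (r j) hxp)

/-- The negation of the preceding statement: For every consonant T0 space X, the space of nonempty compact saturated subsets of X, with the upper Vietoris topology generated by the sets {K : K ⊆ U} for U open, is again consonant. -/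
theorem result :
    ¬ (∀ (Cons : (Y : Type) → TopologicalSpace Y → Prop),
    (∀ (Y : Type) (t : TopologicalSpace Y), Cons Y t ↔
      ∀ F : Set (Set Y), (∀ U ∈ F, @IsOpen Y t U) →
        (∀ U V : Set Y, U ∈ F → @IsOpen Y t V → U ⊆ V → V ∈ F) →
        (∀ D : Set (Set Y), D.Nonempty → (∀ U ∈ D, @IsOpen Y t U) →
            DirectedOn (· ⊆ ·) D → ⋃₀ D ∈ F → ∃ U ∈ D, U ∈ F) →
        ∀ U ∈ F, ∃ K : Set Y, @IsCompact Y t K ∧ K ⊆ U ∧
          ∀ V : Set Y, @IsOpen Y t V → K ⊆ V → V ∈ F) →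
    ∀ (X : Type) [TopologicalSpace X] [T0Space X], Cons X inferInstance →
      Cons {K : Set X // K.Nonempty ∧ IsCompact K ∧
              ∀ x : X, (∀ U : Set X, IsOpen U → K ⊆ U → x ∈ U) → x ∈ K}
        (TopologicalSpace.generateFrom
          {S | ∃ U : Set X, IsOpen U ∧ S = {K | K.1 ⊆ U}})) := by
  intro h
  exact not_cns_PS (h Cns (fun _ _ => Iff.rfl) Pt cns_Pt)

end Pool.Agent.S13830
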