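import Pool.Statements.S14191
import Pool.Agent.Lib_MP_f019fe_gt.Contra2

set_option autoImplicit false
open Pool Pool.MP_f019fe_gt

namespace Pool.Agent.S14191

open Pool.Agent.HExotic Filter Topology

theorem lip0 : Lip (psi0 0) := by
  intro ζ w ζ' w' _ _
  unfold eta psi0
  simp only [Finset.univ_eq_empty, Finset.sum_empty, sub_zero]
  rw [norm_smul, Real.norm_of_nonneg (by norm_num : (0 : ℝ) ≤ 1 / 2)]
  have h1 : ‖w'‖ ≤ ‖star w + w'‖ + ‖w‖ := by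
    have := norm_sub_le (star w + w') (star w)
    rw [add_sub_cancel_left, Quaternion.norm_star] at this
    exact this
  have h2 : ‖w‖ ≤ ‖star w + w'‖ + ‖w'‖ := by
    have := norm_sub_le (star w + w') w'
    rw [add_sub_cancel_right, Quaternion.norm_star] at this
    exact this
  set a := Real.sqrt ‖w‖ with ha
  set b := Real.sqrt ‖w'‖ with hb
  have ha2 : ‖w‖ = a ^ 2 := (Real.sq_sqrt (norm_nonneg _)).symm
  have hb2 : ‖w'‖ = b ^ 2 := (Real.sq_sqrt (norm_nonneg _)).symm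
  have ha0 : 0 ≤ a := Real.sqrt_nonneg _
  have hb0 : 0 ≤ b := Real.sqrt_nonneg _
  rw [ha2, hb2] at h1 h2
  rcases le_total a b with h | h
  · nlinarith
  · nlinarith

theorem cont0 (ζ : Fin 0 → Hq) : Continuous (psi0 0 ζ) :=
  Real.continuous_sqrt.comp continuous_norm

theorem lip1 (k : ℕ) : Lip (psi1 k) := by
  intro ζ w ζ' w' h h'
  have h1 := re_eta ζ w ζ' w'
  have h2 : ‖ζ 0 - ζ' 0‖ ^ 2 ≤ ∑ i, ‖ζ i - ζ' i‖ ^ 2 :=
    Finset.single_le_sum (f := fun i => ‖ζ i - ζ' i‖ ^ 2) (fun _ _ => by positivity)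
      (Finset.mem_univ _)
  have h3 : ((ζ 0).re - (ζ' 0).re) ^ 2 ≤ ‖ζ 0 - ζ' 0‖ ^ 2 := by
    rw [← Quaternion.re_sub, ← sq_abs]
    exact pow_le_pow_left₀ (abs_nonneg _) (abs_re_le _) 2
  have h4 := (le_abs_self _).trans (abs_re_le (eta ζ w ζ' w'))
  unfold psi1
  linarith

theorem cont1 (k : ℕ) (ζ : Fin (k + 1) → Hq) : Continuous (psi1 k ζ) := continuous_const

theorem core (m : ℕ) (ψ : (Fin m → Hq) → Hq → ℝ) (hl : Lip ψ) (hc : ∀ ζ, Continuous (ψ ζ))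
    (hno : ¬ HasVec ψ) :
    ∃ f : (Fin (m + 1) → Hq) → (Fin (m + 1 + 1) → Hq),
      (∀ x, 0 < dl x → 0 < dl (f x)) ∧
      (∃ L : ℝ, 1 ≤ L ∧ ∃ C : ℝ, 0 ≤ C ∧ ∀ x y, 0 < dl x → 0 < dl y →
        Dq x y / L - C ≤ Dq (f x) (f y) ∧ Dq (f x) (f y) ≤ L * Dq x y + C) ∧
      ∀ g : (Fin (m + 1) → Hq) → (Fin (m + 1 + 1) → Hq), (∀ x, 0 < dl x → 0 < dl (g x)) →
        (∀ x y, 0 < dl x → 0 < dl y → Dq (g x) (g y) = Dq x y) → ∀ R : ℝ,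
        ∃ x, 0 < dl x ∧ ∀ y, 0 < dl y → R < Dq (f x) (g y) := by
  refine ⟨fmap m ψ, fun x hx => fmap_ball ψ hx, ⟨1, le_rfl, Real.log 4,
    Real.log_nonneg (by norm_num), ?_⟩, ?_⟩
  · intro x y hx hy
    obtain ⟨h1, h2⟩ := qf_fmap hl hx hy
    have h3 : Dq x y ≤ Dq (fmap m ψ x) (fmap m ψ y) := Kf_mono h1
    have h4 : Dq (fmap m ψ x) (fmap m ψ y) ≤ Dq x y + Real.log 4 :=
      Kf_le_add (one_le_qf hx hy) h2
    have h5 : 0 ≤ Real.log 4 := Real.log_nonneg (by norm_num)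
    rw [div_one, one_mul]
    exact ⟨by linarith, h4⟩
  · intro g hgb hg R
    by_contra hcon
    apply hno
    refine boundary_vectors ψ hc g hgb hg R fun x hx => ?_
    by_contra hcon2
    apply hcon
    refine ⟨x, hx, fun y hy => ?_⟩
    by_contra hcon3
    exact hcon2 ⟨y, hy, not_lt.1 hcon3⟩

theorem core' (n : ℕ) (hn : 1 ≤ n) :
    ∃ f : (Fin n → Hq) → (Fin (n + 1) → Hq),
      (∀ x, 0 < dl x → 0 < dl (f x)) ∧
      (∃ L : ℝ, 1 ≤ L ∧ ∃ C : ℝ, 0 ≤ C ∧ ∀ x y, 0 < dl x → 0 < dl y →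
        Dq x y / L - C ≤ Dq (f x) (f y) ∧ Dq (f x) (f y) ≤ L * Dq x y + C) ∧
      ∀ g : (Fin n → Hq) → (Fin (n + 1) → Hq), (∀ x, 0 < dl x → 0 < dl (g x)) →
        (∀ x y, 0 < dl x → 0 < dl y → Dq (g x) (g y) = Dq x y) → ∀ R : ℝ,
        ∃ x, 0 < dl x ∧ ∀ y, 0 < dl y → R < Dq (f x) (g y) := by
  obtain ⟨m, rfl⟩ : ∃ m, n = m + 1 := ⟨n - 1, by omega⟩
  rcases m with _ | k
  · exact core 0 (psi0 0) lip0 cont0 no_vec_zero
  · exact core (k + 1) (psi1 k) (lip1 k) (cont1 k) (no_vec_succ k)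

/-- For every n ≥ 1 there is a quasi-isometric embedding of quaternionic hyperbolic n-space (ball model) into quaternionic hyperbolic (n+1)-space whose image is at infinite Hausdorff distance from the image of every isometric embedding. -/
theorem result :
    ∀ D : (k : ℕ) → (Fin k → Quaternion ℝ) → (Fin k → Quaternion ℝ) → ℝ,
      D = (fun (k : ℕ) (x y : Fin k → Quaternion ℝ) =>
        Real.arsinh (Real.sqrt
          (‖(1 : Quaternion ℝ) - ∑ i, star (x i) * y i‖ ^ 2 /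
            ((1 - ∑ i, ‖x i‖ ^ 2) * (1 - ∑ i, ‖y i‖ ^ 2)) - 1))) →
    ∀ n : ℕ, 1 ≤ n →
      ∃ f : (Fin n → Quaternion ℝ) → (Fin (n + 1) → Quaternion ℝ),
        (∀ x : Fin n → Quaternion ℝ, ∑ i, ‖x i‖ ^ 2 < 1 → ∑ i, ‖f x i‖ ^ 2 < 1) ∧
        (∃ L : ℝ, 1 ≤ L ∧ ∃ C : ℝ, 0 ≤ C ∧
          ∀ x y : Fin n → Quaternion ℝ, ∑ i, ‖x i‖ ^ 2 < 1 → ∑ i, ‖y i‖ ^ 2 < 1 →
            D n x y / L - C ≤ D (n + 1) (f x) (f y) ∧
            D (n + 1) (f x) (f y) ≤ L * D n x y + C) ∧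
        ∀ g : (Fin n → Quaternion ℝ) → (Fin (n + 1) → Quaternion ℝ),
          (∀ x : Fin n → Quaternion ℝ, ∑ i, ‖x i‖ ^ 2 < 1 → ∑ i, ‖g x i‖ ^ 2 < 1) →
          (∀ x y : Fin n → Quaternion ℝ, ∑ i, ‖x i‖ ^ 2 < 1 → ∑ i, ‖y i‖ ^ 2 < 1 →
            D (n + 1) (g x) (g y) = D n x y) →
          ∀ R : ℝ,
            (∃ x : Fin n → Quaternion ℝ, ∑ i, ‖x i‖ ^ 2 < 1 ∧
              ∀ y : Fin n → Quaternion ℝ, ∑ i, ‖y i‖ ^ 2 < 1 → R < D (n + 1) (f x) (g y)) ∨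
            (∃ x : Fin n → Quaternion ℝ, ∑ i, ‖x i‖ ^ 2 < 1 ∧
              ∀ y : Fin n → Quaternion ℝ, ∑ i, ‖y i‖ ^ 2 < 1 → R < D (n + 1) (g x) (f y)) := by
  intro D hD n hn
  subst hD
  obtain ⟨f, h1, ⟨L, hL, C, hC, h2⟩, h3⟩ := core' n hn
  have hb : ∀ {k : ℕ} {x : Fin k → Quaternion ℝ}, ∑ i, ‖x i‖ ^ 2 < 1 → 0 < dl x := by
    intro k x hx; exact sub_pos.2 hx
  have hb' : ∀ {k : ℕ} {x : Fin k → Quaternion ℝ}, 0 < dl x → ∑ i, ‖x i‖ ^ 2 < 1 := by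
    intro k x hx; exact sub_pos.1 hx
  refine ⟨f, fun x hx => hb' (h1 x (hb hx)), ⟨L, hL, C, hC, fun x y hx hy => ?_⟩,
    fun g hg1 hg2 R => Or.inl ?_⟩
  · exact h2 x y (hb hx) (hb hy)
  · obtain ⟨x, hx, hx2⟩ := h3 g (fun x hx => hb (hg1 x (hb' hx)))
      (fun x y hx hy => hg2 x y (hb' hx) (hb' hy)) R
    exact ⟨x, hb' hx, fun y hy => hx2 y (hb hy)⟩

end Pool.Agent.S14191
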