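import Pool.Statements.S14256
import Pool.Agent.Lib_MP_f78f32_gb.Bod
-- import your own Pool.Agent.* helpers here

set_option autoImplicit false
open Pool Pool.MP_f78f32_gt

namespace Pool.Agent.S14256

/-- The negation of the preceding statement: There is a compact convex set K in 3-space with nonempty interior and K = −K such that every plane section through the origin has the same boundary length (1-dimensional Hausdorff measure), yet K is not a closed ball. -/
theorem result :
    ¬ (∃ K : Set (EuclideanSpace ℝ (Fin 3)),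
    IsCompact K ∧ Convex ℝ K ∧ (interior K).Nonempty ∧ (∀ x ∈ K, -x ∈ K) ∧
    (∃ p : ENNReal, ∀ e : EuclideanSpace ℝ (Fin 3), ‖e‖ = 1 →
      MeasureTheory.Measure.hausdorffMeasure (1:ℝ)
        {x : EuclideanSpace ℝ (Fin 3) | x ∈ K ∧ inner ℝ x e = (0:ℝ) ∧
          ∀ ε : ℝ, ε > 0 → ∃ y : EuclideanSpace ℝ (Fin 3),
            inner ℝ y e = (0:ℝ) ∧ dist y x < ε ∧ y ∉ K} = p) ∧
    ¬ ∃ (c : EuclideanSpace ℝ (Fin 3)) (r : ℝ), K = Metric.closedBall c r) := by
  rintro ⟨K, hK, hconv, hint, hsym, hper, hne⟩
  exact hne (Pool.Agent.Lib_MP_f78f32_gb.global_rigidity K hK hconv hint hsym hper)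

end Pool.Agent.S14256
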