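import Pool.Statements.S15278
import Pool.Agent.Lib_MP_b8ab30.Pig

set_option autoImplicit false
open MeasureTheory
open Pool Pool.MP_b8ab30_lc

namespace Pool.Agent.S15278

/-- The negation of the preceding statement: There is a countable Borel equivalence relation E on a standard Borel space with an E-invariant ergodic probability measure such that, for every invariant Borel set of measure 1, every countable Borel equivalence relation Borel-reduces to E restricted to that set. -/
theorem result :
    ¬ (∃ (X : Type) (_ : MeasurableSpace X), StandardBorelSpace X ∧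
    ∃ (E : X → X → Prop) (μ : Measure X),
      MeasurableSet {p : X × X | E p.1 p.2} ∧ Equivalence E ∧ (∀ x, {y | E x y}.Countable) ∧
      IsProbabilityMeasure μ ∧
      (∀ T : X ≃ᵐ X, (∀ x, E x (T x)) → MeasurePreserving T μ μ) ∧
      (∀ A : Set X, MeasurableSet A → (∀ x y, E x y → (x ∈ A ↔ y ∈ A)) →
        μ A = 0 ∨ μ A = 1) ∧
      (∀ A : Set X, MeasurableSet A → (∀ x y, E x y → (x ∈ A ↔ y ∈ A)) → μ A = 1 →
        ∀ (Y : Type) (_ : MeasurableSpace Y), StandardBorelSpace Y →
          ∀ F : Y → Y → Prop, MeasurableSet {p : Y × Y | F p.1 p.2} → Equivalence F →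
            (∀ y, {z | F y z}.Countable) →
            ∃ f : Y → X, Measurable f ∧ (∀ y, f y ∈ A) ∧ ∀ y z, F y z ↔ E (f y) (f z))) := by
  rintro ⟨X, mX, hX, E, μ, hE, hEq, hcount, hμ, hinv, -, hU⟩
  haveI := hX
  haveI := hμ
  refine Pool.MPb8ab30.main μ E ⟨hE, hEq, hcount⟩ hinv ?_
  intro c A hA hAi hA1
  have hF := Pool.MPb8ab30.cber_F c
  exact hU A hA hAi hA1 Pool.MPb8ab30.Y inferInstance inferInstance (Pool.MPb8ab30.F c) hF.meas hF.equiv hF.count

end Pool.Agent.S15278
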