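import Pool.Statements.S15353

set_option autoImplicit false
open Pool Pool.MP_cc69c8_lc

namespace Pool.Agent.S15353

/-- `D` is a dominating family of functions. -/
def Dom (D : Set (ℕ → ℕ)) : Prop :=
  ∀ f : ℕ → ℕ, ∃ g ∈ D, ∀ᶠ n in Filter.atTop, f n ≤ g n

/-- `code f k` codes the restriction of `f` to `{0, ..., k}`, and is at least `f k`. -/
def code (f : ℕ → ℕ) (k : ℕ) : ℕ :=
  Nat.pair (f k) (Encodable.encode ((List.range k).map f))

theorem le_code (f : ℕ → ℕ) (k : ℕ) : f k ≤ code f k := Nat.left_le_pair _ _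

theorem code_inj {f g : ℕ → ℕ} {k : ℕ} (h : code f k = code g k) :
    ∀ j, j ≤ k → f j = g j := by
  unfold code at h
  rw [Nat.pair_eq_pair] at h
  obtain ⟨h1, h2⟩ := h
  have h3 := Encodable.encode_injective h2
  rw [List.map_inj_left] at h3
  intro j hj
  rcases Nat.lt_or_ge j k with hlt | hge
  · exact h3 j (List.mem_range.mpr hlt)
  · have : j = k := le_antisymm hj hge
    rw [this]; exact h1

/-- The graph of `code f`, as a subset of `ℕ` through the pairing function. -/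
def graph (f : ℕ → ℕ) : Set ℕ := Set.range (fun k => Nat.pair k (code f k))

/-- The `m`-th column. -/
def col (m : ℕ) : Set ℕ := Set.range (fun j => Nat.pair m j)

theorem graph_infinite (f : ℕ → ℕ) : (graph f).Infinite := by
  apply Set.infinite_range_of_injective
  intro a b h
  exact (Nat.pair_eq_pair.mp h).1

theorem col_infinite (m : ℕ) : (col m).Infinite := by
  apply Set.infinite_range_of_injective
  intro a b h
  exact (Nat.pair_eq_pair.mp h).2

theorem graph_injective : Function.Injective graph := by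
  intro f g h
  funext j
  have : Nat.pair j (code f j) ∈ graph g := by rw [← h]; exact ⟨j, rfl⟩
  obtain ⟨k, hk⟩ := this
  have hk' := Nat.pair_eq_pair.mp hk
  have h1 : k = j := hk'.1
  subst h1
  exact (code_inj hk'.2 k le_rfl).symm

theorem graph_inter_finite {f g : ℕ → ℕ} (h : f ≠ g) : (graph f ∩ graph g).Finite := by
  obtain ⟨j, hj⟩ := Function.ne_iff.mp h
  apply (Set.finite_lt_nat j).image (fun k => Nat.pair k (code f k)) |>.subset
  rintro x ⟨⟨k, hk⟩, ⟨l, hl⟩⟩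
  have hkl : Nat.pair k (code f k) = Nat.pair l (code g l) := by
    simp only at hk hl
    rw [hk, hl]
  have h2 := Nat.pair_eq_pair.mp hkl
  have h1 : k = l := h2.1
  subst h1
  refine ⟨k, ?_, hk⟩
  by_contra hcon
  exact hj (code_inj h2.2 j (not_lt.mp hcon))

theorem col_inter_finite {m n : ℕ} (h : m ≠ n) : (col m ∩ col n).Finite := by
  have : col m ∩ col n = ∅ := by
    ext x
    simp only [Set.mem_inter_iff, Set.mem_empty_iff_false, iff_false]
    rintro ⟨⟨k, hk⟩, ⟨l, hl⟩⟩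
    have hkl : Nat.pair m k = Nat.pair n l := by
      simp only at hk hl
      rw [hk, hl]
    exact h (Nat.pair_eq_pair.mp hkl).1
  rw [this]; exact Set.finite_empty

theorem col_graph_finite (m : ℕ) (f : ℕ → ℕ) : (col m ∩ graph f).Finite := by
  apply (Set.finite_singleton (Nat.pair m (code f m))).subset
  rintro x ⟨⟨k, hk⟩, ⟨l, hl⟩⟩
  have hkl : Nat.pair m k = Nat.pair l (code f l) := by
    simp only at hk hl
    rw [hk, hl]
  have h2 := (Nat.pair_eq_pair.mp hkl).1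
  subst h2
  exact hl.symm

/-- The almost disjoint family: all columns, and the graphs for `f` in `D1`. -/
def fam (D1 : Set (ℕ → ℕ)) : Set (Set ℕ) := Set.range col ∪ graph '' D1

theorem fam_infinite (D1 : Set (ℕ → ℕ)) : ∀ a ∈ fam D1, a.Infinite := by
  rintro a (⟨m, rfl⟩ | ⟨f, -, rfl⟩)
  · exact col_infinite m
  · exact graph_infinite f

theorem fam_ad (D1 : Set (ℕ → ℕ)) : ∀ a ∈ fam D1, ∀ b ∈ fam D1, a ≠ b → (a ∩ b).Finite := by
  rintro a (⟨m, rfl⟩ | ⟨f, -, rfl⟩) b (⟨n, rfl⟩ | ⟨g, -, rfl⟩) hab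
  · exact col_inter_finite (fun h => hab (by rw [h]))
  · exact col_graph_finite m g
  · rw [Set.inter_comm]; exact col_graph_finite n f
  · exact graph_inter_finite (fun h => hab (by rw [h]))

/-- A dominating family is infinite. -/
theorem Dom.infinite {D : Set (ℕ → ℕ)} (hD : Dom D) : D.Infinite := by
  intro hfin
  obtain ⟨g, hg, hgf⟩ := hD (fun n => ∑ h ∈ hfin.toFinset, h n + 1)
  obtain ⟨n, hn⟩ := hgf.exists
  have : g n ≤ ∑ h ∈ hfin.toFinset, h n :=
    Finset.single_le_sum (f := fun h : ℕ → ℕ => h n) (fun _ _ => Nat.zero_le _)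
      (hfin.mem_toFinset.mpr hg)
  omega

/-- The translates of the members of `D`. -/
def shifts (D : Set (ℕ → ℕ)) : Set (ℕ → ℕ) :=
  Set.range (fun p : D × ℕ => fun k => (p.1 : ℕ → ℕ) k + p.2)

theorem shifts_dom {D : Set (ℕ → ℕ)} (hD : Dom D) :
    ∀ f : ℕ → ℕ, ∃ g ∈ shifts D, ∀ n, f n ≤ g n := by
  intro f
  obtain ⟨g, hg, hgf⟩ := hD f
  obtain ⟨N, hN⟩ := Filter.eventually_atTop.mp hgf
  refine ⟨fun k => g k + ∑ i ∈ Finset.range N, f i, ⟨(⟨g, hg⟩, ∑ i ∈ Finset.range N, f i), rfl⟩, ?_⟩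
  intro n
  show f n ≤ g n + ∑ i ∈ Finset.range N, f i
  rcases Nat.lt_or_ge n N with h | h
  · have : f n ≤ ∑ i ∈ Finset.range N, f i :=
      Finset.single_le_sum (f := f) (fun _ _ => Nat.zero_le _) (Finset.mem_range.mpr h)
    omega
  · exact le_trans (hN n h) (Nat.le_add_right _ _)

theorem mk_fam {D : Set (ℕ → ℕ)} (hD : D.Infinite) :
    Cardinal.mk (fam (shifts D)) = Cardinal.mk D := by
  have hal : Cardinal.aleph0 ≤ Cardinal.mk D := by
    rw [Cardinal.aleph0_le_mk_iff]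
    exact hD.to_subtype
  apply le_antisymm
  · have h1 : Cardinal.mk (fam (shifts D)) ≤ Cardinal.mk (Set.range col)
        + Cardinal.mk (graph '' (shifts D)) := Cardinal.mk_union_le _ _
    have h2 : Cardinal.mk (Set.range col) ≤ Cardinal.mk D :=
      le_trans (by simpa using (Cardinal.mk_range_le (f := col))) hal
    have h3 : Cardinal.mk (graph '' (shifts D)) ≤ Cardinal.mk D := by
      refine le_trans Cardinal.mk_image_le ?_
      refine le_trans (Cardinal.mk_range_le) ?_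
      rw [Cardinal.mk_prod]
      simp only [Cardinal.lift_id, Cardinal.mk_nat]
      exact Cardinal.mul_le_of_le hal le_rfl hal
    exact le_trans h1 (Cardinal.add_le_of_le hal h2 h3)
  · have h4 : D ⊆ shifts D := by
      intro f hf
      exact ⟨(⟨f, hf⟩, 0), rfl⟩
    calc Cardinal.mk D ≤ Cardinal.mk (shifts D) := Cardinal.mk_le_mk_of_subset h4
      _ = Cardinal.mk (graph '' (shifts D)) := (Cardinal.mk_image_eq graph_injective).symm
      _ ≤ Cardinal.mk (fam (shifts D)) := Cardinal.mk_le_mk_of_subset Set.subset_union_right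

/-- Minimal dominating families exist. -/
theorem exists_min_dom : ∃ D : Set (ℕ → ℕ), Dom D ∧
    ∀ D' : Set (ℕ → ℕ), Dom D' → Cardinal.mk D ≤ Cardinal.mk D' := by
  have hne : (Set.range (fun D : {D : Set (ℕ → ℕ) // Dom D} => Cardinal.mk D.1)).Nonempty := by
    refine ⟨_, ⟨⟨Set.univ, fun f => ⟨f, Set.mem_univ _, Filter.Eventually.of_forall
      (fun _ => le_rfl)⟩⟩, rfl⟩⟩
  obtain ⟨⟨D, hD⟩, hDm⟩ := csInf_mem hne
  refine ⟨D, hD, fun D' hD' => ?_⟩
  simp only at hDm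
  rw [hDm]
  exact csInf_le' ⟨⟨D', hD'⟩, rfl⟩

/-- Neighbourhoods of the points of the family in the Psi-space. -/
theorem nhd_aux {A : Set (Set ℕ)} {t : TopologicalSpace (ℕ ⊕ A)}
    (ht : t = TopologicalSpace.generateFrom
        ({s : Set (ℕ ⊕ A) | ∃ n : ℕ, s = {Sum.inl n}} ∪
         {s : Set (ℕ ⊕ A) | ∃ a : A, ∃ F : Set ℕ, F.Finite ∧
            s = insert (Sum.inr a) (Sum.inl '' ((a : Set ℕ) \ F))}))
    {V : Set (ℕ ⊕ A)} (hV : @IsOpen _ t V) (a : A) (ha : Sum.inr a ∈ V) :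
    ∃ F : Set ℕ, F.Finite ∧ Sum.inl '' ((a : Set ℕ) \ F) ⊆ V := by
  subst ht
  induction hV with
  | basic s hs =>
    rcases hs with ⟨n, rfl⟩ | ⟨b, F, hF, rfl⟩
    · simp at ha
    · have hab : a = b := by simpa using ha
      subst hab
      exact ⟨F, hF, Set.subset_insert _ _⟩
  | univ => exact ⟨∅, Set.finite_empty, Set.subset_univ _⟩
  | inter s t _ _ ihs iht =>
    obtain ⟨F, hF, hFs⟩ := ihs ha.1
    obtain ⟨G, hG, hGt⟩ := iht ha.2
    refine ⟨F ∪ G, hF.union hG, ?_⟩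
    rintro x ⟨y, ⟨hy1, hy2⟩, rfl⟩
    exact ⟨hFs ⟨y, ⟨hy1, fun h => hy2 (Or.inl h)⟩, rfl⟩,
      hGt ⟨y, ⟨hy1, fun h => hy2 (Or.inr h)⟩, rfl⟩⟩
  | sUnion S _ ih =>
    obtain ⟨s, hs, has⟩ := ha
    obtain ⟨F, hF, hFs⟩ := ih s hs has
    exact ⟨F, hF, hFs.trans (Set.subset_sUnion_of_mem hs)⟩

/-- There is an almost disjoint family of infinite subsets of ℕ, of cardinality equal to the dominating number, whose Mrówka–Isbell space Ψ(A) is not selectively (a). -/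
theorem result :
  ∃ A : Set (Set ℕ),
    (∀ a ∈ A, a.Infinite) ∧ (∀ a ∈ A, ∀ b ∈ A, a ≠ b → (a ∩ b).Finite) ∧
    (∃ D : Set (ℕ → ℕ), (∀ f : ℕ → ℕ, ∃ g ∈ D, ∀ᶠ n in Filter.atTop, f n ≤ g n) ∧
        Cardinal.mk D = Cardinal.mk A) ∧
    (∀ D : Set (ℕ → ℕ), (∀ f : ℕ → ℕ, ∃ g ∈ D, ∀ᶠ n in Filter.atTop, f n ≤ g n) →
        Cardinal.mk A ≤ Cardinal.mk D) ∧
    ∀ t : TopologicalSpace (ℕ ⊕ A),
      t = TopologicalSpace.generateFrom
        ({s : Set (ℕ ⊕ A) | ∃ n : ℕ, s = {Sum.inl n}} ∪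
         {s : Set (ℕ ⊕ A) | ∃ a : A, ∃ F : Set ℕ, F.Finite ∧
            s = insert (Sum.inr a) (Sum.inl '' ((a : Set ℕ) \ F))}) →
      ¬ (∀ U : ℕ → Set (Set (ℕ ⊕ A)),
          (∀ n, (∀ u ∈ U n, @IsOpen _ t u) ∧ ⋃₀ U n = Set.univ) →
          ∀ Dn : Set (ℕ ⊕ A), @Dense _ t Dn →
          ∃ F : ℕ → Set (ℕ ⊕ A),
            (∀ n, F n ⊆ Dn ∧ ∀ x, ∃ V : Set (ℕ ⊕ A), @IsOpen _ t V ∧ x ∈ V ∧ V ∩ F n ⊆ {x}) ∧
            ∀ x, ∃ n, ∃ u ∈ U n, x ∈ u ∧ (u ∩ F n).Nonempty) := by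
  obtain ⟨D, hD, hmin⟩ := exists_min_dom
  refine ⟨fam (shifts D), fam_infinite _, fam_ad _, ⟨D, hD, (mk_fam hD.infinite).symm⟩, ?_, ?_⟩
  · intro D' hD'
    rw [mk_fam hD.infinite]
    exact hmin D' hD'
  intro t ht hsel
  -- the covers
  let init : ℕ → Set ℕ := fun n => {x | (Nat.unpair x).1 < n}
  have hfin : ∀ (a : fam (shifts D)) (n : ℕ), (∃ f ∈ shifts D, graph f = a) →
      ((a : Set ℕ) ∩ init n).Finite := by
    rintro a n ⟨f, -, hf⟩
    rw [← hf]
    apply ((Set.finite_lt_nat n).image (fun k => Nat.pair k (code f k))).subset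
    rintro x ⟨⟨k, rfl⟩, hx⟩
    refine ⟨k, ?_, rfl⟩
    simpa [init] using hx
  let U : ℕ → Set (Set (ℕ ⊕ fam (shifts D))) := fun n =>
    {s | ∃ k : ℕ, s = {Sum.inl k}} ∪
    {s | ∃ a : fam (shifts D), (∃ m, col m = a) ∧ s = insert (Sum.inr a) (Sum.inl '' (a : Set ℕ))} ∪
    {s | ∃ a : fam (shifts D), (∃ f ∈ shifts D, graph f = a) ∧ (¬ ∃ m, col m = a) ∧
        s = insert (Sum.inr a) (Sum.inl '' ((a : Set ℕ) \ init n))}
  have hU : ∀ n, (∀ u ∈ U n, @IsOpen _ t u) ∧ ⋃₀ U n = Set.univ := by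
    intro n
    constructor
    · rintro u ((⟨k, rfl⟩ | ⟨a, -, rfl⟩) | ⟨a, ha, -, rfl⟩)
      · rw [ht]
        exact TopologicalSpace.isOpen_generateFrom_of_mem (Or.inl ⟨k, rfl⟩)
      · rw [ht]
        refine TopologicalSpace.isOpen_generateFrom_of_mem (Or.inr ⟨a, ∅, Set.finite_empty, ?_⟩)
        rw [Set.sdiff_empty]
      · rw [ht]
        refine TopologicalSpace.isOpen_generateFrom_of_mem (Or.inr ⟨a, _, hfin a n ha, ?_⟩)
        rw [Set.sdiff_self_inter]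
    · rw [Set.eq_univ_iff_forall]
      rintro (k | a)
      · exact ⟨{Sum.inl k}, Or.inl (Or.inl ⟨k, rfl⟩), rfl⟩
      · by_cases hc : ∃ m, col m = a
        · exact ⟨_, Or.inl (Or.inr ⟨a, hc, rfl⟩), Set.mem_insert _ _⟩
        · have hg : ∃ f ∈ shifts D, graph f = a := by
            rcases a.2 with ⟨m, hm⟩ | ⟨f, hf, hfa⟩
            · exact absurd ⟨m, hm⟩ hc
            · exact ⟨f, hf, hfa⟩
          exact ⟨_, Or.inr ⟨a, hg, hc, rfl⟩, Set.mem_insert _ _⟩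
  have hdense : @Dense _ t (Set.range (Sum.inl : ℕ → ℕ ⊕ fam (shifts D))) := by
    let _ := t
    intro x
    rw [mem_closure_iff]
    intro V hV hx
    rcases x with k | a
    · exact ⟨Sum.inl k, hx, ⟨k, rfl⟩⟩
    · obtain ⟨F, hF, hFV⟩ := nhd_aux ht hV a hx
      obtain ⟨y, hy⟩ := ((fam_infinite _ a.1 a.2).sdiff hF).nonempty
      exact ⟨Sum.inl y, hFV ⟨y, hy, rfl⟩, ⟨y, rfl⟩⟩
  obtain ⟨F, hF, hcov⟩ := hsel U hU _ hdense
  -- bounds on columns
  have hbd : ∀ n k : ℕ, ∃ b : ℕ, ∀ m, Sum.inl (Nat.pair k m) ∈ F n → m < b := by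
    intro n k
    obtain ⟨V, hV, hxV, hVF⟩ := (hF n).2 (Sum.inr ⟨col k, Or.inl ⟨k, rfl⟩⟩)
    obtain ⟨G, hG, hGV⟩ := nhd_aux ht hV _ hxV
    have hsub : {m | Sum.inl (Nat.pair k m) ∈ F n} ⊆ (fun m => Nat.pair k m) ⁻¹' G := by
      intro m hm
      by_contra hcon
      have h1 : (Sum.inl (Nat.pair k m) : ℕ ⊕ fam (shifts D)) ∈ V :=
        hGV ⟨Nat.pair k m, ⟨⟨m, rfl⟩, hcon⟩, rfl⟩
      have h2 := hVF ⟨h1, hm⟩
      simp at h2
    have hfin2 : {m | Sum.inl (Nat.pair k m) ∈ F n}.Finite := by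
      refine (hG.preimage ?_).subset hsub
      intro a _ b _ h
      exact (Nat.pair_eq_pair.mp h).2
    obtain ⟨b, hb⟩ := hfin2.bddAbove
    exact ⟨b + 1, fun m hm => Nat.lt_succ_of_le (hb hm)⟩
  choose b hb using hbd
  obtain ⟨g, hg, hgb⟩ := shifts_dom hD (fun k => ∑ n ∈ Finset.range (k + 1), b n k)
  obtain ⟨n, u, hu, hxu, y, hyu, hyF⟩ := hcov (Sum.inr ⟨graph g, Or.inr ⟨g, hg, rfl⟩⟩)
  have hnotcol : ¬ ∃ m, col m = graph g := by
    rintro ⟨m, hm⟩
    apply col_infinite m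
    have := col_graph_finite m g
    rwa [← hm, Set.inter_self] at this
  rcases hu with (⟨k, rfl⟩ | ⟨a, ⟨m, hm⟩, rfl⟩) | ⟨a, ha, hnc, rfl⟩
  · simp at hxu
  · have hga : (⟨graph g, Or.inr ⟨g, hg, rfl⟩⟩ : fam (shifts D)) = a := by simpa using hxu
    apply hnotcol
    refine ⟨m, ?_⟩
    rw [hm, ← hga]
  · have hga : (⟨graph g, Or.inr ⟨g, hg, rfl⟩⟩ : fam (shifts D)) = a := by simpa using hxu
    have hga' : (a : Set ℕ) = graph g := by rw [← hga]
    obtain ⟨z, rfl⟩ := (hF n).1 hyF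
    rcases hyu with h | ⟨z', ⟨hz1, hz2⟩, hz3⟩
    · simp at h
    · have hzz : z' = z := by simpa using hz3
      subst hzz
      rw [hga'] at hz1
      obtain ⟨k, hk⟩ := hz1
      simp only at hk
      subst hk
      have hkn : n ≤ k := by
        by_contra hcon
        apply hz2
        simpa [init] using (not_le.mp hcon)
      have h1 := hb n k _ hyF
      have h2 : b n k ≤ ∑ n ∈ Finset.range (k + 1), b n k :=
        Finset.single_le_sum (f := fun n => b n k) (fun _ _ => Nat.zero_le _)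
          (Finset.mem_range.mpr (Nat.lt_succ_of_le hkn))
      have h3 := hgb k
      have h4 := le_code g k
      omega

end Pool.Agent.S15353
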