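import Pool.Statements.S15657
import Pool.Agent.LibFed070.Main

set_option autoImplicit false
open Pool Pool.MP_fed070_lc

namespace Pool.Agent.S15657

open Pool.Agent.LibFed070

/-- For every computable, computably bounded tree T, some computable commutative ring with unity has a bijection from the infinite paths of T onto its prime ideals (as 0/1 characteristic functions) in which each path is Turing equivalent to its image. -/
theorem result :
  ∀ (T : List ℕ → Bool) (g : List ℕ → ℕ), Computable T → Computable g →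
    (∀ σ τ : List ℕ, σ <+: τ → T τ = true → T σ = true) →
    (∀ (σ : List ℕ) (i : ℕ), T (σ ++ [i]) = true → i < g σ) →
    ∃ (U : ℕ → Bool) (add mul : ℕ → ℕ → ℕ) (neg : ℕ → ℕ) (zero one : ℕ),
      Computable U ∧ Computable₂ add ∧ Computable₂ mul ∧ Computable neg ∧
      U zero = true ∧ U one = true ∧
      (∀ a b, U a = true → U b = true → U (add a b) = true ∧ U (mul a b) = true) ∧
      (∀ a, U a = true → U (neg a) = true) ∧
      (∀ a b c, U a = true → U b = true → U c = true →
        add (add a b) c = add a (add b c) ∧ mul (mul a b) c = mul a (mul b c) ∧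
        mul a (add b c) = add (mul a b) (mul a c)) ∧
      (∀ a b, U a = true → U b = true → add a b = add b a ∧ mul a b = mul b a) ∧
      (∀ a, U a = true → add zero a = a ∧ add a (neg a) = zero ∧ mul one a = a) ∧
      ∃ F : (ℕ → ℕ) → (ℕ → ℕ),
        Set.BijOn F {f : ℕ → ℕ | ∀ n, T ((List.range n).map f) = true}
          {χ : ℕ → ℕ | (∀ n, χ n = 0 ∨ χ n = 1) ∧
            (∀ n, χ n = 1 → U n = true) ∧
            χ zero = 1 ∧ χ one = 0 ∧
            (∀ a b, χ a = 1 → χ b = 1 → χ (add a b) = 1) ∧
            (∀ a b, U a = true → χ b = 1 → χ (mul a b) = 1) ∧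
            (∀ a b, U a = true → U b = true → χ (mul a b) = 1 → χ a = 1 ∨ χ b = 1)} ∧
        ∀ f : ℕ → ℕ, (∀ n, T ((List.range n).map f) = true) →
          TuringEquivalent (PFun.lift f) (PFun.lift (F f)) := by
  intro T g hTc hgc hclosed hbdd
  by_cases hne : ∃ f0 : ℕ → ℕ, ∀ n, T ((List.range n).map f0) = true
  · obtain ⟨f0, hf0⟩ := hne
    have hT : TreeHyp T g := ⟨hf0 0, hclosed, hbdd⟩
    have hcut := isCut_cutOf hT f0 hf0
    have hP : Dom T g rt ut := hcut.dom rt hcut.rt_mem ut hcut.ut_not_mem
    have heqC := computable_eqC hTc hgc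
    have heq := eqC_iff T g hP
    have hrep : ∀ x, nu T g (rep (nu T g) (nu_surj T g) x) = x := ν_rep (nu T g) (nu_surj T g)
    have huniv : ∀ x, univ (nu T g) (nu_surj T g) (rep (nu T g) (nu_surj T g) x) = true :=
      univ_rep (nu T g) (nu_surj T g)
    have hcan : ∀ a, univ (nu T g) (nu_surj T g) a = true →
        rep (nu T g) (nu_surj T g) (nu T g a) = a := fun a ha => (univ_iff _ _ a).1 ha
    refine ⟨univ (nu T g) (nu_surj T g),
      fun a b => rep (nu T g) (nu_surj T g) (nu T g a + nu T g b),
      fun a b => rep (nu T g) (nu_surj T g) (nu T g a * nu T g b),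
      fun a => rep (nu T g) (nu_surj T g) (- nu T g a),
      rep (nu T g) (nu_surj T g) 0, rep (nu T g) (nu_surj T g) 1,
      computable_univ _ _ heqC heq,
      computable_add _ _ (computable_addC hTc hgc) (nu_add T g) heqC heq,
      computable_mul _ _ (computable_mulC hTc hgc) (nu_mul T g) heqC heq,
      computable_neg _ _ (negC := fun a => a) Computable.id (nu_neg T g) heqC heq,
      huniv _, huniv _, fun a b _ _ => ⟨huniv _, huniv _⟩, fun a _ => huniv _, ?_, ?_, ?_,
      chf T g, bijOn_chf hT, ?_⟩
    · intro a b c _ _ _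
      simp only [hrep]
      refine ⟨?_, ?_, ?_⟩
      · rw [add_assoc]
      · rw [mul_assoc]
      · rw [mul_add]
    · intro a b _ _
      refine ⟨?_, ?_⟩
      · change rep _ _ _ = rep _ _ _
        rw [add_comm]
      · change rep _ _ _ = rep _ _ _
        rw [mul_comm]
    · intro a ha
      simp only [hrep]
      refine ⟨?_, ?_, ?_⟩
      · rw [zero_add, hcan a ha]
      · rw [add_neg_cancel]
      · rw [one_mul, hcan a ha]
    · intro f hf
      exact ⟨path_reducible hTc hgc hT hP f hf, chf_reducible hTc hgc hT hP f hf⟩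
  · refine ⟨fun n => decide (n = 0), fun _ _ => 0, fun _ _ => 0, fun _ => 0, 0, 0,
      ?_, Computable.const 0, Computable.const 0, Computable.const 0, rfl, rfl,
      fun _ _ _ _ => ⟨rfl, rfl⟩, fun _ _ => rfl, fun _ _ _ _ _ _ => ⟨rfl, rfl, rfl⟩,
      fun _ _ _ _ => ⟨rfl, rfl⟩, ?_, id, ?_, ?_⟩
    · exact ((Primrec.eq (α := ℕ)).decide.comp Primrec.id (Primrec.const 0)).to_comp
    · intro a ha
      have h0 : a = 0 := by simpa using ha
      subst h0
      exact ⟨rfl, rfl, rfl⟩
    · refine ⟨?_, ?_, ?_⟩
      · intro f hf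
        exact absurd ⟨f, hf⟩ hne
      · intro f hf
        exact absurd ⟨f, hf⟩ hne
      · intro χ hχ
        obtain ⟨_, _, h0, h1, _⟩ := hχ
        rw [h0] at h1
        exact absurd h1 (by decide)
    · intro f hf
      exact absurd ⟨f, hf⟩ hne

end Pool.Agent.S15657
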