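-- Proof of the frozen statement S16063 (MP_10b5ac_nt): all concatenation numbers of strictly increasing
-- k-regular sequences are transcendental.  The helpers prove, from Mathlib alone, a parametric b-adic
-- Subspace theorem (Pool.Agent.Sub.subspace) by the Thue-Siegel-Roth-Schmidt-Schlickewei method:
-- Siegel lemma, index counting, generalized Wronskians, Roth lemma, Minkowski second theorem,
-- Davenport lemma, compound forms.
import Pool.Statements.S16063
import Pool.Agent.Lib_MP_10b5ac_nt.Subspace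
import Pool.Agent.Lib_MP_10b5ac_nt.Approx
import Pool.Agent.Lib_MP_10b5ac_nt.NoAlg
import Pool.Agent.Lib_MP_10b5ac_nt.Irr
import Pool.Agent.Lib_MP_10b5ac_nt.Regular

set_option autoImplicit false
open Pool Pool.MP_10b5ac_nt

namespace Pool.Agent.S16063

/-- The number of the statement, for a strictly increasing k-regular sequence, is transcendental. -/
theorem transcendental_xi (k b : ℕ) (hk : 2 ≤ k) (hb : 2 ≤ b) (a : ℕ → ℕ) (hmono : StrictMono a)
    (hpos : ∀ n, 0 < a n)
    (hfg : (Submodule.span ℤ {f : ℕ → ℤ | ∃ e r : ℕ, r < k ^ e ∧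
          f = fun n => ((a (k ^ e * n + r) : ℕ) : ℤ)}).FG) :
    Transcendental ℚ (Pool.Agent.Sub.xi b a) := by
  intro halg
  obtain ⟨d, V, A, w, hV, hw⟩ := Pool.Agent.Sub.regular_basis k hk a hfg
  obtain ⟨C₁, h₁, hgrV⟩ := Pool.Agent.Sub.regular_growth k hk d V A hV
  obtain ⟨C₂, hgr⟩ : ∃ C₂ : ℕ, ∀ n, a n ≤ C₂ * (n + 1) ^ h₁ := by
    refine ⟨∑ j, (w j).natAbs * C₁, fun n => ?_⟩
    have h1 : ((a n : ℕ) : ℤ) ≤ ((∑ j, (w j).natAbs * C₁) * (n + 1) ^ h₁ : ℕ) := by
      rw [hw n]
      push_cast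
      rw [dotProduct, Finset.sum_mul]
      refine Finset.sum_le_sum fun j _ => ?_
      calc w j * V n j ≤ |w j * V n j| := le_abs_self _
        _ = |w j| * |V n j| := abs_mul _ _
        _ ≤ |w j| * (C₁ * ((n : ℤ) + 1) ^ h₁) :=
            mul_le_mul_of_nonneg_left (hgrV n j) (abs_nonneg _)
        _ = _ := by ring
    exact_mod_cast h1
  have hirr : Irrational (Pool.Agent.Sub.xi b a) :=
    Pool.Agent.Sub.xi_irrational b hb a hmono hpos C₂ h₁ hgr
  obtain ⟨d', c, T, C, r, s, p, hc, hs, hr, h⟩ := Pool.Agent.Sub.approx k b hk hb a hmono hpos hfg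
  exact Pool.Agent.Sub.no_alg_approx_of
    (fun hA b n hb hn L hL M hM hLr δ hδ C q hq ex B hB hvol hex hB1 hB2 x hx hdiv hsmall =>
      Pool.Agent.Sub.subspace hA b n hb hn L hL M hM hLr δ hδ C q hq ex B hB hvol hex hB1 hB2
        x hx hdiv hsmall)
    (Pool.Agent.Sub.xi b a) halg hirr b hb d' c hc T C r s p hs hr h

/-- For all k,b ≥ 2 and every strictly increasing k-regular sequence of positive integers a(n), the real number 0.(a(0))_b(a(1))_b… formed by concatenating the base-b expansions is transcendental. -/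
theorem result :
    ∀ (k : ℕ), 2 ≤ k → ∀ (b : ℕ), 2 ≤ b → ∀ (a : ℕ → ℕ), StrictMono a → (∀ n, 0 < a n) →
      (Submodule.span ℤ {f : ℕ → ℤ | ∃ e r : ℕ, r < k ^ e ∧
          f = fun n => ((a (k ^ e * n + r) : ℕ) : ℤ)}).FG →
      Transcendental ℚ
        (∑' n : ℕ, (a n : ℝ) /
          (b : ℝ) ^ (∑ i ∈ Finset.range (n + 1), (Nat.digits b (a i)).length)) := by
  intro k hk b hb a hmono hpos hfg
  have h := transcendental_xi k b hk hb a hmono hpos hfg
  unfold Pool.Agent.Sub.xi at h
  exact h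

end Pool.Agent.S16063
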