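import Pool.Statements.S18649
import Pool.Agent.Lib_MP_d8ed36_q1.Final
import Pool.Agent.Lib_MP_d8ed36_q1.InertC

set_option autoImplicit false
open Pool Pool.MP_d8ed36_nt

namespace Pool.Agent.S18649

open SunQ1

private theorem sum_eq (p : ℕ) (hp : 0 < p) :
    (∑ k ∈ Finset.range p,
      ((Nat.choose (2 * k) k : ℚ) ^ 2 * (Nat.choose (3 * k) k : ℚ)) / (64 : ℚ) ^ k) =
      (Sint p : ℚ) / 64 ^ (p - 1) := by
  rw [eq_div_iff (by positivity), Finset.sum_mul]
  unfold Sint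
  push_cast
  refine Finset.sum_congr rfl fun k hk => ?_
  have hk' : k + (p - 1 - k) = p - 1 := by
    have := Finset.mem_range.mp hk
    omega
  have e : (64 : ℚ) ^ (p - 1) = 64 ^ (p - 1 - k) * 64 ^ k := by
    rw [← pow_add, add_comm (p - 1 - k) k, hk']
  rw [div_mul_eq_mul_div, div_eq_iff (by positivity), e]
  ring

private theorem den_copr {p : ℕ} (hp : p.Prime) (h2 : p ≠ 2) (z : ℤ) (m : ℕ) :
    Nat.Coprime ((z : ℚ) / 64 ^ m).den p := by
  have h1 : (((z : ℚ) / 64 ^ m).den : ℤ) ∣ ((64 : ℤ) ^ m) := by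
    have := Rat.den_dvd z ((64 : ℤ) ^ m)
    rw [Rat.divInt_eq_div] at this
    push_cast at this
    exact this
  have h2' : ((z : ℚ) / 64 ^ m).den ∣ 64 ^ m := by exact_mod_cast h1
  refine Nat.Coprime.coprime_dvd_left h2' ?_
  refine Nat.Coprime.pow_left _ ?_
  have h64 : (64 : ℕ) = 2 ^ 6 := by norm_num
  rw [h64]
  refine Nat.Coprime.pow_left _ ?_
  exact (Nat.coprime_primes Nat.prime_two hp).mpr (Ne.symm h2)

private theorem from_dvd {p : ℕ} (hp : p.Prime) (h2 : p ≠ 2) (w : ℤ)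
    (h : (p : ℤ) ^ 2 ∣ (Sint p : ℤ) - 64 ^ (p - 1) * w) :
    ∃ r : ℚ, (∑ k ∈ Finset.range p,
      ((Nat.choose (2 * k) k : ℚ) ^ 2 * (Nat.choose (3 * k) k : ℚ)) / (64 : ℚ) ^ k) - (w : ℚ) =
        (p : ℚ) ^ 2 * r ∧ Nat.Coprime r.den p := by
  obtain ⟨z, hz⟩ := h
  refine ⟨(z : ℚ) / 64 ^ (p - 1), ?_, den_copr hp h2 z (p - 1)⟩
  rw [sum_eq p hp.pos]
  have hzq : (Sint p : ℚ) - 64 ^ (p - 1) * (w : ℚ) = (p : ℚ) ^ 2 * (z : ℚ) := by
    exact_mod_cast hz
  have h64 : (64 : ℚ) ^ (p - 1) ≠ 0 := by positivity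
  rw [mul_div_assoc', ← hzq, sub_div, mul_div_cancel_left₀ _ h64]

private theorem case3 (x y : ℤ) (h : 4 * ((3 : ℕ) : ℤ) = x ^ 2 + 11 * y ^ 2) : x ^ 2 = 1 := by
  push_cast at h
  have hy : y ^ 2 ≤ 1 := by nlinarith [sq_nonneg x]
  have hy0 : 0 ≤ y ^ 2 := sq_nonneg y
  have h01 : y ^ 2 = 0 ∨ y ^ 2 = 1 := by omega
  rcases h01 with h0 | h1
  · exfalso
    have hx : x ^ 2 = 12 := by linarith
    have hx1 : x ≤ 3 := by nlinarith
    have hx2 : -3 ≤ x := by nlinarith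
    interval_cases x <;> omega
  · linarith

/-- For every odd prime p≠11, the sum over k<p of C(2k,k)^2 C(3k,k)/64^k is congruent mod p^2 (p-integral sense) to x^2−2p when (p/11)=1 and 4p=x^2+11y^2, and to 0 when (p/11)=−1. -/
theorem result :
    ∀ p : ℕ, p.Prime → p ≠ 2 → p ≠ 11 →
      (jacobiSym (p : ℤ) 11 = 1 →
        ∀ x y : ℤ, 4 * (p : ℤ) = x ^ 2 + 11 * y ^ 2 →
          ∃ r : ℚ,
            (∑ k ∈ Finset.range p,
                ((Nat.choose (2 * k) k : ℚ) ^ 2 * (Nat.choose (3 * k) k : ℚ)) / (64 : ℚ) ^ k)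
              - ((x : ℚ) ^ 2 - 2 * (p : ℚ)) = (p : ℚ) ^ 2 * r
            ∧ Nat.Coprime r.den p) ∧
      (jacobiSym (p : ℤ) 11 = -1 →
          ∃ r : ℚ,
            (∑ k ∈ Finset.range p,
                ((Nat.choose (2 * k) k : ℚ) ^ 2 * (Nat.choose (3 * k) k : ℚ)) / (64 : ℚ) ^ k)
              = (p : ℚ) ^ 2 * r
            ∧ Nat.Coprime r.den p) := by
  intro p hp h2 h11
  have : Fact p.Prime := ⟨hp⟩
  rcases lt_or_ge p 5 with hlt | h5
  · have h3 : p = 3 := by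
      have := hp.two_le
      have h4 : p ≠ 4 := by
        rintro rfl
        exact absurd hp (by norm_num)
      omega
    subst h3
    refine ⟨fun _ x y hxy => ?_, fun hj => ?_⟩
    · have hx : (x : ℚ) ^ 2 = 1 := by exact_mod_cast case3 x y hxy
      refine ⟨(719 : ℤ) / 64 ^ 2 * 4, ?_, ?_⟩
      · rw [hx]
        simp only [Finset.sum_range_succ, Finset.sum_range_zero]
        norm_num [Nat.choose]
      · norm_num
    · exfalso
      have h1 : jacobiSym ((3 : ℕ) : ℤ) 11 = 1 := by norm_num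
      rw [h1] at hj
      exact absurd hj (by norm_num)
  · refine ⟨fun hj x y hxy => ?_, fun hj => ?_⟩
    · have h := split_dvd h5 h11 hj hxy
      have h' := from_dvd hp h2 _ h
      push_cast at h'
      exact h'
    · have h := inert_dvd h5 (no_sqrt h5 hj)
      have h0 : (p : ℤ) ^ 2 ∣ (Sint p : ℤ) - 64 ^ (p - 1) * (0 : ℤ) := by
        rw [mul_zero, sub_zero]
        exact h
      have h' := from_dvd hp h2 0 h0
      push_cast at h'
      rw [sub_zero] at h'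
      exact h'

end Pool.Agent.S18649
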