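import Pool.Statements.S19367
import Pool.Agent.Lib_MP_644907_full.Final

set_option autoImplicit false
open Pool Pool.MP_644907_pr

namespace Pool.Agent.S19367

/-- For a finitely supported random walk on disk isometries whose generated semigroup is a discrete non-elementary group, every stationary measure on the circle gives full mass to a set of Hausdorff dimension below that of the limit set. -/
theorem result :
  ∀ (n : ℕ) (p : Fin n → ℝ) (g : Fin n → ℂ → ℂ),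
    (∀ i, 0 < p i) → ∑ i, p i = 1 →
    (∀ i, ∃ u a : ℂ, ‖u‖ = 1 ∧ ‖a‖ < 1 ∧
      (g i = (fun z : ℂ => u * (z - a) / (1 - starRingEnd ℂ a * z)) ∨
       g i = (fun z : ℂ => u * (starRingEnd ℂ z - a) / (1 - starRingEnd ℂ a * starRingEnd ℂ z)))) →
    ∀ S : Set (ℂ → ℂ),
      S = ⋂₀ {T : Set (ℂ → ℂ) | Set.range g ⊆ T ∧ ∀ f ∈ T, ∀ h ∈ T, f ∘ h ∈ T} →
      (∀ f ∈ S, ∃ h ∈ S, ∀ z : ℂ, ‖z‖ ≤ 1 → h (f z) = z) →
      (∀ r : ℝ, r < 1 →
        ((fun f : ℂ → ℂ => (Metric.closedBall (0:ℂ) 1).restrict f) ''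
          {f : ℂ → ℂ | f ∈ S ∧ ‖f 0‖ ≤ r}).Finite) →
      (closure ((fun f : ℂ → ℂ => f 0) '' S) ∩ Metric.sphere (0:ℂ) 1).Infinite →
      ∀ ν : MeasureTheory.Measure ℂ, MeasureTheory.IsProbabilityMeasure ν →
        ν (Metric.sphere (0:ℂ) 1)ᶜ = 0 →
        (∀ A : Set ℂ, MeasurableSet A →
          ν A = ∑ i, ENNReal.ofReal (p i) * ν (g i ⁻¹' A)) →
        ∃ E : Set ℂ, MeasurableSet E ∧ ν Eᶜ = 0 ∧
          dimH E < dimH (closure ((fun f : ℂ → ℂ => f 0) '' S) ∩ Metric.sphere (0:ℂ) 1) :=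
  Pool.Agent.DD.main

end Pool.Agent.S19367
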