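import Pool.Statements.S19407
import Pool.Agent.Lib_755967.Final

set_option autoImplicit false
open MeasureTheory ProbabilityTheory Filter
open Pool Pool.MP_755967_pr

namespace Pool.Agent.S19407

/-- For the SK model with zero field, any β>0 and any a<0, both (1/N)E log Z_N and (1/(aN)) log E Z_N^a converge, to the same limit. -/
theorem result :
  ∀ β : ℝ, 0 < β → ∀ a : ℝ, a < 0 →
    ∃ L : ℝ,
      Tendsto (fun N : ℕ => (1 / (N : ℝ)) *
          ∫ g, Real.log (∑ σ : Fin N → Fin 2,
              Real.exp (β / Real.sqrt (N : ℝ) *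
                ∑ i : Fin N, ∑ j : Fin N,
                  if i < j then g (i, j) * (-1 : ℝ) ^ (σ i).val * (-1 : ℝ) ^ (σ j).val else 0))
            ∂(Measure.pi fun _ : Fin N × Fin N => gaussianReal 0 1))
        atTop (nhds L) ∧
      Tendsto (fun N : ℕ => (1 / (a * (N : ℝ))) *
          Real.log (∫ g, (∑ σ : Fin N → Fin 2,
              Real.exp (β / Real.sqrt (N : ℝ) *
                ∑ i : Fin N, ∑ j : Fin N,
                  if i < j then g (i, j) * (-1 : ℝ) ^ (σ i).val * (-1 : ℝ) ^ (σ j).val else 0)) ^ a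
            ∂(Measure.pi fun _ : Fin N × Fin N => gaussianReal 0 1)))
        atTop (nhds L) := by
  intro β hβ a ha
  obtain ⟨l, hl⟩ := Pool.Agent.Lib_755967.EF_tendsto β
  have hmain := Pool.Agent.Lib_755967.main hβ ha hl
  -- the exponent of the Hamiltonian as a dot product
  have hH : ∀ (N : ℕ) (g : Fin N × Fin N → ℝ) (σ : Fin N → Fin 2),
      β / Real.sqrt (N : ℝ) * ∑ i : Fin N, ∑ j : Fin N,
        (if i < j then g (i, j) * (-1 : ℝ) ^ (σ i).val * (-1 : ℝ) ^ (σ j).val else 0) =
      (0 : (Fin N → Fin 2) → ℝ) σ +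
        Pool.Agent.Lib_755967.dot g (Pool.Agent.Lib_755967.vSK N β σ) := by
    intro N g σ
    unfold Pool.Agent.Lib_755967.dot Pool.Agent.Lib_755967.vSK Pool.Agent.Lib_755967.sp
    rw [Fintype.sum_prod_type, Finset.mul_sum, Pi.zero_apply, zero_add]
    refine Finset.sum_congr rfl fun i _ => ?_
    rw [Finset.mul_sum]
    refine Finset.sum_congr rfl fun j _ => ?_
    simp only
    split_ifs
    · ring
    · ring
  have hZ : ∀ (N : ℕ) (g : Fin N × Fin N → ℝ),
      ∑ σ : Fin N → Fin 2, Real.exp (β / Real.sqrt (N : ℝ) * ∑ i : Fin N, ∑ j : Fin N,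
        (if i < j then g (i, j) * (-1 : ℝ) ^ (σ i).val * (-1 : ℝ) ^ (σ j).val else 0)) =
      Pool.Agent.Lib_755967.Z (0 : (Fin N → Fin 2) → ℝ) (Pool.Agent.Lib_755967.vSK N β) g := by
    intro N g
    unfold Pool.Agent.Lib_755967.Z
    exact Finset.sum_congr rfl fun σ _ => by rw [hH]
  refine ⟨l, ?_, ?_⟩
  · refine hl.congr fun N => ?_
    simp only [hZ]
    unfold Pool.Agent.Lib_755967.EF Pool.Agent.Lib_755967.L
    rw [div_eq_mul_one_div, mul_comm]
  · refine hmain.congr fun N => ?_
    simp only [hZ]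
    congr 2
    refine integral_congr_ae (Filter.Eventually.of_forall fun g => ?_)
    simp only
    rw [Real.rpow_def_of_pos (Pool.Agent.Lib_755967.Z_pos _ _ _), mul_comm]
    rfl

end Pool.Agent.S19407
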